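import Pool.Agent.TSP.St

/-!
# TSP, module End: determined ends
-/

set_option autoImplicit false

namespace TSP

open Finset

theorem thm_End : St_End := by
  classical
  intro V G L T M out Fr hF hM
  refine ⟨fun t ht I u v huv hu hv => ?_, fun t ht I J hJI y v hyv hyI hyJ a ha hI hJ => ?_⟩
  · by_cases hb : ∃ b ∈ I.set, b u = false
    · obtain ⟨b, hb, hbu⟩ := hb
      refine Or.inr fun a ha hI => ?_
      have h1 := hM (hF.exch a ha t ht I hI b hb) u v huv
      simp only [mix, if_pos hu, if_neg hv, hbu] at h1
      rcases h1 with h1 | h1
      · exact absurd h1 (by decide)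
      · exact h1
    · refine Or.inl fun a ha hI => ?_
      have h1 := hF.mem a ha t ht I hI
      by_contra hc
      exact hb ⟨a, h1, by simpa using hc⟩
  · have h1 : a ∈ J.set := hF.mem a ha t ht.le J hJ
    set b : V → Bool := Function.update a y false with hb
    have h2 : b ∈ J.set := J.dep a b (fun x hx => by
      have hxy : x ≠ y := by
        rintro rfl
        exact hyJ hx
      rw [hb, Function.update_of_ne hxy]) h1
    have h3 := hM (hF.exch a ha (t + 1) ht I hI b (hJI h2)) y v hyv
    have h4 : v ≠ y := fun h => G.loopless.irrefl y (h ▸ hyv)
    have h5 : mix I.vars b a y = false := by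
      simp only [mix, if_pos hyI]
      rw [hb, Function.update_self]
    have h6 : mix I.vars b a v = a v := by
      simp only [mix]
      split_ifs
      · rw [hb, Function.update_of_ne h4]
      · rfl
    rw [h5, h6] at h3
    rcases h3 with h3 | h3
    · exact absurd h3 (by decide)
    · exact h3

end TSP
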