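import Pool.Agent.TSP.Defs

/-!
# TSP: statements of the modules (MP_4ed1f9_lc, time and memory of exact counters; theorem of helper69, grid form
# of helper4 and helper93, architects helper62 and helper4, captain helper93)

Every module `NAME` proves `theorem thm_NAME : St_NAME`, or `theorem thm_NAME (h : St_OTHER) ... : St_NAME`
with other statements of this file as hypotheses, in the file `Pool/Agent/TSP/NAME.lean`.  Proofs are in
the docstrings.

PLAN.  `G` = the grid with `w` rows and `w * L` columns, divided into `L` blocks of `w` columns.  A set `X` of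
variables TAKES a block if it contains more than half of it.  For a model `a` which is counted by the last item
of a program the frontier at time `t` consists of the items in memory from which the last item is computed on `a`.
The blocks which are taken by an item of the frontier at time `t` increase with `t`, from nothing to everything.
Edges of `G` which leave the set of the variables of a frontier item have an end (which depends on the item only)
which is true for all these models.  The combinatorial part of the lower bound is finished (files Grid, Desc,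
Count, GLrg of helper4).
-/

set_option autoImplicit false

namespace TSP

open Finset
open scoped BigOperators

/-! ## 1. Programs whose items are sets, frontiers -/

/-- an item: a set of assignments which depends on the variables in `vars` only -/
structure It (V : Type) where
  vars : Finset V
  set : Set (V → Bool)
  dep : ∀ a b : V → Bool, (∀ v ∈ vars, a v = b v) → a ∈ set → b ∈ set

section prog

variable {V : Type}

/-- one step -/
def DerB (L : ℕ) (M : Finset (It V)) (I : It V) : Prop :=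
  I.vars.card ≤ L ∨
  (∃ Q ⊆ M, (∀ J ∈ Q, J.vars ⊆ I.vars) ∧ ∀ a, a ∈ I.set ↔ ∃ J ∈ Q, a ∈ J.set) ∨
  ∃ J ∈ M, ∃ K ∈ M, Disjoint J.vars K.vars ∧ (∀ v, v ∈ I.vars ↔ v ∈ J.vars ∨ v ∈ K.vars) ∧
    ∀ a, a ∈ I.set ↔ a ∈ J.set ∧ a ∈ K.set

/-- programs -/
structure ProgB (L S T : ℕ) (M : ℕ → Finset (It V)) : Prop where
  start : M 0 = ∅
  mem : ∀ t ≤ T, (M t).card ≤ S
  step : ∀ t < T, ∃ I, DerB L (M t) I ∧ ∀ J ∈ M (t + 1), J = I ∨ J ∈ M t

/-- [Red] from functions to their supports, and one more step which makes the set of variables of the last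
item full.

Proof.  `supp I = ⟨I.vars, {a | I.f a ≠ 0}, _⟩`, `M' t = (M t).image supp` for `t ≤ T`, `M' (T+1) = {J}`,
`J = ⟨univ, {a | I.f a ≠ 0}, _⟩`.  A combination: `Q` = the images of the items with `c J ≠ 0` (all summands are
nonnegative, so the sum is not zero iff one summand is not zero); product: clear.  The last step: `Q = {supp I}`.
`S ≥ 1` as `I ∈ M T`. -/
def St_Red : Prop :=
  ∀ (V : Type) [Fintype V] (L S T : ℕ) (M : ℕ → Finset (Item V)) (I : Item V), Prog L S T M →
    I ∈ M T → ∃ (M' : ℕ → Finset (It V)) (J : It V), ProgB L S (T + 1) M' ∧ J ∈ M' (T + 1) ∧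
      (∀ v, v ∈ J.vars) ∧ ∀ a, a ∈ J.set ↔ I.f a ≠ 0

open Classical in
/-- `b` on `X`, `a` elsewhere -/
noncomputable def mix (X : Finset V) (b a : V → Bool) : V → Bool := fun v => if v ∈ X then b v else a v

/-- the frontiers `Fr a t` of the elements `a` of the last item -/
structure Fro (L T : ℕ) (M : ℕ → Finset (It V)) (out : It V) (Fr : (V → Bool) → ℕ → Finset (It V)) :
    Prop where
  sub : ∀ a ∈ out.set, ∀ t ≤ T, Fr a t ⊆ M t
  top : ∀ a ∈ out.set, out ∈ Fr a T
  mem : ∀ a ∈ out.set, ∀ t ≤ T, ∀ I ∈ Fr a t, a ∈ I.set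
  exch : ∀ a ∈ out.set, ∀ t ≤ T, ∀ I ∈ Fr a t, ∀ b ∈ I.set, mix I.vars b a ∈ out.set
  grow : ∀ a ∈ out.set, ∀ t < T, ∀ J ∈ Fr a t, ∃ I ∈ Fr a (t + 1), J.vars ⊆ I.vars
  step : ∀ a ∈ out.set, ∀ t < T, ∃ I₀, (∀ I ∈ Fr a (t + 1), I = I₀ ∨ I ∈ Fr a t) ∧
    (I₀ ∈ Fr a (t + 1) → I₀ ∈ Fr a t ∨ I₀.vars.card ≤ L ∨
      (∃ J ∈ Fr a t, J.vars ⊆ I₀.vars ∧ J.set ⊆ I₀.set) ∨
      ∃ J ∈ Fr a t, ∃ K ∈ Fr a t, ∀ v, v ∈ I₀.vars ↔ v ∈ J.vars ∨ v ∈ K.vars)

/-- [Frt] the frontiers exist.

Proof.  Fix `a ∈ out.set`.  Claim, by induction on `T`: for every finite set `Z ⊆ M T` of items with pairwise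
disjoint sets of variables and `a ∈ I.set` for all `I ∈ Z` there is `F : ℕ → Finset (It V)` with `F T = Z` such that
for all `t ≤ T`: (1) `F t ⊆ M t`; (2) different items of `F t` have disjoint variables; (3) `a` is in all items of
`F t`; (4) every `b` which agrees with `a` outside of the variables of the items of `F t` and is in all items of
`F t` is in all items of `Z` and agrees with `a` outside of the variables of the items of `Z`; (5) the properties `grow`
and `step` for `F`.
Step from `T` to `T + 1`: let `Z ⊆ M (T+1)` and `I` the new item of the step.  If `I ∉ Z` or `I ∈ M T`: `Z ⊆ M T`, use the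
claim for `Z` and put `F (T+1) = Z` (`I₀ = I`).  Otherwise `Z \ {I} ⊆ M T`, and `Z' = (Z \ {I}) ∪ O`, where `O` is: empty if
`I.vars.card ≤ L`; `{J}` with `J ∈ Q`, `a ∈ J.set` in the second case; `{J, K}` in the third case.  `Z'` satisfies (2)
(`O` has disjoint variables contained in `I.vars`; an item of `O` may also be in `Z \ {I}`, it has then no variables),
(3), and (4) from `Z'` to `Z`: `b ∈ I.set`: in the first case `b` agrees with `a` on `I.vars` (these variables are outside
of the variables of `Z'`), in the second case `b ∈ J.set ⊆ I.set`, in the third case clear.  Use the claim for `Z'`.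
Then `Z = {out}`.  `exch`: let `b ∈ I.set`, `I ∈ F t`, `b' = mix I.vars b a`: it agrees with `a` outside of `I.vars`, it is in
`I.set` (agrees with `b` on `I.vars`) and in the other items of `F t` (agrees with `a` on their variables). -/
def St_Frt : Prop :=
  ∀ (V : Type) (L S T : ℕ) (M : ℕ → Finset (It V)) (out : It V), ProgB L S T M → out ∈ M T →
    ∃ Fr : (V → Bool) → ℕ → Finset (It V), Fro L T M out Fr

/-- the variable `v` is true in all elements of the last item with `I` in the frontier at time `t` -/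
def FoB (out : It V) (Fr : (V → Bool) → ℕ → Finset (It V)) (t : ℕ) (I : It V) (v : V) : Prop :=
  ∀ a ∈ out.set, I ∈ Fr a t → a v = true

/-- the variable `v` is true in all elements of the last item with `I` in the frontier at time `t + 1` and `J` in
the frontier at time `t` -/
def FoA (out : It V) (Fr : (V → Bool) → ℕ → Finset (It V)) (t : ℕ) (I J : It V) (v : V) : Prop :=
  ∀ a ∈ out.set, I ∈ Fr a (t + 1) → J ∈ Fr a t → a v = true

/-- [End] an edge which leaves the set of the variables of a frontier item has a true end; if the variables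
in `I.vars \ J.vars` are free their neighbours are true.

Proof.  (1) If `b ∈ I.set` with `b u = false` exists: for all `a ∈ out.set` with `I ∈ Fr a t`, `mix I.vars b a ∈ out.set ⊆ Mod G`
is false at `u`, so it is true at `v`, and its value at `v ∉ I.vars` is `a v`.  Otherwise `a ∈ I.set` (`mem`) gives
`a u = true`.  (2) `J.set ⊆ I.set`, `y ∈ I.vars`, `y ∉ J.vars`: let `b` be `a` with the value at `y` changed to `false`:
`b ∈ J.set` (`dep`), so `b ∈ I.set` and `mix I.vars b a = b` is in `out.set ⊆ Mod G`, so `b v = true`, `v ≠ y`, `a v = true`. -/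
def St_End : Prop :=
  ∀ (V : Type) (G : SimpleGraph V) (L T : ℕ) (M : ℕ → Finset (It V)) (out : It V)
    (Fr : (V → Bool) → ℕ → Finset (It V)), Fro L T M out Fr → out.set ⊆ Mod G →
    (∀ t ≤ T, ∀ (I : It V) (u v : V), G.Adj u v → u ∈ I.vars → v ∉ I.vars →
      FoB out Fr t I u ∨ FoB out Fr t I v) ∧
    ∀ t < T, ∀ I J : It V, J.set ⊆ I.set → ∀ y v : V, G.Adj y v → y ∈ I.vars → y ∉ J.vars →
      FoA out Fr t I J v

/-- [Prb] many variables are rarely all true.

Proof.  Induction on `Z`.  Let `z ∉ Z`, `A = {a ∈ Mod G : a = true on Z}`.  The map `A → A` which sends `a` to `a'`,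
`a' z = false`, `a' v = true` for the neighbours `v` of `z`, `a' = a` elsewhere (`a' ∈ Mod G`; `a'` is true on `Z` as `z ∉ Z`)
has fibres of at most `2^(d+1)` elements (`a` is determined by `a'` and its values on `z` and its neighbours) and
its values are false at `z`.  So `#A ≤ 2^(d+1) #{a ∈ A : a z = false}`, hence
`2^(d+1) #{a ∈ A : a z = true} ≤ (2^(d+1) - 1) #A`. -/
def St_Prb : Prop :=
  ∀ (V : Type) [Fintype V] (G : SimpleGraph V) (d : ℕ), (∀ v, (G.neighborSet v).ncard ≤ d) →
    ∀ Z : Finset V, (2 ^ (d + 1)) ^ Z.card * {a | a ∈ Mod G ∧ ∀ z ∈ Z, a z = true}.ncard ≤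
      (2 ^ (d + 1) - 1) ^ Z.card * (Mod G).ncard

end prog

/-! ## 2. Numbers -/

/-- [Num] the numbers (the hypothesis is the main inequality `thm_GLrg` for `T + 1` steps, divided by the number of the
models).

Proof.  `x = 31/32`, `x^32 ≤ 1/2`, so `x^z ≤ 2^(-z/32)`.  Let `C ≥ C₀ = 2^16` (or larger, as convenient), `λ = log2 L ≥ 1`
(real), and suppose `T^C < L^w`, so `log2 T < w λ/C`.  `J` = the least number with `T + 1 ≤ 2^J`: `1 ≤ J ≤ log2 T + 2 ≤ 3 w λ/C`.
`R` = the least number with `2048 J ≤ R w`: `1 ≤ R`, `R - 1 < 2048 J/w ≤ 6144 λ/C ≤ λ/8`, `2^(R-1) ≤ L^(1/8)`.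
`l = L / 2^(R-1)` (natural division): `l ≥ 1`, `l ≥ L^(7/8)/2`; `2 lam ≤ 2 w L^(1/2) < l w^2`.  `w/4 ≥ w/8` (left side natural
division), so `x^(w/4*R/2) ≤ 2 * 2^(-w R/512)` and `x^(w/4*l) ≤ 2^(-w l/256)`.
First summand: `J ≤ 3 w λ/C ≤ w^2` (`λ ≤ w/C`), `log2 (J S L) ≤ 2 log2 w + 2 w/C ≤ w/1024` (`w ≥ C ≥ 2^16`), so at most
`2^(J + R w/1024 + 1 - R w/512) ≤ 2^(1 - R w/2048) ≤ 2^(1 - w/2048)` (`J ≤ R w/2048`).
Second summand: at most `2^(J + 1 + 2 w/C - w l/256) ≤ 2^(-w/1024)` (`l ≥ 1`, `l ≥ λ/4`, `J ≤ 3 w λ/C`).  The sum is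
smaller than `2^(-w/C) ≤ p`. -/
def St_Num : Prop :=
  ∃ C₀ : ℕ, 2 ≤ C₀ ∧ ∀ C ≥ C₀, ∀ (w L lam S T : ℕ) (p : ℝ), C ≤ w → 2 ≤ L → L ^ C ≤ 2 ^ w →
    1 ≤ T → 1 ≤ S → S ^ C ≤ 2 ^ w → lam ^ 2 ≤ w ^ 2 * L → 0 < p → 1 ≤ 2 ^ w * p ^ C →
    (∀ J R l : ℕ, T + 1 ≤ 2 ^ J → 1 ≤ R → 1 ≤ l → l * 2 ^ (R - 1) ≤ L → 2 * lam < l * (w * w) →
      p ≤ 2 ^ J * (((J * (S * L) : ℕ) : ℝ) ^ R * (31 / 32 : ℝ) ^ (w / 4 * R / 2)) +
        2 ^ J * (((2 * S ^ 2 : ℕ) : ℝ) * (31 / 32 : ℝ) ^ (w / 4 * l))) →
    L ^ w ≤ T ^ C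

/-! ## 3. Upper bounds -/

section upper

variable {V : Type}

/-- a run of `τ` steps with at most `s` items in memory, from the items `A` to the items `B` -/
def Run (L s τ : ℕ) (A B : Finset (Item V)) : Prop :=
  ∃ M : ℕ → Finset (Item V), M 0 ⊆ A ∧ B ⊆ M τ ∧ (∀ t ≤ τ, (M t).card ≤ s) ∧
    ∀ t < τ, ∃ I, Der L (M t) I ∧ ∀ J ∈ M (t + 1), J = I ∨ J ∈ M t

/-- [Rn] elementary properties of runs (`Rn` in one file; the first part is used by everybody).

Proof.  `Der` is monotone in the memory (a combination: extend `c` by zero).  (1) concatenation: `M t` for `t ≤ τ`,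
`M' (t - τ)` for `t > τ`.  (2) keep the items `R` all the time.  (3) waiting: steps which compute a leaf without variables and do not
keep it (`M (t+1) = M t`).  (4) `M 0 = A`, `M 1 = B`.
(5) `M 0 ⊆ ∅`. -/
def St_Rn : Prop :=
  ∀ (V : Type) (L : ℕ),
    (∀ (s τ τ' : ℕ) (A B C : Finset (Item V)), Run L s τ A B → Run L s τ' B C →
      Run L s (τ + τ') A C) ∧
    (∀ (s τ : ℕ) (A B R A' B' : Finset (Item V)), Run L s τ A B → (∀ J ∈ A, J ∈ A') →
      (∀ J ∈ R, J ∈ A') → (∀ J ∈ B', J ∈ B ∨ J ∈ R) → Run L (s + R.card) τ A' B') ∧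
    (∀ (s s' τ τ' : ℕ) (A B A' B' : Finset (Item V)), Run L s τ A B → s ≤ s' → τ ≤ τ' → A ⊆ A' →
      B' ⊆ B → Run L s' τ' A' B') ∧
    (∀ (s : ℕ) (A B : Finset (Item V)) (I : Item V), Der L A I → A.card ≤ s → B.card ≤ s →
      (∀ J ∈ B, J = I ∨ J ∈ A) → Run L s 1 A B) ∧
    ∀ (s τ : ℕ) (B : Finset (Item V)), Run L s τ ∅ B → ∃ M, Prog L s τ M ∧ B ⊆ M τ

open Classical in
/-- the item of one assignment of the variables in `W` -/
noncomputable def pt (W : Finset V) (c : V → Bool) : Item V where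
  vars := W
  f := fun a => if ∀ v ∈ W, a v = c v then 1 else 0
  nonneg := fun a => by split_ifs <;> norm_num
  dep := fun a b hab => by
    have : (∀ v ∈ W, a v = c v) ↔ ∀ v ∈ W, b v = c v :=
      ⟨fun h v hv => (hab v hv).symm.trans (h v hv), fun h v hv => (hab v hv).trans (h v hv)⟩
    simp only [this]

/-- [RnP] the items `pt` and products of three items; from `Rn`.

Proof.  (1) `pt ∅ c` is a leaf; for every `v ∈ W` one more leaf `pt {v} c` and one product (two steps per variable,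
at most three items in memory).  (2) two products: `{X, Y, Z}`, `{X Y, Z}`, `{X Y Z}`. -/
def St_RnP : Prop :=
  ∀ V : Type, (∀ (W : Finset V) (c : V → Bool), Run 1 3 (2 * W.card + 1) ∅ {pt W c}) ∧
    ∀ X Y Z P : Item V, Disjoint X.vars Y.vars → Disjoint X.vars Z.vars → Disjoint Y.vars Z.vars →
      (∀ v, v ∈ P.vars ↔ v ∈ X.vars ∨ v ∈ Y.vars ∨ v ∈ Z.vars) →
      (∀ a, P.f a = X.f a * Y.f a * Z.f a) → ∀ A : Finset (Item V), X ∈ A → Y ∈ A → Z ∈ A →
      Run 1 3 2 A {P}

/-- [RnS] sums; from `Rn`.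

Proof.  For `Ω' ⊆ Ω` let `S Ω'` be the item with the variables of `I` and the function `∑_(i ∈ Ω') (P i).f`.  Start with
`S ∅ = 0` (a combination with coefficients zero, one step).  For the next `i`: keep `S Ω'` and run from `A` to
`insert (P i) A` (memory `s + 1`, time `τ`), then one combination `S (Ω' ∪ {i}) = S Ω' + P i` (coefficient 2 if the two
items are equal); the new memory is `A` and this item (`A.card + 1 ≤ s`: if `Ω` is not empty it follows from `A.card + 1 ≤ s`).  At the end `S Ω` and `I` have the same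
variables and functions. -/
def St_RnS : Prop :=
  ∀ (V ι : Type) (L s τ : ℕ) (Ω : Finset ι) (P : ι → Item V) (I : Item V) (A B : Finset (Item V)),
    A.card + 1 ≤ s → (∀ i ∈ Ω, ∀ B' : Finset (Item V), (∀ J ∈ B', J = P i ∨ J ∈ A) →
      Run L s τ A B') → (∀ i ∈ Ω, (P i).vars ⊆ I.vars) → (∀ a, I.f a = ∑ i ∈ Ω, (P i).f a) →
    (∀ J ∈ B, J = I ∨ J ∈ A) → Run L (s + 1) (Ω.card * (τ + 1) + 1) A B

open Classical in
/-- the column number `r` (the columns are numbered from `1` to `l`) -/
noncomputable def col (w l r : ℕ) : Finset (Fin w × Fin l) :=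
  univ.filter fun v => (v.2 : ℕ) + 1 = r

open Classical in
/-- the vertices in the columns strictly between `p` and `q` -/
noncomputable def seg (w l p q : ℕ) : Finset (Fin w × Fin l) :=
  univ.filter fun v => p < (v.2 : ℕ) + 1 ∧ (v.2 : ℕ) + 1 < q

/-- the assignment `a` of the columns between `p` and `q` satisfies all clauses, if the assignments of the
columns `p` and `q` are `c` and `c'` (the clauses inside of these two columns are not considered) -/
def OkU {w l : ℕ} (p q : ℕ) (c c' : Fin w → Bool) (a : Fin w × Fin l → Bool) : Prop :=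
  (∀ u v, (gr w l).Adj u v → u ∈ seg w l p q → v ∈ seg w l p q → a u = true ∨ a v = true) ∧
  (∀ v ∈ seg w l p q, (v.2 : ℕ) = p → a v = true ∨ c v.1 = true) ∧
  (∀ v ∈ seg w l p q, (v.2 : ℕ) + 2 = q → a v = true ∨ c' v.1 = true) ∧
  (q = p + 1 → ∀ j, c j = true ∨ c' j = true)

theorem OkU_congr {w l : ℕ} {p q : ℕ} {c c' : Fin w → Bool} {a b : Fin w × Fin l → Bool}
    (hab : ∀ v ∈ seg w l p q, a v = b v) (h : OkU p q c c' a) : OkU p q c c' b := by
  obtain ⟨h1, h2, h3, h4⟩ := h
  refine ⟨fun u v huv hu hv => ?_, fun v hv hp => ?_, fun v hv hq => ?_, h4⟩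
  · rw [← hab u hu, ← hab v hv]; exact h1 u v huv hu hv
  · rw [← hab v hv]; exact h2 v hv hp
  · rw [← hab v hv]; exact h3 v hv hq

open Classical in
/-- the item of the segment between the columns `p` and `q` with boundary values `c`, `c'` -/
noncomputable def Us {w : ℕ} (l p q : ℕ) (c c' : Fin w → Bool) : Item (Fin w × Fin l) where
  vars := seg w l p q
  f := fun a => if OkU p q c c' a then 1 else 0
  nonneg := fun a => by split_ifs <;> norm_num
  dep := fun a b hab => by
    have : OkU p q c c' a ↔ OkU p q c c' b :=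
      ⟨OkU_congr hab, OkU_congr fun v hv => (hab v hv).symm⟩
    simp only [this]

/-- [Rec] the recursion.  (`Pool.Agent.TSP.grid_adj` in Grid.lean describes the adjacency.)

Proof.  `Ω` = the assignments of the column `r` which satisfy the vertical clauses inside of the column.  For
every `a` exactly one `c''` has `pt (col r) c'' = 1` (the values of `a` on the column `r`, `1 ≤ r ≤ l`); for this `c''` the
clauses in `OkU p q c c' a` are: those inside of the column `r` (`c'' ∈ Ω`), and `OkU p r c c'' a`, `OkU r q c'' c' a` (if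
`r = p + 1` the clauses between the columns `p` and `r` are in the last part of `OkU p r c c''`, the same for
`q = r + 1`).  Last part: `seg 0 (l + 1)` is everything, and with constant boundary values `true` all clauses of
the grid are in the first part of `OkU`. -/
def St_Rec : Prop :=
  ∀ w l : ℕ, (∀ p r q : ℕ, p < r → r < q → q ≤ l + 1 →
      (Disjoint (col w l r) (seg w l p r) ∧ Disjoint (col w l r) (seg w l r q) ∧
        Disjoint (seg w l p r) (seg w l r q) ∧
        ∀ v, v ∈ seg w l p q ↔ v ∈ col w l r ∨ v ∈ seg w l p r ∨ v ∈ seg w l r q) ∧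
      ∀ c c' : Fin w → Bool, ∃ Ω : Finset (Fin w → Bool), ∀ a : Fin w × Fin l → Bool,
        (Us l p q c c').f a = ∑ c'' ∈ Ω, (pt (col w l r) (fun v => c'' v.1)).f a *
          (Us l p r c c'').f a * (Us l r q c'' c').f a) ∧
    (∀ p : ℕ, seg w l p (p + 1) = ∅) ∧
    (∀ r, (col w l r).card ≤ w) ∧
    ∀ a : Fin w × Fin l → Bool,
      (a ∈ Mod (gr w l) → (Us l 0 (l + 1) (fun _ : Fin w => true) (fun _ => true)).f a = 1) ∧
      (a ∉ Mod (gr w l) → (Us l 0 (l + 1) (fun _ : Fin w => true) (fun _ => true)).f a = 0)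

/-- [UpA] little memory (divide and conquer); from `Rn`, `RnP`, `RnS`, `Rec`.

Proof.  Claim, by induction on `t`: if `p < q ≤ l + 1`, `q - p ≤ 2^t` then for all `c, c'`
`Run 1 (3 t + 4) τ ∅ {Us l p q c c'}` with some `τ ≤ τ_t`, `τ_0 = 1` (no variables: a leaf),
`τ_(t+1) = 2^w (2 τ_t + 2 w + 4) + 1`.  Step: if `q - p ≤ 2^t` use the claim for `t`; otherwise `r = p + 2^t`, and for
`c'' ∈ Ω` the product of `pt (col r) c''`, `Us p r c c''`, `Us r q c'' c'` is computed from `∅`: run to
`Us p r c c''`, keep it (memory `+1`), run to `Us r q c'' c'`, keep both, run to the point (`RnP` (1), memory `3 + 2`), then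
the product (`RnP` (2)): memory at most `3 t + 6`, time `2 τ_t + 2 w + 1 + 2`; then `RnS` with `A = ∅`, `#Ω ≤ 2^w` (for
`RnS` all runs need the same time and memory: `Rn` (3)).
`τ_t ≤ 2^(5 w (t+1))`, `l + 1 ≤ 2^t` for `t = Nat.log 2 l + 1`. -/
def St_UpA : Prop :=
  ∃ C : ℕ, ∀ w l : ℕ, 1 ≤ w → 2 ≤ l → Count w l (C * Nat.log 2 l) (l ^ (C * w))

/-- [UpB] the transfer matrix method; from `Rn`, `RnP`, `RnS`, `Rec`.

Proof.  `Tab q` = the set of the `Us l 0 q true c'` for all `c'`, at most `X = 2^w` items (`q ≥ 1`).  `Tab 1`: leaves without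
variables, `X` steps.  From `A = Tab q` to `Tab (q+1)` (`q ≤ l`): for the `c'` one after the other (keeping `A` and the
part of `Tab (q+1)` computed so far, at most `2 X` items) compute `Us l 0 (q+1) true c'` by `Rec` with `r = q` and `RnS`: the
products of `pt (col q) c''`, `Us 0 q true c''` (in `A`), `Us q (q+1) c'' c'` (a leaf without variables).  Memory at most
`2 X + 10`, time `X (X (2 w + 10) + 2)` for each `q`.  At the end `q = l + 1`, `c' = true`. -/
def St_UpB : Prop :=
  ∃ C : ℕ, ∀ w l : ℕ, 1 ≤ w → 1 ≤ l → Count w l (2 ^ (C * w)) (2 ^ (C * w) * l)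

end upper

/-! ## 4. The theorem -/

/-- [Main] from `Red`, `thm_GLrg` (with `Frt`, `End`, `Prb`), `Num`, `UpA`, `UpB`.

Proof.  Lower bound: `Red`, then `thm_GLrg` for `T + 1`, `p = #out / #Mod` (`#Mod > 0`: the constant assignment
true), `Num`.  `T ≥ 1` as `M 0 = ∅`, `S ≥ 1`. -/
def St_Main : Prop :=
  ∃ C : ℕ, 1 ≤ C ∧ ∀ w L : ℕ, C ≤ w → 2 ≤ L →
    (L ^ C ≤ 2 ^ w → ∀ (K S T : ℕ) (M : ℕ → Finset (Item (Fin w × Fin (w * L))))
      (I : Item (Fin w × Fin (w * L))),
      K ^ 2 ≤ w ^ 2 * L → S ^ C ≤ 2 ^ w → Prog K S T M → I ∈ M T →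
      (∀ a, I.f a ≠ 0 → a ∈ Mod (gr w (w * L))) →
      (Mod (gr w (w * L))).ncard ^ C ≤ 2 ^ w * {a | I.f a ≠ 0}.ncard ^ C → L ^ w ≤ T ^ C) ∧
    Count w (w * L) (2 ^ (C * w)) (2 ^ (C * w) * L) ∧
    Count w (w * L) (C * Nat.log 2 (w * L)) ((w * L) ^ (C * w))

end TSP
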