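import Mathlib
import Pool.Agent.TSP.St

/-!
# TSP, module FRT: the frontiers exist
-/

set_option autoImplicit false

namespace TSP

variable {V : Type}

/-- `b` agrees with `a` outside of the variables of the items of `Z` and is in all items of `Z` -/
private def FR_c (a b : V → Bool) (Z : Finset (It V)) : Prop :=
  (∀ I ∈ Z, b ∈ I.set) ∧ ∀ v, (∀ I ∈ Z, v ∉ I.vars) → b v = a v

/-- different items have disjoint variables, and `a` is in all of them -/
private def FR_d (a : V → Bool) (Z : Finset (It V)) : Prop :=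
  (∀ I ∈ Z, ∀ J ∈ Z, I ≠ J → Disjoint I.vars J.vars) ∧ ∀ I ∈ Z, a ∈ I.set

/-- the last four properties, for one step from `X` to `Y` -/
private def FR_s (L : ℕ) (X Y : Finset (It V)) : Prop :=
  (∀ J ∈ X, ∃ I ∈ Y, J.vars ⊆ I.vars) ∧
  ∃ I₀, (∀ I ∈ Y, I = I₀ ∨ I ∈ X) ∧
    (I₀ ∈ Y → I₀ ∈ X ∨ I₀.vars.card ≤ L ∨
      (∃ J ∈ X, J.vars ⊆ I₀.vars ∧ J.set ⊆ I₀.set) ∨
      ∃ J ∈ X, ∃ K ∈ X, ∀ v, v ∈ I₀.vars ↔ v ∈ J.vars ∨ v ∈ K.vars)

private def FR_p (L : ℕ) (M : ℕ → Finset (It V)) (a : V → Bool) (T : ℕ) (Z : Finset (It V))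
    (F : ℕ → Finset (It V)) : Prop :=
  F T = Z ∧ (∀ t ≤ T, F t ⊆ M t ∧ FR_d a (F t) ∧ ∀ b, FR_c a b (F t) → FR_c a b Z) ∧
    ∀ t < T, FR_s L (F t) (F (t + 1))

/-- one more step -/
private theorem FR_step {L : ℕ} {M : ℕ → Finset (It V)} {a : V → Bool} {T : ℕ}
    {Z Z' : Finset (It V)} (hZ : Z ⊆ M (T + 1)) (hd : FR_d a Z)
    (hc : ∀ b, FR_c a b Z' → FR_c a b Z) (hs : FR_s L Z' Z)
    (h : ∃ F, FR_p L M a T Z' F) : ∃ F, FR_p L M a (T + 1) Z F := by
  obtain ⟨F, h1, h2, h3⟩ := h
  refine ⟨fun t => if t ≤ T then F t else Z, if_neg (by omega), ?_, ?_⟩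
  · intro t ht
    by_cases h : t ≤ T
    · simp only [if_pos h]
      obtain ⟨e1, e2, e3⟩ := h2 t h
      exact ⟨e1, e2, fun b hb => hc b (e3 b hb)⟩
    · have h' : t = T + 1 := by omega
      simp only [if_neg h]
      rw [h']
      exact ⟨hZ, hd, fun b hb => hb⟩
  · intro t ht
    by_cases h : t < T
    · simp only [if_pos h.le, if_pos (show t + 1 ≤ T from h)]
      exact h3 t h
    · have h' : t = T := by omega
      subst h'
      have e1 : ¬ (t + 1 ≤ t) := by omega
      simp only [if_pos le_rfl, if_neg e1]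
      rw [h1]
      exact hs

private theorem FR_main {L : ℕ} {M : ℕ → Finset (It V)} (a : V → Bool) (T : ℕ)
    (hstep : ∀ t < T, ∃ I, DerB L (M t) I ∧ ∀ J ∈ M (t + 1), J = I ∨ J ∈ M t) :
    ∀ Z ⊆ M T, FR_d a Z → ∃ F, FR_p L M a T Z F := by
  classical
  induction T with
  | zero =>
    intro Z hZ hd
    refine ⟨fun _ => Z, rfl, ?_, fun t ht => absurd ht (Nat.not_lt_zero t)⟩
    intro t ht
    have : t = 0 := by omega
    rw [this]
    exact ⟨hZ, hd, fun b hb => hb⟩
  | succ T ih =>
    intro Z hZ hd
    have ih' := ih fun t ht => hstep t (by omega)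
    obtain ⟨I, hder, hnew⟩ := hstep T (Nat.lt_succ_self T)
    by_cases hA : Z ⊆ M T
    · refine FR_step hZ hd (fun b hb => hb) ?_ (ih' Z hA hd)
      exact ⟨fun J hJ => ⟨J, hJ, subset_rfl⟩, I, fun J hJ => Or.inr hJ, fun h => Or.inl h⟩
    · obtain ⟨J0, hJ0, hJ0'⟩ := Finset.not_subset.1 hA
      have hJI : J0 = I := (hnew J0 (hZ hJ0)).resolve_right hJ0'
      have hIZ : I ∈ Z := hJI ▸ hJ0
      have herase : Z.erase I ⊆ M T := by
        intro J hJ
        rw [Finset.mem_erase] at hJ
        exact (hnew J (hZ hJ.2)).resolve_left hJ.1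
      have haI : a ∈ I.set := hd.2 I hIZ
      -- the general step
      have gen : ∀ O : Finset (It V), O ⊆ M T → (∀ X ∈ O, ∀ Y ∈ O, X ≠ Y → Disjoint X.vars Y.vars) →
          (∀ X ∈ O, X.vars ⊆ I.vars ∧ a ∈ X.set) →
          (∀ b, (∀ v ∈ I.vars, (∀ X ∈ O, v ∉ X.vars) → b v = a v) → (∀ X ∈ O, b ∈ X.set) →
            b ∈ I.set) →
          (I.vars.card ≤ L ∨ (∃ J ∈ O, J.vars ⊆ I.vars ∧ J.set ⊆ I.set) ∨
            ∃ J ∈ O, ∃ K ∈ O, ∀ v, v ∈ I.vars ↔ v ∈ J.vars ∨ v ∈ K.vars) →
          ∃ F, FR_p L M a (T + 1) Z F := by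
        intro O hO hOd hOI hOc hOs
        refine FR_step (Z' := Z.erase I ∪ O) hZ hd ?_ ?_ (ih' _ (Finset.union_subset herase hO) ?_)
        · -- back
          rintro b ⟨hb1, hb2⟩
          constructor
          · intro J hJ
            by_cases hJI : J = I
            · rw [hJI]
              refine hOc b ?_ fun X hX => hb1 X (Finset.mem_union_right _ hX)
              intro v hv hv'
              refine hb2 v fun X hX => ?_
              rcases Finset.mem_union.1 hX with hX | hX
              · rw [Finset.mem_erase] at hX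
                exact Finset.disjoint_right.1 (hd.1 X hX.2 I hIZ hX.1) hv
              · exact hv' X hX
            · exact hb1 J (Finset.mem_union_left _ (Finset.mem_erase.2 ⟨hJI, hJ⟩))
          · intro v hv
            refine hb2 v fun X hX => ?_
            rcases Finset.mem_union.1 hX with hX | hX
            · exact hv X (Finset.mem_of_mem_erase hX)
            · exact fun h => hv I hIZ ((hOI X hX).1 h)
        · -- one step
          refine ⟨?_, I, ?_, ?_⟩
          · intro J hJ
            rcases Finset.mem_union.1 hJ with hJ | hJ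
            · exact ⟨J, Finset.mem_of_mem_erase hJ, subset_rfl⟩
            · exact ⟨I, hIZ, (hOI J hJ).1⟩
          · intro J hJ
            by_cases hJI : J = I
            · exact Or.inl hJI
            · exact Or.inr (Finset.mem_union_left _ (Finset.mem_erase.2 ⟨hJI, hJ⟩))
          · intro _
            right
            rcases hOs with h | ⟨J, hJ, h1, h2⟩ | ⟨J, hJ, K, hK, h⟩
            · exact Or.inl h
            · exact Or.inr (Or.inl ⟨J, Finset.mem_union_right _ hJ, h1, h2⟩)
            · exact Or.inr (Or.inr ⟨J, Finset.mem_union_right _ hJ, K, Finset.mem_union_right _ hK, h⟩)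
        · -- disjoint
          constructor
          · intro X hX Y hY hXY
            rcases Finset.mem_union.1 hX with hX | hX <;> rcases Finset.mem_union.1 hY with hY | hY
            · exact hd.1 X (Finset.mem_of_mem_erase hX) Y (Finset.mem_of_mem_erase hY) hXY
            · rw [Finset.mem_erase] at hX
              exact Finset.disjoint_of_subset_right (hOI Y hY).1 (hd.1 X hX.2 I hIZ hX.1)
            · rw [Finset.mem_erase] at hY
              exact (Finset.disjoint_of_subset_right (hOI X hX).1 (hd.1 Y hY.2 I hIZ hY.1)).symm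
            · exact hOd X hX Y hY hXY
          · intro X hX
            rcases Finset.mem_union.1 hX with hX | hX
            · exact hd.2 X (Finset.mem_of_mem_erase hX)
            · exact (hOI X hX).2
      rcases hder with hc | ⟨Q, hQ, hQv, hQs⟩ | ⟨J, hJ, K, hK, hJK, hv, hs⟩
      · refine gen ∅ (Finset.empty_subset _) (by simp) (by simp) ?_ (Or.inl hc)
        intro b hb _
        exact I.dep a b (fun v hv => (hb v hv (by simp)).symm) haI
      · obtain ⟨J, hJ, haJ⟩ := (hQs a).1 haI
        refine gen {J} (Finset.singleton_subset_iff.2 (hQ hJ)) ?_ ?_ ?_ (Or.inr (Or.inl ⟨J,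
          Finset.mem_singleton_self _, hQv J hJ, fun b hb => (hQs b).2 ⟨J, hJ, hb⟩⟩))
        · intro X hX Y hY hXY
          rw [Finset.mem_singleton] at hX hY
          exact absurd (hX.trans hY.symm) hXY
        · intro X hX
          rw [Finset.mem_singleton] at hX
          rw [hX]
          exact ⟨hQv J hJ, haJ⟩
        · intro b _ hb
          exact (hQs b).2 ⟨J, hJ, hb J (Finset.mem_singleton_self _)⟩
      · obtain ⟨haJ, haK⟩ := (hs a).1 haI
        refine gen {J, K} ?_ ?_ ?_ ?_ (Or.inr (Or.inr ⟨J, Finset.mem_insert_self _ _, K,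
          Finset.mem_insert_of_mem (Finset.mem_singleton_self _), hv⟩))
        · intro X hX
          rcases Finset.mem_insert.1 hX with rfl | hX
          · exact hJ
          · rw [Finset.mem_singleton] at hX
            rw [hX]
            exact hK
        · intro X hX Y hY hXY
          rw [Finset.mem_insert, Finset.mem_singleton] at hX hY
          rcases hX with rfl | rfl <;> rcases hY with rfl | rfl
          · exact absurd rfl hXY
          · exact hJK
          · exact hJK.symm
          · exact absurd rfl hXY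
        · intro X hX
          rw [Finset.mem_insert, Finset.mem_singleton] at hX
          rcases hX with rfl | rfl
          · exact ⟨fun v h => (hv v).2 (Or.inl h), haJ⟩
          · exact ⟨fun v h => (hv v).2 (Or.inr h), haK⟩
        · intro b _ hb
          exact (hs b).2 ⟨hb J (Finset.mem_insert_self _ _),
            hb K (Finset.mem_insert_of_mem (Finset.mem_singleton_self _))⟩

/-- **Module FRT** -/
theorem thm_Frt : St_Frt := by
  classical
  intro V L S T M out hprog hout
  have h : ∀ a : V → Bool, ∃ F : ℕ → Finset (It V), a ∈ out.set → FR_p L M a T {out} F := by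
    intro a
    by_cases ha : a ∈ out.set
    · obtain ⟨F, hF⟩ := FR_main a T hprog.step {out} (Finset.singleton_subset_iff.2 hout)
        ⟨by
          intro X hX Y hY hXY
          rw [Finset.mem_singleton] at hX hY
          exact absurd (hX.trans hY.symm) hXY, by
          intro X hX
          rw [Finset.mem_singleton] at hX
          rw [hX]
          exact ha⟩
      exact ⟨F, fun _ => hF⟩
    · exact ⟨fun _ => ∅, fun h => absurd h ha⟩
  choose Fr hFr using h
  refine ⟨Fr, ⟨?_, ?_, ?_, ?_, ?_, ?_⟩⟩
  · intro a ha t ht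
    exact ((hFr a ha).2.1 t ht).1
  · intro a ha
    rw [(hFr a ha).1]
    exact Finset.mem_singleton_self _
  · intro a ha t ht I hI
    exact ((hFr a ha).2.1 t ht).2.1.2 I hI
  · intro a ha t ht I hI b hb
    obtain ⟨-, ⟨hd1, hd2⟩, hc⟩ := (hFr a ha).2.1 t ht
    have hb' : FR_c a (mix I.vars b a) (Fr a t) := by
      constructor
      · intro J hJ
        by_cases hJI : J = I
        · rw [hJI]
          refine I.dep b _ ?_ hb
          intro v hv
          unfold mix
          rw [if_pos hv]
        · refine J.dep a _ ?_ (hd2 J hJ)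
          intro v hv
          unfold mix
          rw [if_neg (Finset.disjoint_left.1 (hd1 J hJ I hI hJI) hv)]
      · intro v hv
        unfold mix
        rw [if_neg (hv I hI)]
    exact (hc _ hb').1 out (Finset.mem_singleton_self _)
  · intro a ha t ht J hJ
    exact ((hFr a ha).2.2 t ht).1 J hJ
  · intro a ha t ht
    exact ((hFr a ha).2.2 t ht).2

end TSP
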