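import Mathlib

/-!
# TSP, module GNUM: the numbers

`h = log2 L`, `J = log2 T + 1`, `R = h / 2 + 1`, `l = 2 ^ (h - h / 2)`.
-/

set_option autoImplicit false

namespace Pool.Agent.TSP

private theorem GN_root {a x y : ℝ} {C : ℕ} (hC : C ≠ 0) (ha : 0 ≤ a) (h : a ^ C ≤ (2 : ℝ) ^ y)
    (hxy : x * C = y) : a ≤ (2 : ℝ) ^ x := by
  have h1 : ((2 : ℝ) ^ x) ^ C = (2 : ℝ) ^ y := by
    rw [← Real.rpow_natCast, ← Real.rpow_mul (by norm_num), hxy]
  rw [← h1] at h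
  exact (pow_le_pow_iff_left₀ ha (by positivity) hC).1 h

private theorem GN_root' {a x y : ℝ} {C : ℕ} (hC : C ≠ 0) (ha : 0 ≤ a) (h : (2 : ℝ) ^ y ≤ a ^ C)
    (hxy : x * C = y) : (2 : ℝ) ^ x ≤ a := by
  have h1 : ((2 : ℝ) ^ x) ^ C = (2 : ℝ) ^ y := by
    rw [← Real.rpow_natCast, ← Real.rpow_mul (by norm_num), hxy]
  rw [← h1] at h
  exact (pow_le_pow_iff_left₀ (by positivity) ha hC).1 h

private theorem GN_base (n : ℕ) : (31 / 32 : ℝ) ^ n ≤ (2 : ℝ) ^ (-((n : ℝ) / 32)) := by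
  have h1 : (31 / 32 : ℝ) ≤ (2 : ℝ) ^ (-(1 / 32) : ℝ) := by
    refine GN_root (C := 32) (y := -1) (by norm_num) (by norm_num) ?_ (by norm_num)
    rw [Real.rpow_neg_one]
    norm_num
  calc (31 / 32 : ℝ) ^ n ≤ ((2 : ℝ) ^ (-(1 / 32) : ℝ)) ^ n := pow_le_pow_left₀ (by norm_num) h1 n
    _ = (2 : ℝ) ^ (-((n : ℝ) / 32)) := by
      rw [← Real.rpow_natCast, ← Real.rpow_mul (by norm_num)]
      congr 1
      ring

private theorem GN_sq (w : ℕ) (hw : 2 ^ 19 ≤ w) : ((w : ℝ)) ^ 2 ≤ (2 : ℝ) ^ ((w : ℝ) / 6400) := by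
  set k := w / 25600 with hk
  have h1 : w < 25600 * (k + 1) := by omega
  have h2 : k + 1 ≤ 2 ^ k := Nat.lt_two_pow_self
  have h3 : (w : ℝ) ≤ 25600 * (2 : ℝ) ^ k := by
    have : w ≤ 25600 * 2 ^ k := by
      calc w ≤ 25600 * (k + 1) := h1.le
        _ ≤ 25600 * 2 ^ k := Nat.mul_le_mul_left _ h2
    exact_mod_cast this
  have h4 : (2 : ℝ) ^ k ≤ (2 : ℝ) ^ ((w : ℝ) / 25600) := by
    rw [← Real.rpow_natCast]
    apply Real.rpow_le_rpow_of_exponent_le (by norm_num)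
    rw [le_div_iff₀ (by norm_num)]
    have : k * 25600 ≤ w := by omega
    exact_mod_cast this
  have h5 : (w : ℝ) ^ 2 ≤ (25600 * (2 : ℝ) ^ ((w : ℝ) / 25600)) ^ 2 := by
    apply pow_le_pow_left₀ (Nat.cast_nonneg _)
    exact h3.trans (mul_le_mul_of_nonneg_left h4 (by norm_num))
  refine h5.trans ?_
  have h6 : ((25600 : ℝ) * (2 : ℝ) ^ ((w : ℝ) / 25600)) ^ 2 =
      25600 ^ 2 * (2 : ℝ) ^ ((w : ℝ) / 12800) := by
    rw [mul_pow, ← Real.rpow_natCast ((2 : ℝ) ^ ((w : ℝ) / 25600)), ← Real.rpow_mul (by norm_num)]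
    congr 2
    push_cast
    ring
  have h7 : (25600 : ℝ) ^ 2 ≤ (2 : ℝ) ^ ((w : ℝ) / 12800) := by
    have h8 : (2 : ℝ) ^ (30 : ℝ) ≤ (2 : ℝ) ^ ((w : ℝ) / 12800) := by
      apply Real.rpow_le_rpow_of_exponent_le (by norm_num)
      rw [le_div_iff₀ (by norm_num)]
      have : 30 * 12800 ≤ w := by omega
      exact_mod_cast this
    refine le_trans ?_ h8
    rw [show (30 : ℝ) = ((30 : ℕ) : ℝ) by norm_num, Real.rpow_natCast]
    norm_num
  rw [h6]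
  calc (25600 : ℝ) ^ 2 * (2 : ℝ) ^ ((w : ℝ) / 12800) ≤
      (2 : ℝ) ^ ((w : ℝ) / 12800) * (2 : ℝ) ^ ((w : ℝ) / 12800) :=
        mul_le_mul_of_nonneg_right h7 (by positivity)
    _ = (2 : ℝ) ^ ((w : ℝ) / 6400) := by
      rw [← Real.rpow_add (by norm_num)]
      congr 1
      ring

/-- **GNUM** -/
theorem thm_GNum (C : ℕ) (hC : 2 ^ 19 ≤ C) (w L S T lam : ℕ) (p : ℝ) (hw : C ≤ w) (hL : 2 ≤ L)
    (hT : 1 ≤ T) (hS : S ^ C ≤ 2 ^ w) (hLC : L ^ C ≤ 2 ^ w) (hlam : lam ^ 2 ≤ w * w * L)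
    (hp0 : 0 < p) (hp : 1 ≤ 2 ^ w * p ^ C)
    (H : ∀ J R l : ℕ, T + 1 ≤ 2 ^ J → 1 ≤ R → 1 ≤ l → l * 2 ^ (R - 1) ≤ L →
      2 * lam < l * (w * w) →
      p ≤ 2 ^ J * (((J * (S * L) : ℕ) : ℝ) ^ R * (31 / 32 : ℝ) ^ (w / 4 * R / 2)) +
        2 ^ J * (((2 * S ^ 2 : ℕ) : ℝ) * (31 / 32 : ℝ) ^ (w / 4 * l))) :
    L ^ w ≤ T ^ C := by
  by_contra hlt
  rw [not_le] at hlt
  set h := Nat.log 2 L with hh
  set J := Nat.log 2 T + 1 with hJ
  set R := h / 2 + 1 with hR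
  set l := 2 ^ (h - h / 2) with hl
  have hC0 : C ≠ 0 := by
    have : 0 < 2 ^ 19 := by norm_num
    omega
  have hw19 : 2 ^ 19 ≤ w := hC.trans hw
  have hLlo : 2 ^ h ≤ L := Nat.pow_log_le_self 2 (by omega)
  have hLhi : L < 2 ^ (h + 1) := Nat.lt_pow_succ_log_self (by norm_num) L
  have hh1 : 1 ≤ h := Nat.log_pos (by norm_num) hL
  have hTlo : 2 ^ (J - 1) ≤ T := by
    have := Nat.pow_log_le_self 2 (x := T) (by omega)
    rw [hJ, Nat.add_sub_cancel]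
    exact this
  have hThi : T + 1 ≤ 2 ^ J := Nat.lt_pow_succ_log_self (by norm_num) T
  -- the exponents
  have hJC : (J - 1) * C < (h + 1) * w := by
    have h1 : 2 ^ ((J - 1) * C) < 2 ^ ((h + 1) * w) := by
      calc 2 ^ ((J - 1) * C) = (2 ^ (J - 1)) ^ C := by rw [pow_mul]
        _ ≤ T ^ C := Nat.pow_le_pow_left hTlo _
        _ < L ^ w := hlt
        _ ≤ (2 ^ (h + 1)) ^ w := Nat.pow_le_pow_left hLhi.le _
        _ = 2 ^ ((h + 1) * w) := by rw [pow_mul]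
    exact (Nat.pow_lt_pow_iff_right (by norm_num)).1 h1
  have hhC : h * C ≤ w := by
    have h1 : 2 ^ (h * C) ≤ 2 ^ w := by
      calc 2 ^ (h * C) = (2 ^ h) ^ C := by rw [pow_mul]
        _ ≤ L ^ C := Nat.pow_le_pow_left hLlo _
        _ ≤ 2 ^ w := hLC
    exact (Nat.pow_le_pow_iff_right (by norm_num)).1 h1
  have hhw : w ≤ h * w := Nat.le_mul_of_pos_left _ hh1
  have hJC' : J * C ≤ 3 * (h * w) := by
    have h1 : J * C = (J - 1) * C + C := by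
      have h2 : J = (J - 1) + 1 := by omega
      calc J * C = ((J - 1) + 1) * C := by rw [← h2]
        _ = (J - 1) * C + C := by ring
    have h2 : (h + 1) * w = h * w + w := by ring
    omega
  -- the choice
  have hlR : l * 2 ^ (R - 1) ≤ L := by
    rw [hl, hR, Nat.add_sub_cancel, ← pow_add, Nat.sub_add_cancel (Nat.div_le_self _ _)]
    exact hLlo
  have hl1 : 1 ≤ l := Nat.one_le_two_pow
  have hw3 : 8 ≤ w * w := by
    have : 2 ^ 19 * 1 ≤ w * w := Nat.mul_le_mul hw19 (by omega)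
    omega
  have hlam' : 2 * lam < l * (w * w) := by
    have h1 : 2 ^ h ≤ l * l := by
      rw [hl, ← pow_add]
      exact Nat.pow_le_pow_right (by norm_num) (by omega)
    have h2 : (2 * lam) ^ 2 < (l * (w * w)) ^ 2 := by
      have e0 : 0 < w * w := by omega
      calc (2 * lam) ^ 2 = 4 * lam ^ 2 := by ring
        _ ≤ 4 * (w * w * L) := Nat.mul_le_mul_left _ hlam
        _ < 4 * (w * w * 2 ^ (h + 1)) :=
            Nat.mul_lt_mul_of_pos_left (Nat.mul_lt_mul_of_pos_left hLhi e0) (by norm_num)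
        _ = 8 * (w * w) * 2 ^ h := by ring
        _ ≤ (w * w) * (w * w) * (l * l) :=
            Nat.mul_le_mul (Nat.mul_le_mul_right _ hw3) h1
        _ = (l * (w * w)) ^ 2 := by ring
    exact lt_of_pow_lt_pow_left₀ 2 (Nat.zero_le _) h2
  have key := H J R l hThi (by omega) hl1 hlR hlam'
  -- real numbers
  set θ : ℝ := (w : ℝ) / C with hθ
  have hCR : (0 : ℝ) < C := by exact_mod_cast Nat.pos_of_ne_zero hC0
  have hC19 : (2 : ℝ) ^ 19 ≤ C := by exact_mod_cast hC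
  have hwR19 : (2 : ℝ) ^ 19 ≤ w := by exact_mod_cast hw19
  have hwR : (0 : ℝ) < w := lt_of_lt_of_le (by norm_num) hwR19
  have hθC : θ * C = w := by rw [hθ]; field_simp
  have hθ0 : 0 ≤ θ := by positivity
  have hθw : θ * 2 ^ 19 ≤ w := by
    rw [← hθC]
    exact mul_le_mul_of_nonneg_left hC19 hθ0
  have hwR' : (524288 : ℝ) ≤ w := by
    rw [show (524288 : ℝ) = 2 ^ 19 by norm_num]
    exact hwR19
  have hθw' : θ * 524288 ≤ w := by
    rw [show (524288 : ℝ) = 2 ^ 19 by norm_num]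
    exact hθw
  have hSθ : (S : ℝ) ≤ (2 : ℝ) ^ θ := by
    refine GN_root (C := C) (y := w) hC0 (Nat.cast_nonneg _) ?_ hθC
    rw [Real.rpow_natCast]
    exact_mod_cast hS
  have hLθ : (L : ℝ) ≤ (2 : ℝ) ^ θ := by
    refine GN_root (C := C) (y := w) hC0 (Nat.cast_nonneg _) ?_ hθC
    rw [Real.rpow_natCast]
    exact_mod_cast hLC
  have hpθ : (2 : ℝ) ^ (-θ) ≤ p := by
    refine GN_root' (C := C) (y := -(w : ℝ)) hC0 hp0.le ?_ (by rw [neg_mul, hθC])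
    rw [Real.rpow_neg (by norm_num), Real.rpow_natCast, inv_le_iff_one_le_mul₀ (by positivity)]
    linarith [mul_comm (p ^ C) ((2 : ℝ) ^ w)]
  have hR1 : (1 : ℝ) ≤ R := by
    have : 1 ≤ R := by omega
    exact_mod_cast this
  have hhR : (h : ℝ) ≤ 2 * R := by
    have : h ≤ 2 * R := by omega
    exact_mod_cast this
  have hJθ : (J : ℝ) ≤ 3 * h * θ := by
    have h1 : (J : ℝ) * C ≤ 3 * (h * w) := by exact_mod_cast hJC'
    have h2 : (J : ℝ) * C ≤ (3 * h * θ) * C := by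
      calc (J : ℝ) * C ≤ 3 * (h * w) := h1
        _ = (3 * h * θ) * C := by rw [← hθC]; ring
    exact le_of_mul_le_mul_right h2 hCR
  have hhθ : (h : ℝ) ≤ θ := by
    have h1 : (h : ℝ) * C ≤ θ * C := by
      rw [hθC]
      exact_mod_cast hhC
    exact le_of_mul_le_mul_right h1 hCR
  have hJR : (J : ℝ) ≤ 6 * R * θ := by
    refine hJθ.trans ?_
    calc 3 * (h : ℝ) * θ ≤ 3 * (2 * R) * θ := by gcongr
      _ = 6 * R * θ := by ring
  have hJw : (J : ℝ) ≤ (2 : ℝ) ^ ((w : ℝ) / 6400) := by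
    refine le_trans ?_ (GN_sq w hw19)
    have h1 : (J : ℝ) ≤ 3 * θ * θ := hJθ.trans (by gcongr)
    have h2 : θ * 2 ≤ w := by
      refine le_trans ?_ hθw
      exact mul_le_mul_of_nonneg_left (by norm_num) hθ0
    nlinarith
  -- the power of 31/32
  set n1 := w / 4 * R / 2 with hn1
  have hn1w : (w : ℝ) * R / 400 ≤ (n1 : ℝ) / 32 := by
    have h1 : (w : ℝ) - 3 ≤ 4 * ((w / 4 : ℕ) : ℝ) := by
      have : w ≤ 4 * (w / 4) + 3 := by omega
      have h2 : (w : ℝ) ≤ 4 * ((w / 4 : ℕ) : ℝ) + 3 := by exact_mod_cast this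
      linarith
    have h2 : ((w / 4 : ℕ) : ℝ) * R - 1 ≤ 2 * (n1 : ℝ) := by
      have : w / 4 * R ≤ 2 * n1 + 1 := by omega
      have h3 : ((w / 4 : ℕ) : ℝ) * R ≤ 2 * (n1 : ℝ) + 1 := by exact_mod_cast this
      linarith
    have h3 : ((w : ℝ) - 3) * R ≤ 4 * ((w / 4 : ℕ) : ℝ) * R :=
      mul_le_mul_of_nonneg_right h1 (by positivity)
    have h4 : (524288 : ℝ) * R ≤ w * R := mul_le_mul_of_nonneg_right hwR' (by positivity)
    linarith
  have hpow1 : (31 / 32 : ℝ) ^ n1 ≤ (2 : ℝ) ^ (-((w : ℝ) * R / 400)) := by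
    refine (GN_base n1).trans ?_
    apply Real.rpow_le_rpow_of_exponent_le (by norm_num)
    linarith
  have hlR' : R ≤ l := by
    have h1 : R ≤ (h - h / 2) + 1 := by omega
    have h2 : (h - h / 2) + 1 ≤ 2 ^ (h - h / 2) := Nat.lt_two_pow_self
    omega
  have hpow2 : (31 / 32 : ℝ) ^ (w / 4 * l) ≤ (2 : ℝ) ^ (-((w : ℝ) * R / 400)) := by
    refine le_trans ?_ hpow1
    apply pow_le_pow_of_le_one (by norm_num) (by norm_num)
    have h1 : w / 4 * R ≤ w / 4 * l := Nat.mul_le_mul_left _ hlR'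
    have h2 : n1 ≤ w / 4 * R := Nat.div_le_self _ _
    omega
  -- the first summand
  have hX1 : (2 : ℝ) ^ J * (((J * (S * L) : ℕ) : ℝ) ^ R * (31 / 32 : ℝ) ^ n1) ≤
      (2 : ℝ) ^ (-((w : ℝ) / 800)) := by
    have h1 : ((J * (S * L) : ℕ) : ℝ) ≤ (2 : ℝ) ^ ((w : ℝ) / 6400 + 2 * θ) := by
      push_cast
      calc (J : ℝ) * (S * L) ≤ (2 : ℝ) ^ ((w : ℝ) / 6400) * ((2 : ℝ) ^ θ * (2 : ℝ) ^ θ) := by
            gcongr
        _ = (2 : ℝ) ^ ((w : ℝ) / 6400 + 2 * θ) := by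
            rw [← Real.rpow_add (by norm_num), ← Real.rpow_add (by norm_num)]
            congr 1
            ring
    have h2 : ((J * (S * L) : ℕ) : ℝ) ^ R ≤ (2 : ℝ) ^ (((w : ℝ) / 6400 + 2 * θ) * R) := by
      calc ((J * (S * L) : ℕ) : ℝ) ^ R ≤ ((2 : ℝ) ^ ((w : ℝ) / 6400 + 2 * θ)) ^ R :=
            pow_le_pow_left₀ (Nat.cast_nonneg _) h1 R
        _ = _ := by rw [← Real.rpow_natCast, ← Real.rpow_mul (by norm_num)]
    calc (2 : ℝ) ^ J * (((J * (S * L) : ℕ) : ℝ) ^ R * (31 / 32 : ℝ) ^ n1) ≤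
        (2 : ℝ) ^ (J : ℝ) * ((2 : ℝ) ^ (((w : ℝ) / 6400 + 2 * θ) * R) *
          (2 : ℝ) ^ (-((w : ℝ) * R / 400))) := by
          rw [Real.rpow_natCast]
          gcongr
      _ = (2 : ℝ) ^ ((J : ℝ) + (((w : ℝ) / 6400 + 2 * θ) * R + -((w : ℝ) * R / 400))) := by
          rw [← Real.rpow_add (by norm_num), ← Real.rpow_add (by norm_num)]
      _ ≤ (2 : ℝ) ^ (-((w : ℝ) / 800)) := by
          apply Real.rpow_le_rpow_of_exponent_le (by norm_num)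
          have e1 : θ * 524288 * R ≤ w * R := mul_le_mul_of_nonneg_right hθw' (by positivity)
          have e2 : (w : ℝ) ≤ w * R := le_mul_of_one_le_right hwR.le hR1
          have e3 : 0 ≤ θ * R := by positivity
          have e4 : (J : ℝ) ≤ 6 * (θ * R) := by linarith
          have e5 : ((w : ℝ) / 6400 + 2 * θ) * R = (w : ℝ) * R / 6400 + 2 * (θ * R) := by ring
          rw [e5]
          linarith
  have hX2 : (2 : ℝ) ^ J * (((2 * S ^ 2 : ℕ) : ℝ) * (31 / 32 : ℝ) ^ (w / 4 * l)) ≤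
      (2 : ℝ) ^ (-((w : ℝ) / 800)) := by
    have h1 : ((2 * S ^ 2 : ℕ) : ℝ) ≤ (2 : ℝ) ^ (1 + 2 * θ) := by
      push_cast
      calc (2 : ℝ) * (S : ℝ) ^ 2 ≤ 2 * ((2 : ℝ) ^ θ) ^ 2 := by gcongr
        _ = (2 : ℝ) ^ (1 + 2 * θ) := by
            rw [Real.rpow_add (by norm_num), Real.rpow_one, ← Real.rpow_natCast,
              ← Real.rpow_mul (by norm_num)]
            congr 2
            push_cast
            ring
    calc (2 : ℝ) ^ J * (((2 * S ^ 2 : ℕ) : ℝ) * (31 / 32 : ℝ) ^ (w / 4 * l)) ≤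
        (2 : ℝ) ^ (J : ℝ) * ((2 : ℝ) ^ (1 + 2 * θ) * (2 : ℝ) ^ (-((w : ℝ) * R / 400))) := by
          rw [Real.rpow_natCast]
          gcongr
      _ = (2 : ℝ) ^ ((J : ℝ) + ((1 + 2 * θ) + -((w : ℝ) * R / 400))) := by
          rw [← Real.rpow_add (by norm_num), ← Real.rpow_add (by norm_num)]
      _ ≤ (2 : ℝ) ^ (-((w : ℝ) / 800)) := by
          apply Real.rpow_le_rpow_of_exponent_le (by norm_num)
          have e1 : θ * 524288 * R ≤ w * R := mul_le_mul_of_nonneg_right hθw' (by positivity)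
          have e2 : (w : ℝ) ≤ w * R := le_mul_of_one_le_right hwR.le hR1
          have e3 : θ ≤ θ * R := le_mul_of_one_le_right hθ0 hR1
          have e4 : (J : ℝ) ≤ 6 * (θ * R) := by linarith
          linarith
  have hfin : p ≤ 2 * (2 : ℝ) ^ (-((w : ℝ) / 800)) := by linarith
  have hlast : 2 * (2 : ℝ) ^ (-((w : ℝ) / 800)) < (2 : ℝ) ^ (-θ) := by
    have e1 : 2 * (2 : ℝ) ^ (-((w : ℝ) / 800)) = (2 : ℝ) ^ (1 + -((w : ℝ) / 800)) := by
      rw [Real.rpow_add (by norm_num), Real.rpow_one]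
    rw [e1]
    apply Real.rpow_lt_rpow_of_exponent_lt (by norm_num)
    linarith
  linarith

end Pool.Agent.TSP
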