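import Mathlib
import Pool.Agent.TSP.St
import Pool.Agent.TSP.GNum

/-!
# TSP, module NUM: the numbers (from `GNum.lean`)
-/

set_option autoImplicit false

namespace TSP

/-- **Module NUM** -/
theorem thm_Num : St_Num :=
  ⟨2 ^ 19, by norm_num, fun C hC w L lam S T p hw hL hLC hT _ hS hlam hp0 hp H =>
    Pool.Agent.TSP.thm_GNum C hC w L S T lam p hw hL hT hS hLC (by rw [← sq]; exact hlam) hp0 hp H⟩

end TSP
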