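import Mathlib
import Pool.Agent.TSP.St

/-!
# TSP, module PRB: many variables are rarely all true
-/

set_option autoImplicit false

namespace TSP

/-- **Module PRB** -/
theorem thm_Prb : St_Prb := by
  classical
  intro V _ G d hd Z
  have hstep : ∀ (Z : Finset V) (z : V), z ∉ Z →
      2 ^ (d + 1) * {a | a ∈ Mod G ∧ ∀ x ∈ insert z Z, a x = true}.ncard ≤
        (2 ^ (d + 1) - 1) * {a | a ∈ Mod G ∧ ∀ x ∈ Z, a x = true}.ncard := by
    intro Z z hz
    set A : Finset (V → Bool) := Finset.univ.filter fun a => a ∈ Mod G ∧ ∀ x ∈ Z, a x = true with hA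
    set A1 : Finset (V → Bool) :=
      Finset.univ.filter fun a => a ∈ Mod G ∧ ∀ x ∈ insert z Z, a x = true with hA1
    set A0 : Finset (V → Bool) := A.filter fun a => ¬ a z = true with hA0
    have e1 : {a | a ∈ Mod G ∧ ∀ x ∈ insert z Z, a x = true}.ncard = A1.card := by
      rw [Set.ncard_eq_toFinset_card']
      congr 1
      ext a
      rw [Set.mem_toFinset, hA1, Finset.mem_filter]
      exact ⟨fun h => ⟨Finset.mem_univ _, h⟩, fun h => h.2⟩
    have e2 : {a | a ∈ Mod G ∧ ∀ x ∈ Z, a x = true}.ncard = A.card := by
      rw [Set.ncard_eq_toFinset_card']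
      congr 1
      ext a
      rw [Set.mem_toFinset, hA, Finset.mem_filter]
      exact ⟨fun h => ⟨Finset.mem_univ _, h⟩, fun h => h.2⟩
    have hA1' : A1 = A.filter fun a => a z = true := by
      ext a
      rw [hA1, hA, Finset.mem_filter, Finset.mem_filter, Finset.mem_filter]
      constructor
      · rintro ⟨h0, h1, h2⟩
        exact ⟨⟨h0, h1, fun x hx => h2 x (Finset.mem_insert_of_mem hx)⟩,
          h2 z (Finset.mem_insert_self _ _)⟩
      · rintro ⟨⟨h0, h1, h2⟩, h3⟩
        refine ⟨h0, h1, fun x hx => ?_⟩
        rcases Finset.mem_insert.1 hx with rfl | hx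
        · exact h3
        · exact h2 x hx
    have hsum : A1.card + A0.card = A.card := by
      rw [hA1', hA0]
      exact Finset.card_filter_add_card_filter_not _
    set N : Finset V := Finset.univ.filter fun v => G.Adj z v with hN
    have hNc : N.card ≤ d := by
      refine le_trans (le_of_eq ?_) (hd z)
      rw [Set.ncard_eq_toFinset_card']
      congr 1
      ext v
      simp [hN]
    let φ : (V → Bool) → (V → Bool) := fun a v => if v = z then false else if G.Adj z v then true else a v
    have hcard : A1.card ≤ (A0 ×ˢ N.powerset).card := by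
      refine Finset.card_le_card_of_injOn (fun a => (φ a, N.filter fun v => a v = true)) ?_ ?_
      · intro a ha
        rw [Finset.mem_coe, hA1, Finset.mem_filter] at ha
        obtain ⟨-, h1, h2⟩ := ha
        rw [Finset.mem_coe, Finset.mem_product, Finset.mem_powerset]
        refine ⟨?_, Finset.filter_subset _ _⟩
        rw [hA0, Finset.mem_filter, hA, Finset.mem_filter]
        refine ⟨⟨Finset.mem_univ _, ?_, ?_⟩, ?_⟩
        · intro u v huv
          show (if u = z then false else if G.Adj z u then true else a u) = true ∨
            (if v = z then false else if G.Adj z v then true else a v) = true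
          by_cases hu : u = z
          · right
            rw [hu] at huv
            rw [if_neg huv.ne', if_pos huv]
          · by_cases hv : v = z
            · left
              rw [hv] at huv
              rw [if_neg hu, if_pos huv.symm]
            · rw [if_neg hu, if_neg hv]
              by_cases h3 : G.Adj z u
              · left
                rw [if_pos h3]
              · by_cases h4 : G.Adj z v
                · right
                  rw [if_pos h4]
                · rw [if_neg h3, if_neg h4]
                  exact h1 u v huv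
        · intro x hx
          show (if x = z then false else if G.Adj z x then true else a x) = true
          have hxz : x ≠ z := fun h => hz (h ▸ hx)
          rw [if_neg hxz]
          split_ifs
          · rfl
          · exact h2 x (Finset.mem_insert_of_mem hx)
        · show ¬ (if z = z then false else if G.Adj z z then true else a z) = true
          simp
      · intro a ha b hb hab
        rw [Finset.mem_coe, hA1, Finset.mem_filter] at ha hb
        have h1 : φ a = φ b := (Prod.ext_iff.1 hab).1
        have h2 : (N.filter fun v => a v = true) = N.filter fun v => b v = true :=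
          (Prod.ext_iff.1 hab).2
        funext v
        by_cases hv : v = z
        · rw [hv, ha.2.2 z (Finset.mem_insert_self _ _), hb.2.2 z (Finset.mem_insert_self _ _)]
        · by_cases hzv : G.Adj z v
          · have h3 : (v ∈ N.filter fun v => a v = true) ↔ v ∈ N.filter fun v => b v = true := by
              rw [h2]
            have hvN : v ∈ N := by
              rw [hN, Finset.mem_filter]
              exact ⟨Finset.mem_univ _, hzv⟩
            have h4 : a v = true ↔ b v = true :=
              ⟨fun h => (Finset.mem_filter.1 (h3.1 (Finset.mem_filter.2 ⟨hvN, h⟩))).2,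
                fun h => (Finset.mem_filter.1 (h3.2 (Finset.mem_filter.2 ⟨hvN, h⟩))).2⟩
            exact Bool.eq_iff_iff.2 h4
          · have h3 := congrFun h1 v
            have h4 : (if v = z then false else if G.Adj z v then true else a v) =
              (if v = z then false else if G.Adj z v then true else b v) := h3
            rw [if_neg hv, if_neg hv, if_neg hzv, if_neg hzv] at h4
            exact h4
    rw [Finset.card_product, Finset.card_powerset] at hcard
    have h5 : 2 ^ N.card ≤ 2 ^ d := Nat.pow_le_pow_right (by norm_num) hNc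
    have h6 : A1.card ≤ A0.card * 2 ^ d := hcard.trans (Nat.mul_le_mul_left _ h5)
    have h7 : 1 ≤ 2 ^ d := Nat.one_le_two_pow
    have h8 : 2 ^ (d + 1) = 2 ^ d + 2 ^ d := by ring
    have h9 : 2 ^ d ≤ 2 ^ (d + 1) - 1 := by omega
    have h10 : A1.card ≤ (2 ^ (d + 1) - 1) * A0.card := by
      rw [mul_comm]
      exact h6.trans (Nat.mul_le_mul_left _ h9)
    have h11 : 2 ^ (d + 1) * A1.card = (2 ^ (d + 1) - 1) * A1.card + A1.card := by
      have : 2 ^ (d + 1) = (2 ^ (d + 1) - 1) + 1 := by omega
      calc 2 ^ (d + 1) * A1.card = ((2 ^ (d + 1) - 1) + 1) * A1.card := by rw [← this]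
        _ = (2 ^ (d + 1) - 1) * A1.card + A1.card := by ring
    rw [e1, e2, h11, ← hsum, mul_add]
    omega
  induction Z using Finset.induction_on with
  | empty =>
    have : {a | a ∈ Mod G ∧ ∀ z ∈ (∅ : Finset V), a z = true} = Mod G := by
      ext a
      simp
    rw [this]
    simp
  | insert z Z hz ih =>
    rw [Finset.card_insert_of_notMem hz, pow_succ, pow_succ]
    calc (2 ^ (d + 1)) ^ Z.card * 2 ^ (d + 1) *
        {a | a ∈ Mod G ∧ ∀ x ∈ insert z Z, a x = true}.ncard =
        (2 ^ (d + 1)) ^ Z.card *
          (2 ^ (d + 1) * {a | a ∈ Mod G ∧ ∀ x ∈ insert z Z, a x = true}.ncard) := by ring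
      _ ≤ (2 ^ (d + 1)) ^ Z.card *
          ((2 ^ (d + 1) - 1) * {a | a ∈ Mod G ∧ ∀ x ∈ Z, a x = true}.ncard) :=
            Nat.mul_le_mul_left _ (hstep Z z hz)
      _ = (2 ^ (d + 1) - 1) *
          ((2 ^ (d + 1)) ^ Z.card * {a | a ∈ Mod G ∧ ∀ x ∈ Z, a x = true}.ncard) := by ring
      _ ≤ (2 ^ (d + 1) - 1) * ((2 ^ (d + 1) - 1) ^ Z.card * (Mod G).ncard) :=
            Nat.mul_le_mul_left _ ih
      _ = (2 ^ (d + 1) - 1) ^ Z.card * (2 ^ (d + 1) - 1) * (Mod G).ncard := by ring

end TSP
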