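import Pool.Agent.TSP.St

/-!
# TSP: the recursion for the grid
-/

set_option autoImplicit false

namespace TSP

open Finset
open scoped BigOperators

private theorem Rec_adj {w l : ℕ} (u v : Fin w × Fin l) : (gr w l).Adj u v ↔
    ((SimpleGraph.pathGraph w).Adj u.1 v.1 ∧ u.2 = v.2) ∨
      (((u.2 : ℕ) + 1 = v.2 ∨ (v.2 : ℕ) + 1 = u.2) ∧ u.1 = v.1) := by
  unfold gr
  rw [SimpleGraph.boxProd_adj, SimpleGraph.pathGraph_adj (u := u.2)]

private theorem Rec_mem_col {w l r : ℕ} (v : Fin w × Fin l) :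
    v ∈ col w l r ↔ (v.2 : ℕ) + 1 = r := by
  unfold col
  simp

private theorem Rec_mem_seg {w l p q : ℕ} (v : Fin w × Fin l) :
    v ∈ seg w l p q ↔ p < (v.2 : ℕ) + 1 ∧ (v.2 : ℕ) + 1 < q := by
  unfold seg
  simp

/-- the values on the column `r` -/
private def Rec_val {w l r : ℕ} (h0 : 0 < r) (h1 : r < l + 1) (a : Fin w × Fin l → Bool) :
    Fin w → Bool := fun j => a (j, ⟨r - 1, by omega⟩)

private theorem Rec_val_eq {w l r : ℕ} (h0 : 0 < r) (h1 : r < l + 1) (a : Fin w × Fin l → Bool)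
    (v : Fin w × Fin l) (hv : (v.2 : ℕ) + 1 = r) : Rec_val h0 h1 a v.1 = a v := by
  unfold Rec_val
  congr 1
  refine Prod.ext rfl (Fin.ext ?_)
  change r - 1 = (v.2 : ℕ)
  omega

/-- the clauses inside of a column -/
private def Rec_ok (w : ℕ) (c : Fin w → Bool) : Prop :=
  ∀ i j, (SimpleGraph.pathGraph w).Adj i j → c i = true ∨ c j = true

private theorem Rec_iff {w l p r q : ℕ} (hpr : p < r) (hrq : r < q) (hq : q ≤ l + 1)
    (c c' : Fin w → Bool) (a : Fin w × Fin l → Bool) :
    OkU p q c c' a ↔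
      Rec_ok w (Rec_val (l := l) (r := r) (by omega) (by omega) a) ∧
      OkU p r c (Rec_val (l := l) (r := r) (by omega) (by omega) a) a ∧
      OkU r q (Rec_val (l := l) (r := r) (by omega) (by omega) a) c' a := by
  have h0 : 0 < r := by omega
  have h1 : r < l + 1 := by omega
  obtain ⟨d, hd⟩ : ∃ d, d = Rec_val (l := l) (r := r) h0 h1 a := ⟨_, rfl⟩
  have hde : ∀ v : Fin w × Fin l, (v.2 : ℕ) + 1 = r → d v.1 = a v := by
    intro v hv
    rw [hd]
    exact Rec_val_eq h0 h1 a v hv
  have hdj : ∀ j : Fin w, ∃ v : Fin w × Fin l, v.1 = j ∧ (v.2 : ℕ) + 1 = r := fun j =>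
    ⟨(j, ⟨r - 1, by omega⟩), rfl, by change r - 1 + 1 = r; omega⟩
  change OkU p q c c' a ↔ Rec_ok w (Rec_val (l := l) (r := r) h0 h1 a) ∧
      OkU p r c (Rec_val (l := l) (r := r) h0 h1 a) a ∧
      OkU r q (Rec_val (l := l) (r := r) h0 h1 a) c' a
  rw [← hd]
  constructor
  · rintro ⟨k1, k2, k3, k4⟩
    refine ⟨?_, ⟨?_, ?_, ?_, ?_⟩, ⟨?_, ?_, ?_, ?_⟩⟩
    · intro i j hij
      have e := k1 (i, ⟨r - 1, by omega⟩) (j, ⟨r - 1, by omega⟩)
        ((Rec_adj _ _).2 (Or.inl ⟨hij, rfl⟩))
        ((Rec_mem_seg _).2 (by change p < r - 1 + 1 ∧ r - 1 + 1 < q; omega))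
        ((Rec_mem_seg _).2 (by change p < r - 1 + 1 ∧ r - 1 + 1 < q; omega))
      rw [hd]
      exact e
    · intro u v huv hu hv
      rw [Rec_mem_seg] at hu hv
      exact k1 u v huv ((Rec_mem_seg _).2 (by omega)) ((Rec_mem_seg _).2 (by omega))
    · intro v hv hp
      rw [Rec_mem_seg] at hv
      exact k2 v ((Rec_mem_seg _).2 (by omega)) hp
    · intro v hv hp
      obtain ⟨u, hu1, hu2⟩ := hdj v.1
      rw [Rec_mem_seg] at hv
      rw [← hu1, hde u hu2]
      exact k1 v u ((Rec_adj _ _).2 (Or.inr ⟨Or.inl (by omega), hu1.symm⟩))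
        ((Rec_mem_seg _).2 (by omega)) ((Rec_mem_seg _).2 (by omega))
    · intro hp j
      obtain ⟨u, hu1, hu2⟩ := hdj j
      rw [← hu1, hde u hu2]
      exact (k2 u ((Rec_mem_seg _).2 (by omega)) (by omega)).symm
    · intro u v huv hu hv
      rw [Rec_mem_seg] at hu hv
      exact k1 u v huv ((Rec_mem_seg _).2 (by omega)) ((Rec_mem_seg _).2 (by omega))
    · intro v hv hp
      obtain ⟨u, hu1, hu2⟩ := hdj v.1
      rw [Rec_mem_seg] at hv
      rw [← hu1, hde u hu2]
      exact k1 v u ((Rec_adj _ _).2 (Or.inr ⟨Or.inr (by omega), hu1.symm⟩))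
        ((Rec_mem_seg _).2 (by omega)) ((Rec_mem_seg _).2 (by omega))
    · intro v hv hp
      rw [Rec_mem_seg] at hv
      exact k3 v ((Rec_mem_seg _).2 (by omega)) hp
    · intro hp j
      obtain ⟨u, hu1, hu2⟩ := hdj j
      rw [← hu1, hde u hu2]
      exact k3 u ((Rec_mem_seg _).2 (by omega)) (by omega)
  · rintro ⟨k0, ⟨k1, k2, k3, k4⟩, ⟨m1, m2, m3, m4⟩⟩
    refine ⟨?_, ?_, ?_, ?_⟩
    · -- one direction for ordered pairs is enough
      have key : ∀ u v : Fin w × Fin l, (gr w l).Adj u v → u ∈ seg w l p q → v ∈ seg w l p q →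
          (u.2 : ℕ) ≤ v.2 → a u = true ∨ a v = true := by
        intro u v huv hu hv hle
        rw [Rec_mem_seg] at hu hv
        have hA := (Rec_adj _ _).1 huv
        rcases lt_trichotomy ((u.2 : ℕ) + 1) r with h | h | h
        · rcases hA with ⟨hA1, hA2⟩ | ⟨hA1 | hA1, hA2⟩
          · rw [hA2] at h
            exact k1 u v huv ((Rec_mem_seg _).2 (by rw [hA2]; omega)) ((Rec_mem_seg _).2 (by omega))
          · rcases Nat.lt_or_ge ((v.2 : ℕ) + 1) r with h2 | h2
            · exact k1 u v huv ((Rec_mem_seg _).2 (by omega)) ((Rec_mem_seg _).2 (by omega))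
            · have h3 : (v.2 : ℕ) + 1 = r := by omega
              have h4 := k3 u ((Rec_mem_seg _).2 (by omega)) (by omega)
              rw [hA2, hde v h3] at h4
              exact h4
          · omega
        · rcases hA with ⟨hA1, hA2⟩ | ⟨hA1 | hA1, hA2⟩
          · have h4 := k0 u.1 v.1 hA1
            rw [hde u h, hde v (by rw [← hA2]; exact h)] at h4
            exact h4
          · have h4 := m2 v ((Rec_mem_seg _).2 (by omega)) (by omega)
            rw [← hA2, hde u h] at h4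
            exact h4.symm
          · omega
        · exact m1 u v huv ((Rec_mem_seg _).2 (by omega)) ((Rec_mem_seg _).2 (by omega))
      intro u v huv hu hv
      rcases le_total (u.2 : ℕ) (v.2 : ℕ) with h | h
      · exact key u v huv hu hv h
      · exact (key v u huv.symm hv hu h).symm
    · intro v hv hp
      rw [Rec_mem_seg] at hv
      rcases Nat.lt_or_ge ((v.2 : ℕ) + 1) r with h | h
      · exact k2 v ((Rec_mem_seg _).2 (by omega)) hp
      · have h3 : (v.2 : ℕ) + 1 = r := by omega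
        have h4 := k4 (by omega) v.1
        rw [hde v h3] at h4
        exact h4.symm
    · intro v hv hp
      rw [Rec_mem_seg] at hv
      rcases Nat.lt_or_ge r ((v.2 : ℕ) + 1) with h | h
      · exact m3 v ((Rec_mem_seg _).2 (by omega)) hp
      · have h3 : (v.2 : ℕ) + 1 = r := by omega
        have h4 := m4 (by omega) v.1
        rw [hde v h3] at h4
        exact h4
    · intro h
      omega

private theorem Rec_pt_pos {V : Type} {W : Finset V} {c a : V → Bool} (h : ∀ v ∈ W, a v = c v) :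
    (pt W c).f a = 1 := by
  unfold pt
  exact if_pos h

private theorem Rec_pt_neg {V : Type} {W : Finset V} {c a : V → Bool}
    (h : ¬ ∀ v ∈ W, a v = c v) : (pt W c).f a = 0 := by
  unfold pt
  exact if_neg h

private theorem Rec_Us_pos {w l p q : ℕ} {c c' : Fin w → Bool} {a : Fin w × Fin l → Bool}
    (h : OkU p q c c' a) : (Us l p q c c').f a = 1 := by
  unfold Us
  exact if_pos h

private theorem Rec_Us_neg {w l p q : ℕ} {c c' : Fin w → Bool} {a : Fin w × Fin l → Bool}
    (h : ¬ OkU p q c c' a) : (Us l p q c c').f a = 0 := by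
  unfold Us
  exact if_neg h

private theorem Rec_sum {w l p r q : ℕ} (hpr : p < r) (hrq : r < q) (hq : q ≤ l + 1)
    (c c' : Fin w → Bool) : ∃ Ω : Finset (Fin w → Bool), ∀ a : Fin w × Fin l → Bool,
        (Us l p q c c').f a = ∑ c'' ∈ Ω, (pt (col w l r) (fun v => c'' v.1)).f a *
          (Us l p r c c'').f a * (Us l r q c'' c').f a := by
  classical
  have h0 : 0 < r := by omega
  have h1 : r < l + 1 := by omega
  refine ⟨univ.filter fun d => Rec_ok w d, fun a => ?_⟩
  have hpt : ∀ d : Fin w → Bool, (pt (col w l r) (fun v => d v.1)).f a =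
      if d = Rec_val (l := l) (r := r) h0 h1 a then 1 else 0 := by
    intro d
    split_ifs with hd
    · refine Rec_pt_pos ?_
      rintro v hv
      rw [hd]
      exact (Rec_val_eq h0 h1 a v ((Rec_mem_col _).1 hv)).symm
    · refine Rec_pt_neg fun h => hd ?_
      funext j
      exact (h (j, ⟨r - 1, by omega⟩) ((Rec_mem_col _).2 (by
        change r - 1 + 1 = r; omega))).symm
  have hterm : ∀ d : Fin w → Bool, (pt (col w l r) (fun v => d v.1)).f a *
      (Us l p r c d).f a * (Us l r q d c').f a =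
      if d = Rec_val (l := l) (r := r) h0 h1 a then
        (Us l p r c (Rec_val (l := l) (r := r) h0 h1 a)).f a *
          (Us l r q (Rec_val (l := l) (r := r) h0 h1 a) c').f a else 0 := by
    intro d
    rw [hpt]
    split_ifs with h
    · rw [h, one_mul]
    · rw [zero_mul, zero_mul]
  rw [Finset.sum_congr rfl fun d _ => hterm d, Finset.sum_ite_eq']
  have hi := Rec_iff hpr hrq hq c c' a
  by_cases k0 : Rec_ok w (Rec_val (l := l) (r := r) h0 h1 a)
  · rw [if_pos (Finset.mem_filter.2 ⟨Finset.mem_univ _, k0⟩)]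
    by_cases k1 : OkU p r c (Rec_val (l := l) (r := r) h0 h1 a) a
    · by_cases k2 : OkU r q (Rec_val (l := l) (r := r) h0 h1 a) c' a
      · rw [Rec_Us_pos k1, Rec_Us_pos k2, Rec_Us_pos (hi.2 ⟨k0, k1, k2⟩), one_mul]
      · rw [Rec_Us_neg k2, Rec_Us_neg fun h => k2 (hi.1 h).2.2, mul_zero]
    · rw [Rec_Us_neg k1, Rec_Us_neg fun h => k1 (hi.1 h).2.1, zero_mul]
  · rw [if_neg fun h => k0 (Finset.mem_filter.1 h).2, Rec_Us_neg fun h => k0 (hi.1 h).1]

/-- **Module Rec** -/
theorem thm_Rec : St_Rec := by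
  intro w l
  refine ⟨fun p r q hpr hrq hq => ⟨⟨?_, ?_, ?_, ?_⟩, fun c c' => Rec_sum hpr hrq hq c c'⟩,
    ?_, ?_, ?_⟩
  · rw [Finset.disjoint_left]
    intro v h1 h2
    rw [Rec_mem_col] at h1
    rw [Rec_mem_seg] at h2
    omega
  · rw [Finset.disjoint_left]
    intro v h1 h2
    rw [Rec_mem_col] at h1
    rw [Rec_mem_seg] at h2
    omega
  · rw [Finset.disjoint_left]
    intro v h1 h2
    rw [Rec_mem_seg] at h1 h2
    omega
  · intro v
    rw [Rec_mem_seg, Rec_mem_seg, Rec_mem_seg, Rec_mem_col]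
    omega
  · intro p
    refine Finset.eq_empty_of_forall_notMem fun v hv => ?_
    rw [Rec_mem_seg] at hv
    omega
  · intro r
    have h := Finset.card_le_card_of_injOn (s := col w l r) (t := (univ : Finset (Fin w)))
      (fun v => v.1) (fun _ _ => Finset.mem_univ _) (by
        intro u hu v hv huv
        rw [Finset.mem_coe, Rec_mem_col] at hu hv
        exact Prod.ext huv (Fin.ext (by omega)))
    rwa [Finset.card_univ, Fintype.card_fin] at h
  · intro a
    have hi : OkU 0 (l + 1) (fun _ : Fin w => true) (fun _ => true) a ↔ a ∈ Mod (gr w l) := by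
      constructor
      · rintro ⟨h1, -, -, -⟩ u v huv
        exact h1 u v huv ((Rec_mem_seg _).2 ⟨by omega, by omega⟩)
          ((Rec_mem_seg _).2 ⟨by omega, by omega⟩)
      · intro h
        exact ⟨fun u v huv _ _ => h u v huv, fun _ _ _ => Or.inr rfl, fun _ _ _ => Or.inr rfl,
          fun _ _ => Or.inl rfl⟩
    exact ⟨fun h => Rec_Us_pos (hi.2 h), fun h => Rec_Us_neg fun k => h (hi.1 k)⟩

end TSP
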