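import Mathlib
import Pool.Agent.TSP.St

/-!
# TSP, module RED: from functions to their supports
-/

set_option autoImplicit false

namespace TSP

variable {V : Type}

/-- the support -/
private def RE_supp (I : Item V) : It V where
  vars := I.vars
  set := {a | I.f a ≠ 0}
  dep := fun a b hab ha => by
    show I.f b ≠ 0
    rw [← I.dep a b hab]
    exact ha

/-- the support with all variables -/
private def RE_full [Fintype V] (I : Item V) : It V where
  vars := Finset.univ
  set := {a | I.f a ≠ 0}
  dep := fun a b hab ha => by
    show I.f b ≠ 0
    rw [← I.dep a b fun v _ => hab v (Finset.mem_univ _)]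
    exact ha

/-- **Module RED** -/
theorem thm_Red : St_Red := by
  classical
  intro V _ L S T M I hprog hI
  let M' : ℕ → Finset (It V) := fun t => if t ≤ T then (M t).image RE_supp else {RE_full I}
  have hM1 : ∀ t ≤ T, M' t = (M t).image RE_supp := fun t ht => if_pos ht
  have hM2 : M' (T + 1) = {RE_full I} := if_neg (by omega)
  have hS : 1 ≤ S := by
    have h1 := hprog.mem T le_rfl
    have h2 : 0 < (M T).card := Finset.card_pos.2 ⟨I, hI⟩
    omega
  refine ⟨M', RE_full I, ⟨?_, ?_, ?_⟩, ?_, fun v => Finset.mem_univ v, fun a => Iff.rfl⟩
  · rw [hM1 0 (Nat.zero_le _), hprog.start, Finset.image_empty]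
  · intro t ht
    by_cases h : t ≤ T
    · rw [hM1 t h]
      exact Finset.card_image_le.trans (hprog.mem t h)
    · have h' : t = T + 1 := by omega
      rw [h', hM2, Finset.card_singleton]
      exact hS
  · intro t ht
    by_cases h : t < T
    · obtain ⟨I0, hder, hnew⟩ := hprog.step t h
      refine ⟨RE_supp I0, ?_, ?_⟩
      · rw [hM1 t h.le]
        rcases hder with hc | ⟨c, hc1, hc2⟩ | ⟨J, hJ, K, hK, h1, h2, h3⟩
        · exact Or.inl hc
        · right
          left
          refine ⟨((M t).filter fun J => c J ≠ 0).image RE_supp,
            Finset.image_subset_image (Finset.filter_subset _ _), ?_, ?_⟩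
          · intro J hJ
            obtain ⟨K, hK, rfl⟩ := Finset.mem_image.1 hJ
            rw [Finset.mem_filter] at hK
            exact (hc1 K hK.1).2 hK.2
          · intro a
            have hnn : ∀ J ∈ M t, 0 ≤ c J * J.f a := fun J hJ =>
              mul_nonneg (hc1 J hJ).1 (J.nonneg a)
            show I0.f a ≠ 0 ↔ _
            rw [hc2 a, Ne, Finset.sum_eq_zero_iff_of_nonneg hnn]
            push Not
            constructor
            · rintro ⟨J, hJ, hne⟩
              refine ⟨RE_supp J, Finset.mem_image_of_mem _ (Finset.mem_filter.2 ⟨hJ, ?_⟩), ?_⟩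
              · exact left_ne_zero_of_mul hne
              · exact right_ne_zero_of_mul hne
            · rintro ⟨J', hJ', ha⟩
              obtain ⟨K, hK, rfl⟩ := Finset.mem_image.1 hJ'
              rw [Finset.mem_filter] at hK
              exact ⟨K, hK.1, mul_ne_zero hK.2 ha⟩
        · right
          right
          refine ⟨RE_supp J, Finset.mem_image_of_mem _ hJ, RE_supp K, Finset.mem_image_of_mem _ hK,
            h1, h2, ?_⟩
          intro a
          show I0.f a ≠ 0 ↔ J.f a ≠ 0 ∧ K.f a ≠ 0
          rw [h3 a, mul_ne_zero_iff]
      · intro J hJ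
        rw [hM1 (t + 1) h] at hJ
        obtain ⟨K, hK, rfl⟩ := Finset.mem_image.1 hJ
        rw [hM1 t h.le]
        rcases hnew K hK with rfl | h'
        · exact Or.inl rfl
        · exact Or.inr (Finset.mem_image_of_mem _ h')
    · have h' : t = T := by omega
      subst h'
      refine ⟨RE_full I, ?_, ?_⟩
      · right
        left
        refine ⟨{RE_supp I}, ?_, ?_, ?_⟩
        · rw [hM1 t le_rfl, Finset.singleton_subset_iff]
          exact Finset.mem_image_of_mem _ hI
        · intro J _ v _
          exact Finset.mem_univ v
        · intro a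
          constructor
          · intro ha
            exact ⟨_, Finset.mem_singleton_self _, ha⟩
          · rintro ⟨J, hJ, ha⟩
            rw [Finset.mem_singleton] at hJ
            subst hJ
            exact ha
      · intro J hJ
        rw [hM2, Finset.mem_singleton] at hJ
        exact Or.inl hJ
  · rw [hM2]
    exact Finset.mem_singleton_self _

end TSP
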