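import Pool.Agent.TSP.St

/-!
# TSP: elementary properties of runs
-/

set_option autoImplicit false

namespace TSP

open scoped BigOperators

theorem Rn_der {V : Type} {L : ℕ} {M M' : Finset (Item V)} (h : M ⊆ M') {I : Item V}
    (hI : Der L M I) : Der L M' I := by
  classical
  rcases hI with hI | ⟨c, hc, hf⟩ | ⟨J, hJ, K, hK, h1, h2, h3⟩
  · exact Or.inl hI
  · refine Or.inr (Or.inl ⟨fun J => if J ∈ M then c J else 0, fun J _ => ?_, fun a => ?_⟩)
    · by_cases hJ : J ∈ M
      · simp only [hJ, if_true]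
        exact hc J hJ
      · simp [hJ]
    · rw [hf a]
      have h1 : ∑ J ∈ M, c J * J.f a = ∑ J ∈ M, (if J ∈ M then c J else 0) * J.f a :=
        Finset.sum_congr rfl fun J hJ => by rw [if_pos hJ]
      rw [h1]
      exact Finset.sum_subset h fun J _ hJ => by rw [if_neg hJ, zero_mul]
  · exact Or.inr (Or.inr ⟨J, h hJ, K, h hK, h1, h2, h3⟩)

/-- a leaf without variables -/
noncomputable def Rn_zero (V : Type) : Item V where
  vars := ∅
  f := fun _ => 0
  nonneg := fun _ => le_refl _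
  dep := fun _ _ _ => rfl

theorem Rn_concat {V : Type} {L s τ τ' : ℕ} {A B C : Finset (Item V)} (h : Run L s τ A B)
    (h' : Run L s τ' B C) : Run L s (τ + τ') A C := by
  obtain ⟨M, h1, h2, h3, h4⟩ := h
  obtain ⟨M', h1', h2', h3', h4'⟩ := h'
  refine ⟨fun t => if t ≤ τ then M t else M' (t - τ), ?_, ?_, fun t ht => ?_, fun t ht => ?_⟩
  · show (if 0 ≤ τ then M 0 else M' (0 - τ)) ⊆ A
    rw [if_pos (Nat.zero_le _)]
    exact h1
  · show C ⊆ (if τ + τ' ≤ τ then M (τ + τ') else M' (τ + τ' - τ))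
    by_cases h5 : τ' = 0
    · subst h5
      rw [if_pos (by omega), Nat.add_zero]
      exact (h2'.trans h1').trans h2
    · rw [if_neg (by omega), Nat.add_sub_cancel_left]
      exact h2'
  · show (if t ≤ τ then M t else M' (t - τ)).card ≤ s
    by_cases h5 : t ≤ τ
    · rw [if_pos h5]
      exact h3 t h5
    · rw [if_neg h5]
      exact h3' (t - τ) (by omega)
  · show ∃ I, Der L (if t ≤ τ then M t else M' (t - τ)) I ∧
      ∀ J ∈ (if t + 1 ≤ τ then M (t + 1) else M' (t + 1 - τ)), J = I ∨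
        J ∈ (if t ≤ τ then M t else M' (t - τ))
    by_cases h5 : t < τ
    · rw [if_pos h5.le, if_pos (Nat.succ_le_of_lt h5)]
      exact h4 t h5
    · by_cases h6 : t = τ
      · subst h6
        rw [if_pos (le_refl t), if_neg (by omega)]
        obtain ⟨I, hI, hJ⟩ := h4' 0 (by omega)
        have h7 : t + 1 - t = 0 + 1 := by omega
        rw [h7]
        refine ⟨I, Rn_der (h1'.trans h2) hI, fun J hJ' => ?_⟩
        rcases hJ J hJ' with h8 | h8
        · exact Or.inl h8
        · exact Or.inr (h2 (h1' h8))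
      · rw [if_neg (by omega), if_neg (by omega)]
        obtain ⟨I, hI, hJ⟩ := h4' (t - τ) (by omega)
        have h7 : t + 1 - τ = t - τ + 1 := by omega
        rw [h7]
        exact ⟨I, hI, hJ⟩

theorem Rn_keep {V : Type} {L s τ : ℕ} {A B R A' B' : Finset (Item V)} (h : Run L s τ A B)
    (hA : ∀ J ∈ A, J ∈ A') (hR : ∀ J ∈ R, J ∈ A') (hB : ∀ J ∈ B', J ∈ B ∨ J ∈ R) :
    Run L (s + R.card) τ A' B' := by
  classical
  obtain ⟨M, h1, h2, h3, h4⟩ := h
  refine ⟨fun t => M t ∪ R, ?_, ?_, fun t ht => ?_, fun t ht => ?_⟩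
  · exact Finset.union_subset (fun J hJ => hA J (h1 hJ)) hR
  · intro J hJ
    rcases hB J hJ with h5 | h5
    · exact Finset.mem_union_left _ (h2 h5)
    · exact Finset.mem_union_right _ h5
  · exact (Finset.card_union_le _ _).trans (Nat.add_le_add_right (h3 t ht) _)
  · obtain ⟨I, hI, hJ⟩ := h4 t ht
    refine ⟨I, Rn_der Finset.subset_union_left hI, fun J hJ' => ?_⟩
    rcases Finset.mem_union.1 hJ' with h5 | h5
    · rcases hJ J h5 with h6 | h6
      · exact Or.inl h6
      · exact Or.inr (Finset.mem_union_left _ h6)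
    · exact Or.inr (Finset.mem_union_right _ h5)

theorem Rn_mono {V : Type} {L s s' τ τ' : ℕ} {A B A' B' : Finset (Item V)} (h : Run L s τ A B)
    (hs : s ≤ s') (hτ : τ ≤ τ') (hA : A ⊆ A') (hB : B' ⊆ B) : Run L s' τ' A' B' := by
  obtain ⟨M, h1, h2, h3, h4⟩ := h
  refine ⟨fun t => M (min t τ), ?_, ?_, fun t ht => ?_, fun t ht => ?_⟩
  · show M (min 0 τ) ⊆ A'
    rw [Nat.zero_min]
    exact h1.trans hA
  · show B' ⊆ M (min τ' τ)
    rw [min_eq_right hτ]
    exact hB.trans h2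
  · exact (h3 _ (min_le_right _ _)).trans hs
  · show ∃ I, Der L (M (min t τ)) I ∧ ∀ J ∈ M (min (t + 1) τ), J = I ∨ J ∈ M (min t τ)
    by_cases h5 : t < τ
    · rw [min_eq_left h5.le, min_eq_left (Nat.succ_le_of_lt h5)]
      exact h4 t h5
    · rw [min_eq_right (not_lt.1 h5), min_eq_right (by omega)]
      refine ⟨Rn_zero V, Or.inl ?_, fun J hJ => Or.inr hJ⟩
      show (∅ : Finset V).card ≤ L
      rw [Finset.card_empty]
      exact Nat.zero_le _

theorem Rn_one {V : Type} {L s : ℕ} {A B : Finset (Item V)} {I : Item V} (hI : Der L A I)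
    (hA : A.card ≤ s) (hB : B.card ≤ s) (hJ : ∀ J ∈ B, J = I ∨ J ∈ A) : Run L s 1 A B := by
  refine ⟨fun t => if t = 0 then A else B, ?_, ?_, fun t _ => ?_, fun t ht => ?_⟩
  · show (if 0 = 0 then A else B) ⊆ A
    rw [if_pos rfl]
  · show B ⊆ (if 1 = 0 then A else B)
    rw [if_neg one_ne_zero]
  · show (if t = 0 then A else B).card ≤ s
    split_ifs
    · exact hA
    · exact hB
  · have h0 : t = 0 := by omega
    subst h0
    refine ⟨I, ?_, ?_⟩
    · show Der L (if 0 = 0 then A else B) I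
      rw [if_pos rfl]
      exact hI
    · show ∀ J ∈ (if 0 + 1 = 0 then A else B), J = I ∨ J ∈ (if 0 = 0 then A else B)
      rw [if_pos rfl, if_neg (by omega)]
      exact hJ

theorem Rn_prog {V : Type} {L s τ : ℕ} {B : Finset (Item V)} (h : Run L s τ ∅ B) :
    ∃ M, Prog L s τ M ∧ B ⊆ M τ := by
  obtain ⟨M, h1, h2, h3, h4⟩ := h
  exact ⟨M, ⟨Finset.subset_empty.1 h1, h3, h4⟩, h2⟩

theorem thm_Rn : St_Rn := by
  intro V L
  exact ⟨fun s τ τ' A B C h h' => Rn_concat h h', fun s τ A B R A' B' h hA hR hB =>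
    Rn_keep h hA hR hB, fun s s' τ τ' A B A' B' h hs hτ hA hB => Rn_mono h hs hτ hA hB,
    fun s A B I hI hA hB hJ => Rn_one hI hA hB hJ, fun s τ B h => Rn_prog h⟩

end TSP
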