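import Pool.Agent.TSP.St

/-!
# TSP: points and products of three items (MP_4ed1f9_lc)
-/

set_option autoImplicit false

namespace TSP

open Finset
open scoped BigOperators

open Classical in
/-- the product of two items -/
private noncomputable def rnP_mul {V : Type} (X Y : Item V) : Item V where
  vars := X.vars ∪ Y.vars
  f := fun a => X.f a * Y.f a
  nonneg := fun a => mul_nonneg (X.nonneg a) (Y.nonneg a)
  dep := fun a b hab => by
    rw [X.dep a b fun v hv => hab v (mem_union_left _ hv),
      Y.dep a b fun v hv => hab v (mem_union_right _ hv)]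

private theorem rnP_pt_f {V : Type} (W : Finset V) (c a : V → Bool) [Decidable (∀ v ∈ W, a v = c v)] :
    (pt W c).f a = if ∀ v ∈ W, a v = c v then 1 else 0 := by
  simp only [pt]
  congr

/-- points and products of three items -/
theorem thm_RnP (h1 : St_Rn) : St_RnP := by
  classical
  intro V
  obtain ⟨hc, -, hm, hs, -⟩ := h1 V 1
  refine ⟨fun W c => ?_, fun X Y Z P hXY hXZ hYZ hv hf A hX hY hZ => ?_⟩
  · induction W using Finset.induction_on with
    | empty =>
      refine hs 3 ∅ {pt ∅ c} (pt ∅ c) (Or.inl ?_) (by simp) (by simp) fun J hJ => Or.inl ?_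
      · show (∅ : Finset V).card ≤ 1
        simp
      · simpa using hJ
    | insert v W hvW ih =>
      have e : 2 * (insert v W).card + 1 = (2 * W.card + 1) + (1 + 1) := by
        rw [card_insert_of_notMem hvW]; ring
      rw [e]
      refine hc 3 _ _ ∅ {pt W c} _ ih ?_
      refine hc 3 1 1 {pt W c} {pt W c, pt {v} c} _ ?_ ?_
      · refine hs 3 _ _ (pt {v} c) (Or.inl ?_) (by simp) (card_le_two.trans (by norm_num)) fun J hJ => ?_
        · show ({v} : Finset V).card ≤ 1
          simp
        · rw [mem_insert, mem_singleton] at hJ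
          rw [mem_singleton]
          exact hJ.symm
      · refine hs 3 _ _ (pt (insert v W) c) (Or.inr (Or.inr ⟨pt W c, by simp, pt {v} c, by simp, ?_, ?_, ?_⟩))
          (card_le_two.trans (by norm_num)) (by simp) fun J hJ => Or.inl (by simpa using hJ)
        · show Disjoint W {v}
          simpa using hvW
        · intro u
          show u ∈ insert v W ↔ u ∈ W ∨ u ∈ ({v} : Finset V)
          rw [mem_insert, mem_singleton, or_comm]
        · intro a
          rw [rnP_pt_f, rnP_pt_f, rnP_pt_f]
          have hi : (∀ u ∈ insert v W, a u = c u) ↔ (∀ u ∈ W, a u = c u) ∧ a v = c v :=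
            ⟨fun h => ⟨fun u hu => h u (mem_insert_of_mem hu), h v (mem_insert_self _ _)⟩,
              fun h u hu => (mem_insert.1 hu).elim (fun e => e ▸ h.2) fun e => h.1 u e⟩
          have hs' : (∀ u ∈ ({v} : Finset V), a u = c u) ↔ a v = c v := by simp
          by_cases hw : ∀ u ∈ W, a u = c u
          · by_cases hv : a v = c v
            · rw [if_pos (hi.2 ⟨hw, hv⟩), if_pos hw, if_pos (hs'.2 hv), one_mul]
            · rw [if_neg fun h => hv (hi.1 h).2, if_neg fun h => hv (hs'.1 h), mul_zero]
          · rw [if_neg fun h => hw (hi.1 h).1, if_neg hw, zero_mul]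
  · refine hm 3 3 2 2 {X, Y, Z} {P} A {P} ?_ le_rfl le_rfl ?_ Subset.rfl
    · refine hc 3 1 1 {X, Y, Z} {rnP_mul X Y, Z} {P} ?_ ?_
      · refine hs 3 _ _ (rnP_mul X Y) (Or.inr (Or.inr ⟨X, by simp, Y, by simp, hXY, fun v => ?_, fun a => rfl⟩))
          card_le_three (card_le_two.trans (by norm_num)) fun J hJ => ?_
        · show v ∈ X.vars ∪ Y.vars ↔ _
          exact mem_union
        · rw [mem_insert, mem_singleton] at hJ
          rcases hJ with h | h
          · exact Or.inl h
          · right
            rw [h]
            simp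
      · refine hs 3 _ _ P (Or.inr (Or.inr ⟨rnP_mul X Y, by simp, Z, by simp, ?_, fun v => ?_, fun a => ?_⟩))
          (card_le_two.trans (by norm_num)) (by simp) fun J hJ => Or.inl (by simpa using hJ)
        · show Disjoint (X.vars ∪ Y.vars) Z.vars
          exact disjoint_union_left.2 ⟨hXZ, hYZ⟩
        · rw [hv v]
          show _ ↔ v ∈ X.vars ∪ Y.vars ∨ _
          rw [mem_union, or_assoc]
        · rw [hf a]
          rfl
    · intro J hJ
      rw [mem_insert, mem_insert, mem_singleton] at hJ
      rcases hJ with rfl | rfl | rfl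
      · exact hX
      · exact hY
      · exact hZ

end TSP
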