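import Pool.Agent.TSP.St

/-!
# TSP, module RnS: sums of items

`thm_RnS (h1 : St_Rn) : St_RnS`.
-/

set_option autoImplicit false

namespace TSP

open scoped BigOperators
open Finset

private lemma RnS_card {V : Type} [DecidableEq (Item V)] {A B : Finset (Item V)} {J : Item V}
    (hB : ∀ K ∈ B, K = J ∨ K ∈ A) : B.card ≤ A.card + 1 := by
  refine (card_le_card (t := insert J A) fun K hK => ?_).trans (card_insert_le _ _)
  exact mem_insert.2 (hB K hK)

/-- [RnS] sums. -/
theorem thm_RnS (h1 : St_Rn) : St_RnS := by
  classical
  intro V ι L s τ Ω P I A B hA hrun hvars hf hB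
  obtain ⟨hcat, hkeep, -, hone, -⟩ := h1 V L
  have key : ∀ Ω' : Finset ι, Ω' ⊆ Ω → ∀ J : Item V, J.vars = I.vars →
      (∀ a, J.f a = ∑ i ∈ Ω', (P i).f a) → ∀ B : Finset (Item V), (∀ K ∈ B, K = J ∨ K ∈ A) →
      Run L (s + 1) (Ω'.card * (τ + 1) + 1) A B := by
    intro Ω'
    induction Ω' using Finset.induction_on with
    | empty =>
      intro _ J _ hJf B hB
      rw [card_empty, zero_mul, zero_add]
      refine hone (s + 1) A B J (Or.inr (Or.inl ⟨fun _ => 0, fun K _ => ⟨le_rfl, fun h =>
        absurd rfl h⟩, fun a => ?_⟩)) (by omega) ((RnS_card hB).trans (by omega)) hB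
      rw [hJf a, sum_empty]
      simp
    | insert i Ω'' hi ih =>
      intro hsub J hJv hJf B hB
      have hi' : i ∈ Ω := hsub (mem_insert_self _ _)
      have hsub' : Ω'' ⊆ Ω := fun k hk => hsub (mem_insert_of_mem hk)
      let J' : Item V :=
        { vars := I.vars
          f := fun a => ∑ k ∈ Ω'', (P k).f a
          nonneg := fun a => sum_nonneg fun k _ => (P k).nonneg a
          dep := fun a b hab => sum_congr rfl fun k hk => (P k).dep a b fun v hv =>
            hab v (hvars k (hsub' hk) hv) }
      have r1 : Run L (s + 1) (Ω''.card * (τ + 1) + 1) A (insert J' A) :=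
        ih hsub' J' rfl (fun a => rfl) _ fun K hK => mem_insert.1 hK
      have r2 : Run L (s + 1) τ (insert J' A) (insert J' (insert (P i) A)) := by
        have h2 := hkeep s τ A (insert (P i) A) {J'} (insert J' A) (insert J' (insert (P i) A))
          (hrun i hi' _ fun K hK => mem_insert.1 hK) (fun K hK => mem_insert_of_mem hK)
          (fun K hK => by rw [mem_singleton.1 hK]; exact mem_insert_self _ _)
          (fun K hK => (mem_insert.1 hK).elim (fun h => Or.inr (mem_singleton.2 h)) Or.inl)
        rwa [card_singleton] at h2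
      have r3 : Run L (s + 1) 1 (insert J' (insert (P i) A)) B := by
        refine hone (s + 1) _ B J (Or.inr (Or.inl ⟨fun K => (if K = J' then 1 else 0) +
          (if K = P i then 1 else 0), fun K _ => ⟨by positivity, fun h => ?_⟩, fun a => ?_⟩))
          ?_ ((RnS_card hB).trans (by omega)) fun K hK => (hB K hK).imp_right fun h =>
            mem_insert_of_mem (mem_insert_of_mem h)
        · by_cases h2 : K = J'
          · rw [h2, hJv]
          · by_cases h3 : K = P i
            · rw [h3, hJv]
              exact hvars i hi'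
            · simp [h2, h3] at h
        · simp only [add_mul, ite_mul, one_mul, zero_mul]
          rw [sum_add_distrib, sum_ite_eq', sum_ite_eq', if_pos (mem_insert_self _ _),
            if_pos (mem_insert_of_mem (mem_insert_self _ _)), hJf a, sum_insert hi, add_comm]
        · refine (card_insert_le _ _).trans ?_
          have := card_insert_le (P i) A
          omega
      have r4 := hcat _ _ _ _ _ _ (hcat _ _ _ _ _ _ r1 r2) r3
      rw [card_insert_of_notMem hi]
      rw [show (Ω''.card + 1) * (τ + 1) + 1 = Ω''.card * (τ + 1) + 1 + τ + 1 by ring]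
      exact r4
  exact key Ω (Subset.refl _) I rfl hf B hB

end TSP
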