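import Pool.Agent.TSP.St

/-!
# TSP: UpA, exact counting with little memory (divide and conquer)
-/

set_option autoImplicit false

namespace TSP

open Finset
open scoped BigOperators

/-- the times -/
private def UpA_tau (w : ℕ) : ℕ → ℕ
  | 0 => 1
  | t + 1 => 2 ^ w * (2 * UpA_tau w t + 2 * w + 4) + 1

private theorem UpA_tau_le (w t : ℕ) : UpA_tau w t ≤ UpA_tau w (t + 1) := by
  have h : 1 ≤ 2 ^ w := Nat.one_le_two_pow
  have h2 : 1 * (2 * UpA_tau w t + 2 * w + 4) ≤ 2 ^ w * (2 * UpA_tau w t + 2 * w + 4) :=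
    Nat.mul_le_mul_right _ h
  change _ ≤ 2 ^ w * (2 * UpA_tau w t + 2 * w + 4) + 1
  omega

private theorem UpA_tau_bd (w : ℕ) (hw : 1 ≤ w) : ∀ t : ℕ, UpA_tau w t ≤ 2 ^ (5 * w * (t + 1))
  | 0 => Nat.one_le_two_pow
  | t + 1 => by
    have ih := UpA_tau_bd w hw t
    have h1 : w + 2 ≤ 2 ^ (w + 1) := by
      have h0 : w + 1 < 2 ^ (w + 1) := Nat.lt_two_pow_self
      omega
    have h2 : 2 ^ (w + 2) ≤ 2 ^ (5 * w * (t + 1)) := by
      apply Nat.pow_le_pow_right two_pos
      have : 5 * w * 1 ≤ 5 * w * (t + 1) := Nat.mul_le_mul_left _ (by omega)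
      omega
    have h3 : 2 ^ (w + 2) = 2 * 2 ^ (w + 1) := by rw [pow_succ]; ring
    have h4 : 2 * UpA_tau w t + 2 * w + 4 ≤ 2 ^ (5 * w * (t + 1)) * 2 ^ 2 := by
      omega
    have h5 : 2 ^ w * (2 * UpA_tau w t + 2 * w + 4) ≤ 2 ^ w * (2 ^ (5 * w * (t + 1)) * 2 ^ 2) :=
      Nat.mul_le_mul_left _ h4
    have h6 : 2 ^ w * (2 ^ (5 * w * (t + 1)) * 2 ^ 2) = 2 ^ (w + 5 * w * (t + 1) + 2) := by
      rw [pow_add, pow_add]
      ring
    have h7 : (1 : ℕ) ≤ 2 ^ (w + 5 * w * (t + 1) + 2) := Nat.one_le_two_pow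
    have h8 : 2 ^ (w + 5 * w * (t + 1) + 2) * 2 ≤ 2 ^ (5 * w * (t + 1 + 1)) := by
      rw [← pow_succ]
      apply Nat.pow_le_pow_right two_pos
      have e : 5 * w * (t + 1 + 1) = 5 * w * (t + 1) + 5 * w := by ring
      omega
    change 2 ^ w * (2 * UpA_tau w t + 2 * w + 4) + 1 ≤ _
    omega

open Classical in
/-- the product item -/
private noncomputable def UpA_P {w l : ℕ} (p r q : ℕ) (c c' c'' : Fin w → Bool)
    (h : ∀ v, v ∈ seg w l p q ↔ v ∈ col w l r ∨ v ∈ seg w l p r ∨ v ∈ seg w l r q) :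
    Item (Fin w × Fin l) where
  vars := seg w l p q
  f := fun a => (pt (col w l r) (fun v => c'' v.1)).f a * (Us l p r c c'').f a *
    (Us l r q c'' c').f a
  nonneg := fun a => mul_nonneg (mul_nonneg (Item.nonneg _ _) (Item.nonneg _ _)) (Item.nonneg _ _)
  dep := fun a b hab => by
    rw [(pt (col w l r) (fun v => c'' v.1)).dep a b fun v hv => hab v ((h v).2 (Or.inl hv)),
      (Us l p r c c'').dep a b fun v hv => hab v ((h v).2 (Or.inr (Or.inl hv))),
      (Us l r q c'' c').dep a b fun v hv => hab v ((h v).2 (Or.inr (Or.inr hv)))]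

private theorem UpA_claim (h1 : St_Rn) (h2 : St_RnP) (h3 : St_RnS) (h4 : St_Rec) (w l : ℕ) :
    ∀ (t p q : ℕ) (c c' : Fin w → Bool), p < q → q ≤ l + 1 → q - p ≤ 2 ^ t →
      Run 1 (3 * t + 4) (UpA_tau w t) ∅ {Us l p q c c'} := by
  classical
  obtain ⟨hcat, hkeep, hmono, hone, -⟩ := h1 (Fin w × Fin l) 1
  obtain ⟨hpt, hprod⟩ := h2 (Fin w × Fin l)
  obtain ⟨hrec, hempty, hcol, -⟩ := h4 w l
  intro t
  induction t with
  | zero =>
    intro p q c c' hpq hq hle
    have e : q = p + 1 := by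
      rw [pow_zero] at hle
      omega
    subst e
    refine hone 4 ∅ {Us l p (p + 1) c c'} (Us l p (p + 1) c c') (Or.inl ?_) (by simp) (by simp)
      (fun J hJ => Or.inl (mem_singleton.1 hJ))
    change (seg w l p (p + 1)).card ≤ 1
    rw [hempty]
    simp
  | succ t ih =>
    intro p q c c' hpq hq hle
    by_cases hle2 : q - p ≤ 2 ^ t
    · exact hmono _ _ _ _ _ _ _ _ (ih p q c c' hpq hq hle2) (by omega) (UpA_tau_le w t)
        (Subset.refl _) (Subset.refl _)
    · have hpow : 0 < 2 ^ t := Nat.two_pow_pos t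
      have hpow2 : 2 ^ (t + 1) = 2 * 2 ^ t := by rw [pow_succ]; ring
      obtain ⟨r, hr⟩ : ∃ r, r = p + 2 ^ t := ⟨_, rfl⟩
      have hpr : p < r := by omega
      have hrq : r < q := by omega
      obtain ⟨⟨d1, d2, d3, hun⟩, hΩ⟩ := hrec p r q hpr hrq hq
      obtain ⟨Ω, hΩ⟩ := hΩ c c'
      have hcard : Ω.card ≤ 2 ^ w := by
        have := card_le_univ Ω
        rw [Fintype.card_fun, Fintype.card_bool, Fintype.card_fin] at this
        exact this
      have hP : ∀ c'' : Fin w → Bool,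
          Run 1 (3 * t + 6) (2 * UpA_tau w t + 2 * w + 3) ∅ {UpA_P p r q c c' c'' hun} := by
        intro c''
        have r1 := ih p r c c'' hpr (by omega) (by omega)
        have r2 := ih r q c'' c' hrq hq (by omega)
        have r3 := hpt (col w l r) (fun v => c'' v.1)
        have k1 := hmono _ (3 * t + 6) _ (UpA_tau w t) _ _ ∅ {Us l p r c c''} r1 (by omega) le_rfl
          (Subset.refl _) (Subset.refl _)
        have k2 := hkeep _ _ _ _ {Us l p r c c''} {Us l p r c c''}
          {Us l p r c c'', Us l r q c'' c'} r2 (fun J hJ => absurd hJ (notMem_empty J))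
          (fun J hJ => hJ) (fun J hJ => by
            rw [mem_insert] at hJ
            rcases hJ with hJ | hJ
            · exact Or.inr (mem_singleton.2 hJ)
            · exact Or.inl hJ)
        have k2' := hmono _ (3 * t + 6) _ (UpA_tau w t) _ _ _ _ k2
          (by rw [card_singleton]; omega) le_rfl (Subset.refl _) (Subset.refl _)
        have k3 := hkeep _ _ _ _ {Us l p r c c'', Us l r q c'' c'}
          {Us l p r c c'', Us l r q c'' c'}
          (insert (pt (col w l r) (fun v => c'' v.1)) {Us l p r c c'', Us l r q c'' c'}) r3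
          (fun J hJ => absurd hJ (notMem_empty J)) (fun J hJ => hJ) (fun J hJ => by
            rw [mem_insert] at hJ
            rcases hJ with hJ | hJ
            · exact Or.inl (mem_singleton.2 hJ)
            · exact Or.inr hJ)
        have k3' := hmono _ (3 * t + 6) _ (2 * w + 1) _ _ _ _ k3 (by
            have := card_le_two (a := Us l p r c c'') (b := Us l r q c'' c')
            omega) (by
            have := hcol r
            omega) (Subset.refl _) (Subset.refl _)
        have k4 := hprod (pt (col w l r) (fun v => c'' v.1)) (Us l p r c c'') (Us l r q c'' c')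
          (UpA_P p r q c c' c'' hun) d1 d2 d3 hun (fun a => rfl)
          (insert (pt (col w l r) (fun v => c'' v.1)) {Us l p r c c'', Us l r q c'' c'})
          (mem_insert_self _ _) (mem_insert_of_mem (mem_insert_self _ _))
          (mem_insert_of_mem (mem_insert_of_mem (mem_singleton_self _)))
        have k4' := hmono _ (3 * t + 6) _ 2 _ _ _ _ k4 (by omega) le_rfl
          (Subset.refl _) (Subset.refl _)
        have k5 := hcat _ _ _ _ _ _ (hcat _ _ _ _ _ _ (hcat _ _ _ _ _ _ k1 k2') k3') k4'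
        exact hmono _ _ _ _ _ _ _ _ k5 le_rfl (by omega) (Subset.refl _) (Subset.refl _)
      have hS := h3 (Fin w × Fin l) (Fin w → Bool) 1 (3 * t + 6) (2 * UpA_tau w t + 2 * w + 3) Ω
        (fun c'' => UpA_P p r q c c' c'' hun) (Us l p q c c') ∅ {Us l p q c c'} (by simp)
        (fun i _ B' hB' => hmono _ _ _ _ _ _ _ _ (hP i) le_rfl le_rfl (Subset.refl _)
          (fun J hJ => by
            rcases hB' J hJ with hJ | hJ
            · exact mem_singleton.2 hJ
            · exact absurd hJ (notMem_empty J)))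
        (fun i _ => Subset.refl _) (fun a => hΩ a) (fun J hJ => Or.inl (mem_singleton.1 hJ))
      refine hmono _ _ _ _ _ _ _ _ hS (by omega) ?_ (Subset.refl _) (Subset.refl _)
      have := Nat.mul_le_mul_right (2 * UpA_tau w t + 2 * w + 3 + 1) hcard
      change _ ≤ 2 ^ w * (2 * UpA_tau w t + 2 * w + 4) + 1
      exact Nat.succ_le_succ this

/-- [UpA] little memory -/
theorem thm_UpA (h1 : St_Rn) (h2 : St_RnP) (h3 : St_RnS) (h4 : St_Rec) : St_UpA := by
  refine ⟨15, fun w l hw hl => ?_⟩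
  obtain ⟨-, -, hmono, -, hprog⟩ := h1 (Fin w × Fin l) 1
  obtain ⟨-, -, -, hfin⟩ := h4 w l
  have hlog : 1 ≤ Nat.log 2 l := Nat.log_pos one_lt_two hl
  have hlt : l + 1 ≤ 2 ^ (Nat.log 2 l + 1) := Nat.lt_pow_succ_log_self one_lt_two l
  have hrun := UpA_claim h1 h2 h3 h4 w l (Nat.log 2 l + 1) 0 (l + 1) (fun _ => true)
    (fun _ => true) (by omega) le_rfl (by omega)
  have hrun' := hmono _ (15 * Nat.log 2 l) _ (UpA_tau w (Nat.log 2 l + 1)) _ _ _ _ hrun (by omega)
    le_rfl (Subset.refl _) (Subset.refl _)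
  obtain ⟨M, hM, hI⟩ := hprog _ _ _ hrun'
  refine ⟨UpA_tau w (Nat.log 2 l + 1), ?_, M, hM, Us l 0 (l + 1) (fun _ => true) (fun _ => true),
    hI (mem_singleton_self _), hfin⟩
  have hb := UpA_tau_bd w hw (Nat.log 2 l + 1)
  have h5 : 2 ^ (5 * w * (Nat.log 2 l + 1 + 1)) ≤ 2 ^ (Nat.log 2 l * (15 * w)) := by
    apply Nat.pow_le_pow_right two_pos
    have h6 : 5 * w * (Nat.log 2 l + 1 + 1) ≤ 5 * w * (3 * Nat.log 2 l) :=
      Nat.mul_le_mul_left _ (by omega)
    have e : 5 * w * (3 * Nat.log 2 l) = Nat.log 2 l * (15 * w) := by ring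
    omega
  have h7 : 2 ^ (Nat.log 2 l * (15 * w)) ≤ l ^ (15 * w) := by
    rw [pow_mul]
    exact Nat.pow_le_pow_left (Nat.pow_log_le_self 2 (by omega)) _
  exact hb.trans (h5.trans h7)

end TSP
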