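import Pool.Agent.TSP.St

/-!
# TSP, module UpB: the transfer matrix method (MP_4ed1f9_lc)
-/

set_option autoImplicit false

namespace TSP

open Finset
open scoped BigOperators

open Classical in
private theorem UpB_seq (h1 : St_Rn) {V ι : Type} (s τ X : ℕ) (P : ι → Item V) (A : Finset (Item V))
    (hA : A.card ≤ s + X)
    (hP : ∀ i : ι, ∀ B' : Finset (Item V), (∀ J ∈ B', J = P i ∨ J ∈ A) → Run 1 s τ A B') :
    ∀ Ω : Finset ι, Ω.card ≤ X → Run 1 (s + X) (Ω.card * τ) A (A ∪ Ω.image P) := by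
  intro Ω
  induction Ω using Finset.induction_on with
  | empty =>
    intro _
    refine ⟨fun _ => A, subset_rfl, ?_, fun t _ => hA, fun t ht => ?_⟩
    · simp
    · simp at ht
  | insert i Ω' hi ih =>
    intro hX
    rw [Finset.card_insert_of_notMem hi] at hX ⊢
    obtain ⟨r1, r2, r3, _, _⟩ := h1 V 1
    have e1 := ih (by omega)
    have e2 : Run 1 s τ A (insert (P i) A) := hP i _ (by
      intro J hJ
      exact Finset.mem_insert.mp hJ)
    have e3 : Run 1 (s + (Ω'.image P).card) τ (A ∪ Ω'.image P) (A ∪ (insert i Ω').image P) := by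
      refine r2 s τ A (insert (P i) A) (Ω'.image P) _ _ e2 ?_ ?_ ?_
      · intro J hJ
        exact Finset.mem_union_left _ hJ
      · intro J hJ
        exact Finset.mem_union_right _ hJ
      · intro J hJ
        rcases Finset.mem_union.mp hJ with h | h
        · exact Or.inl (Finset.mem_insert_of_mem h)
        · rw [Finset.image_insert] at h
          rcases Finset.mem_insert.mp h with h | h
          · left
            rw [h]
            exact Finset.mem_insert_self _ _
          · exact Or.inr h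
    have e4 := r3 _ (s + X) τ τ _ _ _ _ e3
      (by
        have := Finset.card_image_le (s := Ω') (f := P)
        omega) le_rfl subset_rfl subset_rfl
    have e5 := r1 _ _ _ _ _ _ e1 e4
    rw [add_mul, one_mul]
    exact e5

open Classical in
/-- the product of three items -/
private noncomputable def UpB_prod {V : Type} (X Y Z : Item V) : Item V where
  vars := X.vars ∪ (Y.vars ∪ Z.vars)
  f := fun a => X.f a * Y.f a * Z.f a
  nonneg := fun a => mul_nonneg (mul_nonneg (X.nonneg a) (Y.nonneg a)) (Z.nonneg a)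
  dep := by
    intro a b hab
    have hx : X.f a = X.f b := X.dep a b fun v hv => hab v (Finset.mem_union_left _ hv)
    have hy : Y.f a = Y.f b := Y.dep a b fun v hv =>
      hab v (Finset.mem_union_right _ (Finset.mem_union_left _ hv))
    have hz : Z.f a = Z.f b := Z.dep a b fun v hv =>
      hab v (Finset.mem_union_right _ (Finset.mem_union_right _ hv))
    simp only [hx, hy, hz]

private theorem UpB_mem {V : Type} (X Y Z : Item V) (v : V) :
    v ∈ (UpB_prod X Y Z).vars ↔ v ∈ X.vars ∨ v ∈ Y.vars ∨ v ∈ Z.vars := by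
  classical
  unfold UpB_prod
  simp only [Finset.mem_union]

open Classical in
/-- the table of the first `q` columns -/
private noncomputable def UpB_tab (w l q : ℕ) : Finset (Item (Fin w × Fin l)) :=
  (Finset.univ : Finset (Fin w → Bool)).image fun c' => Us l 0 q (fun _ : Fin w => true) c'

private theorem UpB_card (w l q : ℕ) : (UpB_tab w l q).card ≤ 2 ^ w := by
  classical
  refine le_trans Finset.card_image_le ?_
  simp

private theorem UpB_first (h1 : St_Rn) (h4 : St_Rec) (w l : ℕ) :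
    Run 1 (1 + 2 ^ w) (2 ^ w * 1) ∅ (UpB_tab w l 1) := by
  classical
  obtain ⟨r1, r2, r3, r4, r5⟩ := h1 (Fin w × Fin l) 1
  have hseg : seg w l 0 (0 + 1) = ∅ := (h4 w l).2.1 0
  have h := UpB_seq h1 1 1 (2 ^ w) (fun c' : Fin w → Bool => Us l 0 1 (fun _ : Fin w => true) c')
    (∅ : Finset (Item (Fin w × Fin l))) (by simp) (by
      intro i B' hB'
      refine r4 1 ∅ B' (Us l 0 1 (fun _ : Fin w => true) i) (Or.inl ?_) (by simp) ?_ hB'
      · have : (Us l 0 1 (fun _ : Fin w => true) i).vars = seg w l 0 (0 + 1) := rfl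
        rw [this, hseg]
        simp
      · have : B' ⊆ {Us l 0 1 (fun _ : Fin w => true) i} := by
          intro J hJ
          rcases hB' J hJ with h | h
          · rw [h]
            exact Finset.mem_singleton_self _
          · simp at h
        refine le_trans (Finset.card_le_card this) ?_
        simp) Finset.univ (by simp)
  have hc : (Finset.univ : Finset (Fin w → Bool)).card = 2 ^ w := by simp
  rw [hc] at h
  rw [Finset.empty_union] at h
  exact h

private theorem UpB_one (h1 : St_Rn) (h2 : St_RnP) (h3 : St_RnS) (h4 : St_Rec) (w l q : ℕ)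
    (hq : 1 ≤ q) (hql : q ≤ l) (c' : Fin w → Bool) (B : Finset (Item (Fin w × Fin l)))
    (hB : ∀ J ∈ B, J = Us l 0 (q + 1) (fun _ : Fin w => true) c' ∨ J ∈ UpB_tab w l q) :
    Run 1 (2 ^ w + 4) (2 ^ w * (2 * w + 5) + 1) (UpB_tab w l q) B := by
  classical
  obtain ⟨r1, r2, r3, r4, r5⟩ := h1 (Fin w × Fin l) 1
  obtain ⟨p1, p2⟩ := h2 (Fin w × Fin l)
  obtain ⟨g1, g2, g3, g4⟩ := h4 w l
  obtain ⟨⟨d1, d2, d3, d4⟩, hΩ⟩ := g1 0 q (q + 1) (by omega) (by omega) (by omega)
  obtain ⟨Ω, hsum⟩ := hΩ (fun _ : Fin w => true) c'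
  set A := UpB_tab w l q with hA
  have hAc : A.card ≤ 2 ^ w := UpB_card w l q
  have key : ∀ c'' : Fin w → Bool, ∀ B' : Finset (Item (Fin w × Fin l)),
      (∀ J ∈ B', J = UpB_prod (pt (col w l q) (fun v => c'' v.1))
        (Us l 0 q (fun _ : Fin w => true) c'') (Us l q (q + 1) c'' c') ∨ J ∈ A) →
      Run 1 (2 ^ w + 3) (2 * w + 4) A B' := by
    intro c'' B' hB'
    set X := pt (col w l q) (fun v : Fin w × Fin l => c'' v.1) with hX
    set Y := Us l 0 q (fun _ : Fin w => true) c'' with hY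
    set Z := Us l q (q + 1) c'' c' with hZ
    have hYA : Y ∈ A := Finset.mem_image.mpr ⟨c'', Finset.mem_univ _, rfl⟩
    have hcol := g3 q
    -- the point
    have s1 : Run 1 (3 + A.card) (2 * (col w l q).card + 1) A (insert X A) := by
      refine r2 3 (2 * (col w l q).card + 1) ∅ {X} A A (insert X A) (p1 _ _) ?_ ?_ ?_
      · intro J hJ
        simp at hJ
      · intro J hJ
        exact hJ
      · intro J hJ
        rcases Finset.mem_insert.mp hJ with h | h
        · left
          rw [h]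
          exact Finset.mem_singleton_self _
        · exact Or.inr h
    -- the leaf
    have hc1 : (insert X A).card ≤ A.card + 1 := Finset.card_insert_le _ _
    have hc2 : (insert Z (insert X A)).card ≤ (insert X A).card + 1 := Finset.card_insert_le _ _
    have s2 : Run 1 (3 + A.card) 1 (insert X A) (insert Z (insert X A)) := by
      refine r4 (3 + A.card) (insert X A) (insert Z (insert X A)) Z (Or.inl ?_) (by omega) (by omega) ?_
      · have : Z.vars = seg w l q (q + 1) := rfl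
        rw [this, g2 q]
        simp
      · intro J hJ
        exact Finset.mem_insert.mp hJ
    -- the product
    have s3 : Run 1 3 2 (insert Z (insert X A)) {UpB_prod X Y Z} := by
      refine p2 X Y Z (UpB_prod X Y Z) d1 d2 d3 ?_ (fun a => rfl) _ ?_ ?_ ?_
      · exact UpB_mem X Y Z
      · exact Finset.mem_insert_of_mem (Finset.mem_insert_self _ _)
      · exact Finset.mem_insert_of_mem (Finset.mem_insert_of_mem hYA)
      · exact Finset.mem_insert_self _ _
    have s4 : Run 1 (3 + A.card) 2 (insert Z (insert X A)) B' := by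
      refine r2 3 2 (insert Z (insert X A)) {UpB_prod X Y Z} A (insert Z (insert X A)) B' s3
        (fun J hJ => hJ) ?_ ?_
      · intro J hJ
        exact Finset.mem_insert_of_mem (Finset.mem_insert_of_mem hJ)
      · intro J hJ
        rcases hB' J hJ with h | h
        · left
          rw [h]
          exact Finset.mem_singleton_self _
        · exact Or.inr h
    have s5 := r1 _ _ _ _ _ _ (r1 _ _ _ _ _ _ s1 s2) s4
    exact r3 _ (2 ^ w + 3) _ (2 * w + 4) _ _ _ _ s5 (by omega) (by omega) subset_rfl subset_rfl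
  have hfin := h3 (Fin w × Fin l) (Fin w → Bool) 1 (2 ^ w + 3) (2 * w + 4) Ω
    (fun c'' => UpB_prod (pt (col w l q) (fun v => c'' v.1))
        (Us l 0 q (fun _ : Fin w => true) c'') (Us l q (q + 1) c'' c'))
    (Us l 0 (q + 1) (fun _ : Fin w => true) c') A B (by omega) (fun i _ => key i) ?_ ?_ hB
  · have hΩc : Ω.card ≤ 2 ^ w := by
      refine le_trans (Finset.card_le_univ Ω) ?_
      simp
    refine r3 _ (2 ^ w + 4) _ (2 ^ w * (2 * w + 5) + 1) _ _ _ _ hfin (by omega) ?_ subset_rfl subset_rfl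
    have := Nat.mul_le_mul_right (2 * w + 5) hΩc
    have h2 : Ω.card * (2 * w + 4 + 1) = Ω.card * (2 * w + 5) := by ring
    omega
  · intro c'' _ v hv
    have e1 : (Us l 0 (q + 1) (fun _ : Fin w => true) c').vars = seg w l 0 (q + 1) := rfl
    rw [e1, d4 v]
    exact (UpB_mem _ _ _ v).mp hv
  · intro a
    exact hsum a

private theorem UpB_step (h1 : St_Rn) (h2 : St_RnP) (h3 : St_RnS) (h4 : St_Rec) (w l q : ℕ)
    (hq : 1 ≤ q) (hql : q ≤ l) :
    Run 1 (2 ^ w + 4 + 2 ^ w) (2 ^ w * (2 ^ w * (2 * w + 5) + 1)) (UpB_tab w l q)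
      (UpB_tab w l (q + 1)) := by
  classical
  obtain ⟨r1, r2, r3, r4, r5⟩ := h1 (Fin w × Fin l) 1
  have hAc : (UpB_tab w l q).card ≤ 2 ^ w := UpB_card w l q
  have h := UpB_seq h1 (2 ^ w + 4) (2 ^ w * (2 * w + 5) + 1) (2 ^ w)
    (fun c' : Fin w → Bool => Us l 0 (q + 1) (fun _ : Fin w => true) c') (UpB_tab w l q)
    (by omega) (fun c' B' hB' => UpB_one h1 h2 h3 h4 w l q hq hql c' B' hB')
    Finset.univ (by simp)
  have hc : (Finset.univ : Finset (Fin w → Bool)).card = 2 ^ w := by simp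
  rw [hc] at h
  exact r3 _ _ _ _ _ _ _ _ h le_rfl le_rfl subset_rfl Finset.subset_union_right

theorem thm_UpB (h1 : St_Rn) (h2 : St_RnP) (h3 : St_RnS) (h4 : St_Rec) : St_UpB := by
  classical
  refine ⟨7, fun w l hw hl => ?_⟩
  obtain ⟨r1, r2, r3, r4, r5⟩ := h1 (Fin w × Fin l) 1
  have hX0 : 1 ≤ 2 ^ w := Nat.one_le_two_pow
  have all : ∀ q : ℕ, q ≤ l → Run 1 (2 ^ w + 4 + 2 ^ w)
      (2 ^ w + q * (2 ^ w * (2 ^ w * (2 * w + 5) + 1))) ∅ (UpB_tab w l (q + 1)) := by
    intro q
    induction q with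
    | zero =>
      intro _
      exact r3 _ _ _ _ _ _ _ _ (UpB_first h1 h4 w l) (by omega) (by simp) subset_rfl subset_rfl
    | succ q ih =>
      intro hq
      have e := r1 _ _ _ _ _ _ (ih (by omega)) (UpB_step h1 h2 h3 h4 w l (q + 1) (by omega) hq)
      refine r3 _ _ _ _ _ _ _ _ e le_rfl ?_ subset_rfl subset_rfl
      rw [add_mul, one_mul]
      omega
  have hl1 := all l le_rfl
  have hpow : ∀ k : ℕ, 2 ^ (k + 1) = 2 * 2 ^ k := fun k => by rw [pow_succ]; ring
  have hw1 : 2 * w + 5 ≤ 2 ^ 3 * 2 ^ w := by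
    have : w < 2 ^ w := Nat.lt_two_pow_self
    omega
  have hX : 2 ≤ 2 ^ w := by
    calc 2 = 2 ^ 1 := by norm_num
      _ ≤ 2 ^ w := Nat.pow_le_pow_right (by norm_num) hw
  have hS : 2 ^ w + 4 + 2 ^ w ≤ 2 ^ (7 * w) := by
    have e : 2 ^ (7 * w) = 2 ^ w * 2 ^ (6 * w) := by rw [← pow_add]; congr 1; ring
    have e2 : 2 ^ 6 ≤ 2 ^ (6 * w) := Nat.pow_le_pow_right (by norm_num) (by omega)
    rw [e]
    nlinarith
  have hT : 2 ^ w + l * (2 ^ w * (2 ^ w * (2 * w + 5) + 1)) ≤ 2 ^ (7 * w) * l := by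
    have e : 2 ^ (7 * w) = 2 ^ w * (2 ^ w * (2 ^ w * 2 ^ (4 * w))) := by
      rw [← pow_add, ← pow_add, ← pow_add]; congr 1; ring
    have e2 : 2 ^ 4 ≤ 2 ^ (4 * w) := Nat.pow_le_pow_right (by norm_num) (by omega)
    have a1 : 2 ^ w * (2 * w + 5) + 1 + 1 ≤ 2 ^ w * (2 ^ w * 2 ^ (4 * w)) := by
      have b1 : 2 ^ w * (2 * w + 5) ≤ 2 ^ w * (2 ^ 3 * 2 ^ w) := Nat.mul_le_mul_left _ hw1
      have b2 : 2 ^ w * (2 ^ w * 2 ^ 4) ≤ 2 ^ w * (2 ^ w * 2 ^ (4 * w)) :=
        Nat.mul_le_mul_left _ (Nat.mul_le_mul_left _ e2)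
      nlinarith
    have a2 : 2 ^ w * (2 ^ w * (2 * w + 5) + 1 + 1) ≤ 2 ^ (7 * w) := by
      rw [e]
      exact Nat.mul_le_mul_left _ a1
    have a3 := Nat.mul_le_mul_right l a2
    have a4 : 2 ^ w ≤ 2 ^ w * l := Nat.le_mul_of_pos_right _ (by omega)
    nlinarith
  obtain ⟨M, hM, hB⟩ := r5 _ _ _ (r3 _ (2 ^ (7 * w)) _
    (2 ^ w + l * (2 ^ w * (2 ^ w * (2 * w + 5) + 1))) _ _ _ _ hl1 hS le_rfl subset_rfl subset_rfl)
  refine ⟨_, hT, M, hM, Us l 0 (l + 1) (fun _ : Fin w => true) (fun _ => true), ?_, ?_⟩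
  · exact hB (Finset.mem_image.mpr ⟨fun _ => true, Finset.mem_univ _, rfl⟩)
  · exact (h4 w l).2.2.2

end TSP
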