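import Pool.Agent.TSP.Main
import Pool.Agent.TSP.Red
import Pool.Agent.TSP.Frt
import Pool.Agent.TSP.End
import Pool.Agent.TSP.Prb
import Pool.Agent.TSP.Num
import Pool.Agent.TSP.Rn
import Pool.Agent.TSP.RnP
import Pool.Agent.TSP.RnS
import Pool.Agent.TSP.Rec
import Pool.Agent.TSP.UpA
import Pool.Agent.TSP.UpB

/-!
# TSP: the theorem without hypotheses
-/

set_option autoImplicit false

namespace TSP

theorem all_Main : St_Main :=
  thm_Main thm_Red thm_Frt thm_End thm_Prb thm_Num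
    (thm_UpA thm_Rn (thm_RnP thm_Rn) (thm_RnS thm_Rn) thm_Rec)
    (thm_UpB thm_Rn (thm_RnP thm_Rn) (thm_RnS thm_Rn) thm_Rec)

end TSP
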