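import Pool.Agent.TSP.Count

/-!
# TSP, module COUNT2: the counting theorem, second form

As in `Count.lean`, but a member of `Fam` is a whole forced set of an item, and the choices of the levels of
the `R` separated pairs are counted together: at most `2 ^ (J + R)` choices of a multiset of `R` levels among `J`.
-/

set_option autoImplicit false

namespace Pool.Agent.TSP

private theorem CT_union {ι β : Type*} [DecidableEq β] (s : Finset ι) (f : ι → Finset β) (c : ℝ)
    (h : ∀ i ∈ s, ((f i).card : ℝ) ≤ c) : ((s.biUnion f).card : ℝ) ≤ s.card * c := by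
  have h1 : ((s.biUnion f).card : ℝ) ≤ ∑ i ∈ s, ((f i).card : ℝ) := by
    exact_mod_cast Finset.card_biUnion_le
  refine h1.trans ((Finset.sum_le_sum h).trans ?_)
  rw [Finset.sum_const, nsmul_eq_mul]

/-- the unions of `r` sets, each of them from a family with level in `Λ` -/
theorem count_levels {V : Type*} [DecidableEq V] (Fam : ℕ → Finset (Finset V)) (N : ℕ)
    (hFam : ∀ t, (Fam t).card ≤ N) (Λ : Finset ℕ) :
    ∀ r : ℕ, ∃ F : Finset (Finset V), F.card ≤ 2 ^ (Λ.card + r) * N ^ r ∧
      ∀ (S : Finset (ℕ × ℕ)) (E : ℕ × ℕ → Finset V), S.card = r → (∀ x ∈ S, x.1 ∈ Λ) →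
        (∀ x ∈ S, E x ∈ Fam x.1) → S.biUnion E ∈ F := by
  classical
  induction Λ using Finset.induction_on with
  | empty =>
    intro r
    cases r with
    | zero =>
      refine ⟨{∅}, by simp, fun S E hS _ _ => ?_⟩
      rw [Finset.card_eq_zero] at hS
      simp [hS]
    | succ r =>
      refine ⟨∅, by simp, fun S E hS h _ => ?_⟩
      obtain ⟨x, hx⟩ := Finset.card_pos.1 (show 0 < S.card by omega)
      exact absurd (h x hx) (Finset.notMem_empty _)
  | insert t Λ ht ih =>
    intro r
    induction r with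
    | zero =>
      refine ⟨{∅}, ?_, fun S E hS _ _ => ?_⟩
      · rw [pow_zero, mul_one, Finset.card_singleton]
        exact Nat.one_le_two_pow
      · rw [Finset.card_eq_zero] at hS
        simp [hS]
    | succ r ihr =>
      obtain ⟨F1, h1, h1'⟩ := ih (r + 1)
      obtain ⟨F2, h2, h2'⟩ := ihr
      refine ⟨F1 ∪ (Fam t ×ˢ F2).image (fun x => x.1 ∪ x.2), ?_, fun S E hS h hE => ?_⟩
      · refine (Finset.card_union_le _ _).trans ?_
        have e1 : ((Fam t ×ˢ F2).image (fun x => x.1 ∪ x.2)).card ≤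
            N * (2 ^ ((insert t Λ).card + r) * N ^ r) := by
          refine Finset.card_image_le.trans ?_
          rw [Finset.card_product]
          exact Nat.mul_le_mul (hFam t) h2
        rw [Finset.card_insert_of_notMem ht] at e1 ⊢
        calc F1.card + ((Fam t ×ˢ F2).image (fun x => x.1 ∪ x.2)).card
            ≤ 2 ^ (Λ.card + (r + 1)) * N ^ (r + 1) + N * (2 ^ (Λ.card + 1 + r) * N ^ r) :=
              add_le_add h1 e1
          _ = 2 ^ (Λ.card + 1 + (r + 1)) * N ^ (r + 1) := by ring
      · rw [Finset.mem_union]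
        by_cases hex : ∃ x ∈ S, x.1 = t
        · right
          obtain ⟨x, hx, hxt⟩ := hex
          rw [Finset.mem_image]
          refine ⟨(E x, (S.erase x).biUnion E), ?_, ?_⟩
          · rw [Finset.mem_product]
            refine ⟨by rw [← hxt]; exact hE x hx, h2' (S.erase x) E ?_ ?_ ?_⟩
            · rw [Finset.card_erase_of_mem hx]
              omega
            · exact fun y hy => h y (Finset.mem_of_mem_erase hy)
            · exact fun y hy => hE y (Finset.mem_of_mem_erase hy)
          · show E x ∪ (S.erase x).biUnion E = S.biUnion E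
            rw [← Finset.biUnion_insert, Finset.insert_erase hx]
        · left
          push Not at hex
          refine h1' S E hS (fun x hx => ?_) hE
          rcases Finset.mem_insert.1 (h x hx) with h3 | h3
          · exact absurd h3 (hex x hx)
          · exact h3

/-- **COUNT2** -/
theorem count2 {V : Type*} [Fintype V] [DecidableEq V] (ρ : ℝ) (h0 : 0 < ρ) (h1 : ρ ≤ 1)
    (Mod A : Finset (V → Bool)) (hA : A ⊆ Mod)
    (hones : ∀ Z : Finset V,
      ((Mod.filter fun a => ∀ x ∈ Z, a x = true).card : ℝ) ≤ ρ ^ Z.card * (Mod.card : ℝ))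
    (B : ℕ → Finset V) (hB : ∀ u v, u ≠ v → Disjoint (B u) (B v)) (L q J N N' R l : ℕ)
    (D : (V → Bool) → ℕ → Finset ℕ) (hD0 : ∀ a ∈ A, ∀ u < L, u ∉ D a 0)
    (hDT : ∀ a ∈ A, ∀ u < L, u ∈ D a (2 ^ J))
    (Fam : ℕ → Finset (Finset V)) (hFam : ∀ t, (Fam t).card ≤ N)
    (hsep : ∀ a ∈ A, ∀ t u, u + 1 < L → Sep (D a t) u →
      ∃ E ∈ Fam t, q ≤ (E ∩ (B u ∪ B (u + 1))).card ∧ ∀ x ∈ E, a x = true)
    (Fst : ℕ → Finset (Finset V)) (hFst : ∀ t, (Fst t).card ≤ N')
    (hstep : ∀ a ∈ A, ∀ (t : ℕ) (I : Finset ℕ), (∀ u ∈ I, u < L ∧ u ∉ D a t ∧ u ∈ D a (t + 1)) →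
      l ≤ I.card → ∃ E ∈ Fst t, (∀ x ∈ E, a x = true) ∧ q * I.card ≤ E.card)
    (hR : 1 ≤ R) (hl0 : 1 ≤ l) (hl : l * 2 ^ (R - 1) ≤ L) :
    (A.card : ℝ) ≤ (2 ^ J * (2 ^ (J + R) * (N : ℝ) ^ R * ρ ^ (q * R / 2)) +
      2 ^ J * ((N' : ℝ) * ρ ^ (q * l))) * (Mod.card : ℝ) := by
  classical
  -- the set of the members of `Mod` with ones on `Z`
  let on : Finset V → Finset (V → Bool) := fun Z => Mod.filter fun a => ∀ x ∈ Z, a x = true
  choose F hF1 hF2 using fun k => count_levels Fam N hFam (mids J 0 k) R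
  let U1 : Finset (V → Bool) := (Finset.range (2 ^ J)).biUnion fun k =>
    ((F k).filter fun Z => q * R / 2 ≤ Z.card).biUnion fun Z => on Z
  let U2 : Finset (V → Bool) := (Finset.range (2 ^ J)).biUnion fun k =>
    ((Fst k).filter fun E => q * l ≤ E.card).biUnion fun E => on E
  have hmod0 : (0 : ℝ) ≤ (Mod.card : ℝ) := Nat.cast_nonneg _
  -- first part
  have hc1 : (U1.card : ℝ) ≤ 2 ^ J * ((2 ^ (J + R) * (N : ℝ) ^ R * ρ ^ (q * R / 2)) * (Mod.card : ℝ)) := by
    have := CT_union (Finset.range (2 ^ J)) (fun k =>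
      ((F k).filter fun Z => q * R / 2 ≤ Z.card).biUnion fun Z => on Z)
      ((2 ^ (J + R) * (N : ℝ) ^ R * ρ ^ (q * R / 2)) * (Mod.card : ℝ)) (by
        intro k _
        have h2 := CT_union ((F k).filter fun Z => q * R / 2 ≤ Z.card)
          (fun Z => on Z) (ρ ^ (q * R / 2) * (Mod.card : ℝ)) (by
            intro Z hZ
            rw [Finset.mem_filter] at hZ
            refine (hones _).trans ?_
            exact mul_le_mul_of_nonneg_right (pow_le_pow_of_le_one h0.le h1 hZ.2) hmod0)
        refine h2.trans ?_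
        rw [mul_assoc (2 ^ (J + R) * (N : ℝ) ^ R)]
        refine mul_le_mul_of_nonneg_right ?_ (by positivity)
        have h3 : ((F k).filter fun Z => q * R / 2 ≤ Z.card).card ≤ 2 ^ (J + R) * N ^ R := by
          refine (Finset.card_filter_le _ _).trans ((hF1 k).trans ?_)
          refine Nat.mul_le_mul_right _ (Nat.pow_le_pow_right (by norm_num) ?_)
          exact Nat.add_le_add_right (mids_card J 0 k) _
        exact_mod_cast h3)
    rw [Finset.card_range] at this
    exact_mod_cast this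
  -- second part
  have hc2 : (U2.card : ℝ) ≤ 2 ^ J * (((N' : ℝ) * ρ ^ (q * l)) * (Mod.card : ℝ)) := by
    have := CT_union (Finset.range (2 ^ J)) (fun k =>
      ((Fst k).filter fun E => q * l ≤ E.card).biUnion fun E => on E)
      (((N' : ℝ) * ρ ^ (q * l)) * (Mod.card : ℝ)) (by
        intro k _
        have h2 := CT_union ((Fst k).filter fun E => q * l ≤ E.card)
          (fun E => on E) (ρ ^ (q * l) * (Mod.card : ℝ)) (by
            intro E hE
            rw [Finset.mem_filter] at hE
            refine (hones _).trans ?_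
            exact mul_le_mul_of_nonneg_right (pow_le_pow_of_le_one h0.le h1 hE.2) hmod0)
        refine h2.trans ?_
        rw [mul_assoc (N' : ℝ)]
        refine mul_le_mul_of_nonneg_right ?_ (by positivity)
        exact_mod_cast (Finset.card_filter_le _ _).trans (hFst k))
    rw [Finset.card_range] at this
    exact_mod_cast this
  -- the cover
  have hcov : A ⊆ U1 ∪ U2 := by
    intro a ha
    have hL : 0 < L := by
      have : 0 < l * 2 ^ (R - 1) := Nat.mul_pos hl0 (by positivity)
      omega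
    obtain ⟨k, hk, p', q', c1, c2, c3, c4, S, c5, c6, c7⟩ := descend (D a) J 0 0 L hL
      (fun u _ hu => hD0 a ha u hu) (fun u _ hu => by rw [zero_add]; exact hDT a ha u hu)
    simp only [zero_add, Nat.sub_zero] at c4 c7
    rw [Finset.mem_union]
    by_cases hS : R ≤ S.card
    · left
      obtain ⟨S', hS', hcard⟩ := Finset.exists_subset_card_eq hS
      have hex : ∀ x : ℕ × ℕ, ∃ E : Finset V, x ∈ S' → E ∈ Fam x.1 ∧
          q ≤ (E ∩ (B x.2 ∪ B (x.2 + 1))).card ∧ ∀ y ∈ E, a y = true := by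
        intro x
        by_cases hx : x ∈ S'
        · obtain ⟨d1, d2, d3, d4⟩ := c5 x (hS' hx)
          obtain ⟨E, e1, e2, e3⟩ := hsep a ha x.1 x.2 d3 d4
          exact ⟨E, fun _ => ⟨e1, e2, e3⟩⟩
        · exact ⟨∅, fun h => absurd h hx⟩
      choose E hE using hex
      have hbig := count_union B hB S' (fun x => E x ∩ (B x.2 ∪ B (x.2 + 1))) Prod.snd q
        (fun x hx y hy h => c6 x (hS' hx) y (hS' hy) h) (fun x _ => Finset.inter_subset_right)
        (fun x hx => (hE x hx).2.1)
      rw [hcard] at hbig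
      rw [Finset.mem_biUnion]
      refine ⟨k, Finset.mem_range.2 hk, ?_⟩
      rw [Finset.mem_biUnion]
      refine ⟨S'.biUnion E, ?_, ?_⟩
      · rw [Finset.mem_filter]
        refine ⟨hF2 k S' E hcard (fun x hx => (c5 x (hS' hx)).1) (fun x hx => (hE x hx).1), ?_⟩
        have h3 : (S'.biUnion fun x => E x ∩ (B x.2 ∪ B (x.2 + 1))).card ≤ (S'.biUnion E).card :=
          Finset.card_le_card (Finset.biUnion_mono fun x _ => Finset.inter_subset_left)
        have : q * R ≤ (S'.biUnion E).card * 2 := by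
          rw [mul_comm q R]
          exact hbig.trans (Nat.mul_le_mul_right _ h3)
        omega
      · rw [Finset.mem_filter]
        refine ⟨hA ha, ?_⟩
        intro x hx
        obtain ⟨y, hy, hxy⟩ := Finset.mem_biUnion.1 hx
        exact (hE y hy).2.2 x hxy
    · right
      have hlen : l ≤ q' - p' := by
        have e1 : L ≤ (q' - p') * 2 ^ (R - 1) :=
          c7.trans (Nat.mul_le_mul_left _ (Nat.pow_le_pow_right (by norm_num) (by omega)))
        exact Nat.le_of_mul_le_mul_right (hl.trans e1) (by positivity)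
      obtain ⟨E, e1, e2, e3⟩ := hstep a ha k (Finset.Ico p' q') (by
        intro u hu
        rw [Finset.mem_Ico] at hu
        exact ⟨by omega, c4 u hu.1 hu.2⟩) (by rw [Nat.card_Ico]; exact hlen)
      rw [Nat.card_Ico] at e3
      rw [Finset.mem_biUnion]
      refine ⟨k, Finset.mem_range.2 hk, ?_⟩
      rw [Finset.mem_biUnion]
      refine ⟨E, ?_, ?_⟩
      · rw [Finset.mem_filter]
        exact ⟨e1, (Nat.mul_le_mul_left _ hlen).trans e3⟩
      · rw [Finset.mem_filter]
        exact ⟨hA ha, e2⟩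
  have hfin : (A.card : ℝ) ≤ (U1.card : ℝ) + (U2.card : ℝ) := by
    exact_mod_cast (Finset.card_le_card hcov).trans (Finset.card_union_le _ _)
  calc (A.card : ℝ) ≤ (U1.card : ℝ) + (U2.card : ℝ) := hfin
    _ ≤ 2 ^ J * ((2 ^ (J + R) * (N : ℝ) ^ R * ρ ^ (q * R / 2)) * (Mod.card : ℝ)) +
        2 ^ J * (((N' : ℝ) * ρ ^ (q * l)) * (Mod.card : ℝ)) := add_le_add hc1 hc2
    _ = _ := by ring

end Pool.Agent.TSP
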