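import Mathlib

/-!
# TSP, module GRID: cuts in the grid

`w` rows, `l` columns; blocks of `w` columns.  A set which has more than a quarter of one block and at most half
of the same or the next block is cut by many edges: few mixed rows give a full row and an empty row, so every
column is mixed.
-/

set_option autoImplicit false

open SimpleGraph

namespace Pool.Agent.TSP

/-- `Z` contains an end of every edge between `U` and its complement -/
def Cov {V : Type*} (adj : V → V → Prop) (U Z : Finset V) : Prop :=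
  ∀ x y, adj x y → x ∈ U → y ∉ U → x ∈ Z ∨ y ∈ Z

/-- the grid with `w` rows and `l` columns -/
abbrev Grid (w l : ℕ) : SimpleGraph (Fin w × Fin l) := pathGraph w □ pathGraph l

/-- the columns `a, …, b - 1` -/
def reg (w l a b : ℕ) : Finset (Fin w × Fin l) :=
  Finset.univ.filter fun x => a ≤ (x.2 : ℕ) ∧ (x.2 : ℕ) < b

/-- the block `u` -/
def blk (w l u : ℕ) : Finset (Fin w × Fin l) := reg w l (w * u) (w * (u + 1))

theorem mem_reg {w l a b : ℕ} {x : Fin w × Fin l} : x ∈ reg w l a b ↔ a ≤ (x.2 : ℕ) ∧ (x.2 : ℕ) < b := by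
  unfold reg
  simp

theorem grid_adj {w l : ℕ} {x y : Fin w × Fin l} : (Grid w l).Adj x y ↔
    (((x.1 : ℕ) + 1 = y.1 ∨ (y.1 : ℕ) + 1 = x.1) ∧ x.2 = y.2) ∨
      (((x.2 : ℕ) + 1 = y.2 ∨ (y.2 : ℕ) + 1 = x.2) ∧ x.1 = y.1) := by
  rw [boxProd_adj, pathGraph_adj, pathGraph_adj]

/-- at most four neighbours -/
theorem grid_deg {w l : ℕ} (x : Fin w × Fin l) (s : Finset (Fin w × Fin l))
    (hs : ∀ y ∈ s, (Grid w l).Adj x y) : s.card ≤ 4 := by
  have h4 : ({(1, 0), (-1, 0), (0, 1), (0, -1)} : Finset (ℤ × ℤ)).card = 4 := by decide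
  rw [← h4]
  refine Finset.card_le_card_of_injOn
    (fun y => (((y.1 : ℕ) : ℤ) - ((x.1 : ℕ) : ℤ), ((y.2 : ℕ) : ℤ) - ((x.2 : ℕ) : ℤ))) ?_ ?_
  · intro y hy
    have h := hs y hy
    rw [grid_adj] at h
    simp only [Finset.coe_insert, Finset.coe_singleton, Set.mem_insert_iff, Set.mem_singleton_iff,
      Prod.mk.injEq]
    rcases h with ⟨h1, h2⟩ | ⟨h1, h2⟩
    · rw [h2]
      omega
    · rw [h2]
      omega
  · intro y _ z _ h
    simp only [Prod.mk.injEq] at h
    apply Prod.ext <;> apply Fin.ext <;> omega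

/-- a line which is not constant contains an element of `Z` -/
theorem cut_line {V : Type*} (adj : V → V → Prop) (hsym : ∀ x y, adj x y → adj y x)
    {U Z : Finset V} (hc : Cov adj U Z) {n : ℕ} (f : Fin n → V)
    (hf : ∀ j k : Fin n, (j : ℕ) + 1 = k → adj (f j) (f k)) {j k : Fin n} (hj : f j ∈ U) (hk : f k ∉ U) :
    ∃ i, f i ∈ Z := by
  by_contra hno
  push Not at hno
  have hstep : ∀ j k : Fin n, (j : ℕ) + 1 = k → (f j ∈ U ↔ f k ∈ U) := by
    intro j k hjk
    have hadj := hf j k hjk
    constructor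
    · intro h
      by_contra h'
      rcases hc _ _ hadj h h' with h1 | h1
      · exact hno _ h1
      · exact hno _ h1
    · intro h
      by_contra h'
      rcases hc _ _ (hsym _ _ hadj) h h' with h1 | h1
      · exact hno _ h1
      · exact hno _ h1
  have hn : 0 < n := lt_of_le_of_lt (Nat.zero_le _) j.2
  have hall : ∀ m : ℕ, ∀ hm : m < n, (f ⟨m, hm⟩ ∈ U ↔ f ⟨0, hn⟩ ∈ U) := by
    intro m
    induction m with
    | zero => intro _; rfl
    | succ m ih =>
      intro hm
      rw [← ih (by omega)]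
      exact (hstep ⟨m, by omega⟩ ⟨m + 1, hm⟩ rfl).symm
  have h1 := (hall j j.2).1 hj
  exact hk ((hall k k.2).2 h1)

/-- rows: the elements of one block in the rows from a set -/
theorem grid_rows {w l a : ℕ} (S : Finset (Fin w × Fin l)) (M : Finset (Fin w))
    (hS : ∀ x ∈ S, x.1 ∈ M ∧ a ≤ (x.2 : ℕ) ∧ (x.2 : ℕ) < a + w) : S.card ≤ M.card * w := by
  have h1 : S.card ≤ (M ×ˢ (Finset.Ico a (a + w))).card := by
    refine Finset.card_le_card_of_injOn (fun x => (x.1, (x.2 : ℕ))) ?_ ?_
    · intro x hx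
      obtain ⟨h1, h2, h3⟩ := hS x hx
      rw [Finset.mem_coe, Finset.mem_product, Finset.mem_Ico]
      exact ⟨h1, h2, h3⟩
    · intro x _ y _ h
      simp only [Prod.mk.injEq] at h
      exact Prod.ext h.1 (Fin.ext h.2)
  rw [Finset.card_product, Nat.card_Ico] at h1
  rwa [show a + w - a = w by omega] at h1

theorem grid_rows' {w l a : ℕ} (hl : a + w ≤ l) (S : Finset (Fin w × Fin l)) (M : Finset (Fin w))
    (hS : ∀ x : Fin w × Fin l, x.1 ∈ M → a ≤ (x.2 : ℕ) → (x.2 : ℕ) < a + w → x ∈ S) :
    M.card * w ≤ S.card := by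
  have h1 : (M ×ˢ (Finset.univ : Finset (Fin w))).card ≤ S.card := by
    refine Finset.card_le_card_of_injOn
      (fun x => (x.1, (⟨a + x.2, by have := x.2.2; omega⟩ : Fin l))) ?_ ?_
    · intro x hx
      rw [Finset.mem_coe, Finset.mem_product] at hx
      exact hS _ hx.1 (by simp) (by simp)
    · intro x _ y _ h
      simp only [Prod.mk.injEq, Fin.mk.injEq] at h
      refine Prod.ext h.1 (Fin.ext ?_)
      omega
  rwa [Finset.card_product, Finset.card_univ, Fintype.card_fin] at h1

theorem card_reg {w l a : ℕ} (h : a + w ≤ l) : (reg w l a (a + w)).card = w * w := by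
  have h1 := grid_rows (a := a) (reg w l a (a + w)) Finset.univ
    (fun x hx => ⟨Finset.mem_univ _, mem_reg.1 hx⟩)
  have h2 := grid_rows' h (reg w l a (a + w)) Finset.univ
    (fun x _ hx1 hx2 => mem_reg.2 ⟨hx1, hx2⟩)
  rw [Finset.card_univ, Fintype.card_fin] at h1 h2
  exact le_antisymm h1 h2

theorem card_blk {w l u : ℕ} (h : w * (u + 1) ≤ l) : (blk w l u).card = w * w := by
  unfold blk
  have h1 : w * (u + 1) = w * u + w := by ring
  rw [h1]
  exact card_reg (by rw [← h1]; exact h)

theorem disj_blk {w l u v : ℕ} (h : u ≠ v) : Disjoint (blk w l u) (blk w l v) := by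
  rw [Finset.disjoint_left]
  intro x hx hx'
  unfold blk at hx hx'
  rw [mem_reg] at hx hx'
  rcases Nat.lt_or_gt_of_ne h with h | h
  · have : w * (u + 1) ≤ w * v := Nat.mul_le_mul_left _ h
    omega
  · have : w * (v + 1) ≤ w * u := Nat.mul_le_mul_left _ h
    omega

/-- **the cut lemma**: more than a quarter of one block, at most half of another one -/
theorem grid_cut {w l : ℕ} {U Z : Finset (Fin w × Fin l)} (hc : Cov (Grid w l).Adj U Z)
    {a b a1 a2 : ℕ} (h1 : a ≤ a1) (h1' : a1 + w ≤ b) (h2 : a ≤ a2) (h2' : a2 + w ≤ b) (hb : b ≤ l)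
    (hU1 : w * w < 4 * (reg w l a1 (a1 + w) ∩ U).card)
    (hU2 : 2 * (reg w l a2 (a2 + w) ∩ U).card ≤ w * w) :
    w / 4 ≤ (Z ∩ reg w l a b).card := by
  by_contra hlt
  rw [not_le] at hlt
  set M : Finset (Fin w) := (Z ∩ reg w l a b).image Prod.fst with hM
  have hMc : M.card ≤ (Z ∩ reg w l a b).card := Finset.card_image_le
  have hM4 : 4 * M.card < w := by omega
  have hsym : ∀ x y, (Grid w l).Adj x y → (Grid w l).Adj y x := fun x y h => h.symm
  -- a row outside `M` is constant
  have hrow : ∀ i : Fin w, i ∉ M → ∀ j k : Fin l, a ≤ (j : ℕ) → (j : ℕ) < b → a ≤ (k : ℕ) →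
      (k : ℕ) < b → (i, j) ∈ U → (i, k) ∈ U := by
    intro i hi j k hj1 hj2 hk1 hk2 hj
    by_contra hk
    have hlen : ∀ t : Fin (b - a), a + (t : ℕ) < l := by
      intro t
      have := t.2
      omega
    obtain ⟨t, ht⟩ := cut_line (Grid w l).Adj hsym hc (n := b - a)
      (fun t => (i, (⟨a + t, hlen t⟩ : Fin l))) (by
        intro s t hst
        rw [grid_adj]
        right
        refine ⟨Or.inl ?_, rfl⟩
        simp only
        omega) (j := ⟨j - a, by omega⟩) (k := ⟨k - a, by omega⟩)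
      (by
        have : (⟨a + (j - a), by omega⟩ : Fin l) = j := by
          apply Fin.ext
          simp only
          omega
        simp only [this]
        exact hj)
      (by
        have : (⟨a + (k - a), by omega⟩ : Fin l) = k := by
          apply Fin.ext
          simp only
          omega
        simp only [this]
        exact hk)
    apply hi
    rw [hM, Finset.mem_image]
    refine ⟨(i, (⟨a + t, hlen t⟩ : Fin l)), ?_, rfl⟩
    rw [Finset.mem_inter, mem_reg]
    refine ⟨ht, ?_, ?_⟩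
    · simp
    · have := t.2
      simp only
      omega
  have hwpos : 0 < w := by omega
  have hwl : a1 + w ≤ l := by omega
  have hww : 4 * (M.card * w) < w * w := by
    have := Nat.mul_lt_mul_of_pos_right hM4 hwpos
    linarith [this, mul_assoc 4 M.card w]
  -- a full row
  have hfull : ∃ i : Fin w, ∀ k : Fin l, a ≤ (k : ℕ) → (k : ℕ) < b → (i, k) ∈ U := by
    by_contra hno
    push Not at hno
    have h3 : (reg w l a1 (a1 + w) ∩ U).card ≤ M.card * w := by
      apply grid_rows (a := a1)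
      intro x hx
      rw [Finset.mem_inter, mem_reg] at hx
      refine ⟨?_, hx.1.1, hx.1.2⟩
      by_contra hxM
      obtain ⟨k, hk1, hk2, hk3⟩ := hno x.1
      exact hk3 (hrow x.1 hxM x.2 k (by omega) (by omega) hk1 hk2 hx.2)
    omega
  -- an empty row
  have hempty : ∃ i : Fin w, ∀ k : Fin l, a ≤ (k : ℕ) → (k : ℕ) < b → (i, k) ∉ U := by
    by_contra hno
    push Not at hno
    have h3 : (Mᶜ).card * w ≤ (reg w l a2 (a2 + w) ∩ U).card := by
      apply grid_rows' (a := a2) (by omega)
      intro x hx hx1 hx2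
      rw [Finset.mem_compl] at hx
      obtain ⟨k, hk1, hk2, hk3⟩ := hno x.1
      rw [Finset.mem_inter, mem_reg]
      exact ⟨⟨hx1, hx2⟩, hrow x.1 hx k x.2 hk1 hk2 (by omega) (by omega) hk3⟩
    have h4 : (Mᶜ).card = w - M.card := by
      rw [Finset.card_compl, Fintype.card_fin]
    rw [h4, Nat.sub_mul] at h3
    omega
  obtain ⟨i, hi⟩ := hfull
  obtain ⟨j, hj⟩ := hempty
  -- every column contains an element of `Z`
  have hcol : ∀ k : Fin l, a ≤ (k : ℕ) → (k : ℕ) < b → ∃ t : Fin w, (t, k) ∈ Z := by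
    intro k hk1 hk2
    exact cut_line (Grid w l).Adj hsym hc (fun t => (t, k)) (by
      intro s t hst
      rw [grid_adj]
      left
      exact ⟨Or.inl hst, rfl⟩) (hi k hk1 hk2) (hj k hk1 hk2)
  have h5 : (Finset.Ico a1 (a1 + w)).card ≤ (Z ∩ reg w l a b).card := by
    have h6 : Finset.Ico a1 (a1 + w) ⊆ (Z ∩ reg w l a b).image (fun x => (x.2 : ℕ)) := by
      intro k hk
      rw [Finset.mem_Ico] at hk
      obtain ⟨t, ht⟩ := hcol ⟨k, by omega⟩ (by simp only; omega) (by simp only; omega)
      rw [Finset.mem_image]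
      refine ⟨(t, (⟨k, by omega⟩ : Fin l)), ?_, rfl⟩
      rw [Finset.mem_inter, mem_reg]
      exact ⟨ht, by simp only; omega, by simp only; omega⟩
    exact (Finset.card_le_card h6).trans Finset.card_image_le
  rw [Nat.card_Ico] at h5
  omega

/-- **GRID, one block** -/
theorem grid_one {w l u : ℕ} (hu : w * (u + 1) ≤ l) {U Z : Finset (Fin w × Fin l)}
    (hc : Cov (Grid w l).Adj U Z) (h1 : w * w < 4 * (blk w l u ∩ U).card)
    (h2 : 2 * (blk w l u ∩ U).card ≤ w * w) : w / 4 ≤ (Z ∩ blk w l u).card := by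
  unfold blk at h1 h2 ⊢
  have e1 : w * (u + 1) = w * u + w := by ring
  rw [e1] at h1 h2 hu ⊢
  exact grid_cut hc le_rfl le_rfl le_rfl le_rfl hu h1 h2

/-- **GRID, two blocks** -/
theorem grid_two {w l u : ℕ} (hu : w * (u + 2) ≤ l) {U Z : Finset (Fin w × Fin l)}
    (hc : Cov (Grid w l).Adj U Z)
    (h : (w * w < 4 * (blk w l u ∩ U).card ∧ 2 * (blk w l (u + 1) ∩ U).card ≤ w * w) ∨
      (w * w < 4 * (blk w l (u + 1) ∩ U).card ∧ 2 * (blk w l u ∩ U).card ≤ w * w)) :
    w / 4 ≤ (Z ∩ (blk w l u ∪ blk w l (u + 1))).card := by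
  have e1 : w * (u + 1) = w * u + w := by ring
  have e2 : w * (u + 1 + 1) = w * u + w + w := by ring
  have e3 : w * (u + 2) = w * u + w + w := by ring
  have e4 : blk w l u ∪ blk w l (u + 1) = reg w l (w * u) (w * u + w + w) := by
    unfold blk
    rw [e1, e2]
    ext x
    rw [Finset.mem_union, mem_reg, mem_reg, mem_reg]
    omega
  rw [e4]
  unfold blk at h
  rw [e1, e2] at h
  rw [e3] at hu
  rcases h with ⟨h1, h2⟩ | ⟨h1, h2⟩
  · exact grid_cut hc le_rfl (by omega) (by omega) le_rfl hu h1 h2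
  · exact grid_cut hc (by omega) le_rfl le_rfl (by omega) hu h1 h2

/-- **GRID, free variables**: all neighbours of `X` are in `Z` -/
theorem grid_free {w l u : ℕ} {X Z : Finset (Fin w × Fin l)}
    (hX : ∀ x ∈ X, ∀ y, (Grid w l).Adj x y → y ∈ Z) (hu : w * (u + 1) ≤ l)
    (h1 : w * w < 4 * (blk w l u ∩ X).card) : w / 4 ≤ (Z ∩ blk w l u).card := by
  set a := w * u with ha
  have e1 : w * (u + 1) = a + w := by rw [ha]; ring
  set n := (blk w l u ∩ X).card with hn
  by_cases hw4 : w < 4
  · have : w / 4 = 0 := by omega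
    omega
  set Y := (blk w l u ∩ X).filter (fun x => (x.2 : ℕ) + 1 < a + w) with hY
  -- the elements in the last column
  have h2 : ((blk w l u ∩ X).filter (fun x => ¬ (x.2 : ℕ) + 1 < a + w)).card ≤ w := by
    have : ((blk w l u ∩ X).filter (fun x => ¬ (x.2 : ℕ) + 1 < a + w)).card ≤
        (Finset.univ : Finset (Fin w)).card := by
      refine Finset.card_le_card_of_injOn Prod.fst (fun x _ => Finset.mem_coe.2 (Finset.mem_univ _)) ?_
      intro x hx y hy hxy
      rw [Finset.mem_coe, Finset.mem_filter, Finset.mem_inter] at hx hy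
      unfold blk at hx hy
      rw [mem_reg, e1] at hx hy
      refine Prod.ext hxy (Fin.ext ?_)
      omega
    rwa [Finset.card_univ, Fintype.card_fin] at this
  have h3 : Y.card ≤ (Z ∩ blk w l u).card := by
    refine Finset.card_le_card_of_injOn
      (fun x => if h : (x.2 : ℕ) + 1 < l then (x.1, (⟨x.2 + 1, h⟩ : Fin l)) else x) ?_ ?_
    · intro x hx
      rw [Finset.mem_coe, hY, Finset.mem_filter, Finset.mem_inter] at hx
      unfold blk at hx
      rw [mem_reg] at hx
      have hxl : (x.2 : ℕ) + 1 < l := by omega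
      rw [Finset.mem_coe]
      simp only [hxl, dif_pos]
      rw [Finset.mem_inter]
      constructor
      · refine hX x hx.1.2 _ ?_
        rw [grid_adj]
        right
        exact ⟨Or.inl rfl, rfl⟩
      · unfold blk
        rw [mem_reg]
        simp only
        omega
    · intro x hx y hy hxy
      rw [Finset.mem_coe, hY, Finset.mem_filter, Finset.mem_inter] at hx hy
      have hxl : (x.2 : ℕ) + 1 < l := by omega
      have hyl : (y.2 : ℕ) + 1 < l := by omega
      simp only [hxl, hyl, dif_pos, Prod.mk.injEq, Fin.mk.injEq] at hxy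
      refine Prod.ext hxy.1 (Fin.ext ?_)
      omega
  have h4 : Y.card + ((blk w l u ∩ X).filter (fun x => ¬ (x.2 : ℕ) + 1 < a + w)).card = n := by
    rw [hY, hn, Finset.card_filter_add_card_filter_not]
  by_cases hw8 : w < 8
  · have hw' : w = 4 ∨ w = 5 ∨ w = 6 ∨ w = 7 := by omega
    rcases hw' with h | h | h | h
    · have e2 : w * w = 4 * 4 := by rw [h]
      omega
    · have e2 : w * w = 5 * 5 := by rw [h]
      omega
    · have e2 : w * w = 6 * 6 := by rw [h]
      omega
    · have e2 : w * w = 7 * 7 := by rw [h]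
      omega
  · have h5 : 8 * w ≤ w * w := Nat.mul_le_mul_right _ (by omega)
    omega

end Pool.Agent.TSP
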