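import Pool.Agent.TSP.St

/-!
# TSP: statements of the modules of the second form of the theorem (MP_4ed1f9_lc; captain helper93,
# architects helper62 and helper4, theorem of helper69)

The second form: all `L ≥ 2`, leaves of `k w ^ 2` variables, any fraction of the models, and the upper bound with
little memory without logarithmic loss.  Every module `NAME` proves `theorem thm_NAME : St_NAME`, or
`theorem thm_NAME (h : St_OTHER) ... : St_NAME`, in the file `Pool/Agent/TSP/NAME.lean`.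
Proofs are in the docstrings.
-/

set_option autoImplicit false

namespace TSP

open Finset
open scoped BigOperators

/-- the models of the grid are counted exactly in at most `T` steps with memory for `S` items and leaves with
at most `K` variables: the last item is the function which is one on the models and zero elsewhere -/
def Cnt (K w l S T : ℕ) : Prop :=
  ∃ T' ≤ T, ∃ M : ℕ → Finset (Item (Fin w × Fin l)), Prog K S T' M ∧ ∃ I ∈ M T', ∀ a,
    (a ∈ Mod (gr w l) → I.f a = 1) ∧ (a ∉ Mod (gr w l) → I.f a = 0)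

/-! ## 1. Separators -/

section sep

variable {V : Type}

/-- with the values `a` on `X` and `c` elsewhere all clauses with an end in `X` are satisfied -/
def OkX (G : SimpleGraph V) (X : Finset V) (c a : V → Bool) : Prop :=
  ∀ u v, G.Adj u v → u ∈ X → mix X a c u = true ∨ mix X a c v = true

theorem OkX_congr {G : SimpleGraph V} {X : Finset V} {c a b : V → Bool}
    (hab : ∀ v ∈ X, a v = b v) (h : OkX G X c a) : OkX G X c b := by
  have e : mix X a c = mix X b c := by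
    funext v
    unfold mix
    split_ifs with hv
    · exact hab v hv
    · rfl
  intro u v huv hu
  rw [← e]
  exact h u v huv hu

open Classical in
/-- the item of the set `X` with boundary values `c` -/
noncomputable def Ux (G : SimpleGraph V) (X : Finset V) (c : V → Bool) : Item V where
  vars := X
  f := fun a => if OkX G X c a then 1 else 0
  nonneg := fun a => by split_ifs <;> norm_num
  dep := fun a b hab => by
    have : OkX G X c a ↔ OkX G X c b :=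
      ⟨OkX_congr hab, OkX_congr fun v hv => (hab v hv).symm⟩
    simp only [this]

/-- the items of `X` can be computed with at most `s` items in memory in `τ` steps, with leaves of at most `K`
variables -/
def Cst (G : SimpleGraph V) (K : ℕ) (X : Finset V) (s τ : ℕ) : Prop :=
  ∀ c : V → Bool, Run K s τ ∅ {Ux G X c}

/-- [Sep] separators; from `Rn`, `RnP`, `RnS` (see also UpA.lean, which is the same with other items).

Proof.  (1) a leaf, one step.  (2) `Rn` (3).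
(3) Let `Ω` be the set of the assignments `c''` which agree with `c` outside of `W` and satisfy all clauses `u v` with
`u ∈ W`, `v ∉ P`, `v ∉ Q` (so `v` is in `W` or outside of `X`); `#Ω ≤ 2^(#W)`.  For every `a`
`(Ux X c).f a = ∑_(c'' ∈ Ω) (pt W c'').f a * (Ux P c'').f a * (Ux Q c'').f a`: if `(pt W c'').f a ≠ 0` and `c'' = c` outside
of `W` then `c'' = mix W a c`, and for this `c''` the clauses with an end in `X` are: those with an end in `P`, the
other end in `P`, `W` or outside of `X` (`mix X a c = mix P a c''` on these vertices; there are no edges from `P` to `Q`);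
the same for `Q`; and those with an end in `W` and the other one in `W` or outside of `X` (`c'' ∈ Ω`).
The product item (variables `X`) is computed from `∅` in `2 τ + 2 #W + 1 + 2` steps with memory `s + 2` (`Rn` (1), (2),
(3), `RnP`; `Run 1` implies `Run K` as `Der` is monotone in the first argument); then `RnS`.
(4) `OkX G univ c a` iff `a ∈ Mod G`; `Rn` (5). -/
def St_Sep : Prop :=
  ∀ (V : Type) [Fintype V] (G : SimpleGraph V) (K : ℕ), 1 ≤ K →
    (∀ X : Finset V, X.card ≤ K → Cst G K X 4 1) ∧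
    (∀ (X : Finset V) (s s' τ τ' : ℕ), Cst G K X s τ → s ≤ s' → τ ≤ τ' → Cst G K X s' τ') ∧
    (∀ (X W P Q : Finset V) (s τ : ℕ), Disjoint W P → Disjoint W Q → Disjoint P Q →
      (∀ v, v ∈ X ↔ v ∈ W ∨ v ∈ P ∨ v ∈ Q) → (∀ u ∈ P, ∀ v ∈ Q, ¬ G.Adj u v) → 4 ≤ s →
      Cst G K P s τ → Cst G K Q s τ →
      Cst G K X (s + 3) (2 ^ W.card * (2 * τ + 2 * W.card + 4) + 1)) ∧
    ∀ (X : Finset V) (s τ : ℕ), (∀ v, v ∈ X) → Cst G K X s τ →
      ∃ M : ℕ → Finset (Item V), Prog K s τ M ∧ ∃ I ∈ M τ, ∀ a,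
        (a ∈ Mod G → I.f a = 1) ∧ (a ∉ Mod G → I.f a = 0)

end sep

open Classical in
/-- the rectangle: the rows `i, …, i' - 1` and the columns `j, …, j' - 1` -/
noncomputable def rct (w l i i' j j' : ℕ) : Finset (Fin w × Fin l) :=
  univ.filter fun v => (i ≤ (v.1 : ℕ) ∧ (v.1 : ℕ) < i') ∧ (j ≤ (v.2 : ℕ) ∧ (v.2 : ℕ) < j')

/-- [Rct] rectangles (`Pool.Agent.TSP.grid_adj` in Grid.lean describes the adjacency). -/
def St_Rct : Prop :=
  ∀ w l : ℕ, (∀ i i' j j' : ℕ, (rct w l i i' j j').card ≤ (i' - i) * (j' - j)) ∧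
    (∀ v, v ∈ rct w l 0 w 0 l) ∧
    (∀ i i' j r j' : ℕ, j ≤ r → r < j' →
      Disjoint (rct w l i i' r (r + 1)) (rct w l i i' j r) ∧
      Disjoint (rct w l i i' r (r + 1)) (rct w l i i' (r + 1) j') ∧
      Disjoint (rct w l i i' j r) (rct w l i i' (r + 1) j') ∧
      (∀ v, v ∈ rct w l i i' j j' ↔
        v ∈ rct w l i i' r (r + 1) ∨ v ∈ rct w l i i' j r ∨ v ∈ rct w l i i' (r + 1) j') ∧
      ∀ u ∈ rct w l i i' j r, ∀ v ∈ rct w l i i' (r + 1) j', ¬ (gr w l).Adj u v) ∧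
    ∀ i r i' j j' : ℕ, i ≤ r → r < i' →
      Disjoint (rct w l r (r + 1) j j') (rct w l i r j j') ∧
      Disjoint (rct w l r (r + 1) j j') (rct w l (r + 1) i' j j') ∧
      Disjoint (rct w l i r j j') (rct w l (r + 1) i' j j') ∧
      (∀ v, v ∈ rct w l i i' j j' ↔
        v ∈ rct w l r (r + 1) j j' ∨ v ∈ rct w l i r j j' ∨ v ∈ rct w l (r + 1) i' j j') ∧
      ∀ u ∈ rct w l i r j j', ∀ v ∈ rct w l (r + 1) i' j j', ¬ (gr w l).Adj u v

/-- [UpC] little memory, leaves with one variable; from `Sep`, `Rct`.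

Proof.  `2^n (2 τ + 2 n + 4) + 1 ≤ 2^(2 n + 3) τ` if `τ ≥ 1` (`2 n + 7 ≤ 2^(n+3)`), and the left side increases with `n`
and `τ`.  Claim A, by induction on `t`: a rectangle with less than `2^t` rows and less than `2^t` columns has
`Cst (6 t + 4) (2^(12 * 2^t))`.  `t = 0`: it is empty.  `t + 1`: less than `2^(t+1)` rows and less than `2^t` columns: if
there are less than `2^t` rows use the claim; otherwise split by the row `r = i + 2^t - 1` (`#W ≤ 2^t`): two parts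
with less than `2^t` rows, memory `6 t + 7`, time `2^(2 * 2^t + 3 + 12 * 2^t)`.  Less than `2^(t+1)` rows and columns:
if there are less than `2^t` columns use this; otherwise split by the column `r = j + 2^t - 1` (`#W ≤ 2^(t+1)`): memory
`6 t + 10`, time `2^(4 * 2^t + 3 + 2 * 2^t + 3 + 12 * 2^t) ≤ 2^(24 * 2^t)`.
Claim B, by induction on `s`: if `w < 2^t`, a rectangle with the rows `0, …, w - 1` and less than `2^(t+s)` columns has
`Cst (6 t + 4 + 3 s) (2^(12 * 2^t + (2 w + 3) s))` (split by the column `j + 2^(t+s) - 1`, `#W ≤ w`).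
At the end `t = log2 w + 1` (`w < 2^t ≤ 2 w`), `s = h + 1`, `h = log2 L ≥ 1`, `w L < 2^(t+s)`; memory
`6 log2 w + 3 h + 13 ≤ 22 log2 (w L)`, time at most `2^(24 w + 5 w * 2 h) ≤ 2^(34 w h) ≤ L^(34 w)`. -/
def St_UpC : Prop :=
  ∃ C : ℕ, ∀ w L : ℕ, 1 ≤ w → 2 ≤ L →
    Cnt 1 w (w * L) (C * Nat.log 2 (w * L)) (L ^ (C * w))

/-- [UpD] little memory, leaves with `k w ^ 2` variables; from `Sep`, `Rct`.

Proof.  `2^n (2 τ + 2 n + 4) + 1 ≤ 2^(2 n + 3) τ` if `τ ≥ 1`.  Claim, by induction on `s`: a rectangle with the rows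
`0, …, w - 1` and `x` columns, `x + 1 ≤ 2^s (k w + 1)`, has `Cst (3 s + 4) (2^((2 w + 3) s))` with leaves of `k w ^ 2` variables.
`s = 0`: a leaf.  `s + 1`: if `x = 0` a leaf; otherwise split by the column in the middle, the parts have at most
`x / 2` columns and `x / 2 + 1 ≤ 2^s (k w + 1)` (for the larger part: `⌈(x - 1)/2⌉ + 1 = ⌈(x + 1)/2⌉`).
At the end `s = h + 1`, `h = log2 (L / k) ≥ 1` (natural division), `k 2^h ≤ L < k 2^(h+1)`, `w L + 1 ≤ 2^s (k w + 1)`,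
memory `3 h + 7 ≤ 10 h`, time `2^((2 w + 3) (h + 1)) ≤ 2^(10 w h) ≤ (L / k)^(10 w)`. -/
def St_UpD : Prop :=
  ∃ C : ℕ, ∀ w k L : ℕ, 1 ≤ w → 1 ≤ k → 2 * k ≤ L →
    Cnt (k * w ^ 2) w (w * L) (C * Nat.log 2 (L / k)) ((L / k) ^ (C * w))

/-! ## 2. Lower bound -/

/-- [Lrg2] the main inequality; from `Frt`, `End`, `Prb` (as GLrg.lean, with whole forced sets of the items and the
choices of the levels counted together). -/
def St_Lrg2 : Prop :=
  ∀ (w L lam S T : ℕ) (M : ℕ → Finset (It (Fin w × Fin (w * L)))) (out : It (Fin w × Fin (w * L))),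
    ProgB lam S T M → out ∈ M T → (∀ v, v ∈ out.vars) → out.set ⊆ Mod (gr w (w * L)) → 1 ≤ w →
    ∀ J R l : ℕ, T ≤ 2 ^ J → 1 ≤ R → 1 ≤ l → l * 2 ^ (R - 1) ≤ L → 2 * lam ≤ l * (w * w) →
    (out.set.ncard : ℝ) ≤ (2 ^ J * (2 ^ (J + R) * (S : ℝ) ^ R * (31 / 32 : ℝ) ^ (w / 4 * R / 2)) +
      2 ^ J * (((2 * S ^ 2 : ℕ) : ℝ) * (31 / 32 : ℝ) ^ (w / 4 * l))) *
      ((Mod (gr w (w * L))).ncard : ℝ)

/-- [Num2] the numbers.

Proof.  Suppose `(T m)^C k^w < o^C L^w`.  `θ = w / C ≥ 1`, `h = log2 (L / k) ≥ 1` (natural division), `k 2^h ≤ L < k 2^(h+1)`,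
so `T m < 2^((h+1) θ) o ≤ 2^(2 h θ) o`, `T < 2^(2 h θ)` (`o ≤ m`) and `m < 2^(2 h θ) o` (`1 ≤ T`).  `J = ⌈2 h θ⌉ + 1 ≤ 4 h θ`,
`T + 1 ≤ 2^J`, `2^(-J) ≤ 2^(-2 h θ) / 2`.  `R = h / 2 + 1` (`h ≤ 2 R`, `J ≤ 8 θ R`), `l = k 2^(h - h/2) ≥ 2 k, R`.
`(31/32)^n ≤ 2^(-n/32)`, and both exponents `n` are at least `32 w R / 400`.  First summand: at most `2^(-J)` because
`3 J + R + θ R ≤ (25 θ + 1) R ≤ w R / 400`; second summand: `2 J + 1 + 2 θ ≤ (18 θ + 1) R ≤ w R / 400`.  So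
`o ≤ 2 * 2^(-J) m ≤ 2^(-2 h θ) m < o`. -/
def St_Num2 : Prop :=
  ∃ C₀ : ℕ, 2 ≤ C₀ ∧ ∀ C ≥ C₀, ∀ (w k L S T m o : ℕ), C ≤ w → 1 ≤ k → 2 * k ≤ L → 1 ≤ T →
    o ≤ m → S ^ C ≤ 2 ^ w →
    (∀ J R l : ℕ, T + 1 ≤ 2 ^ J → 1 ≤ R → 1 ≤ l → l * 2 ^ (R - 1) ≤ L → 2 * k ≤ l →
      (o : ℝ) ≤ (2 ^ J * (2 ^ (J + R) * (S : ℝ) ^ R * (31 / 32 : ℝ) ^ (w / 4 * R / 2)) +
        2 ^ J * (((2 * S ^ 2 : ℕ) : ℝ) * (31 / 32 : ℝ) ^ (w / 4 * l))) * (m : ℝ)) →
    o ^ C * L ^ w ≤ (T * m) ^ C * k ^ w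

/-! ## 3. The theorem, second form -/

/-- [Main2] from `Red`, `Lrg2`, `Num2`, `UpB`, `UpC`, `UpD`. -/
def St_Main2 : Prop :=
  ∃ C : ℕ, 1 ≤ C ∧ ∀ w k L : ℕ, C ≤ w → 1 ≤ k → 2 * k ≤ L →
    (∀ (S T : ℕ) (M : ℕ → Finset (Item (Fin w × Fin (w * L))))
      (I : Item (Fin w × Fin (w * L))), S ^ C ≤ 2 ^ w → Prog (k * w ^ 2) S T M → I ∈ M T →
      (∀ a, I.f a ≠ 0 → a ∈ Mod (gr w (w * L))) →
      {a | I.f a ≠ 0}.ncard ^ C * L ^ w ≤ (T * (Mod (gr w (w * L))).ncard) ^ C * k ^ w) ∧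
    Cnt (k * w ^ 2) w (w * L) (C * Nat.log 2 (L / k)) ((L / k) ^ (C * w)) ∧
    Cnt 1 w (w * L) (C * Nat.log 2 (w * L)) (L ^ (C * w)) ∧
    Cnt 1 w (w * L) (2 ^ (C * w)) (2 ^ (C * w) * L)

end TSP
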