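import Pool.Agent.TSP.St2

/-!
# TSP, module NUM2: the numbers, second form

`h = log2 (L / k)`, `J = ⌈2 h θ⌉ + 1`, `R = h / 2 + 1`, `l = k * 2 ^ (h - h / 2)`, `θ = w / C`.
-/

set_option autoImplicit false

namespace TSP

private theorem N2_root {a x y : ℝ} {C : ℕ} (hC : C ≠ 0) (ha : 0 ≤ a) (h : a ^ C ≤ (2 : ℝ) ^ y)
    (hxy : x * C = y) : a ≤ (2 : ℝ) ^ x := by
  have h1 : ((2 : ℝ) ^ x) ^ C = (2 : ℝ) ^ y := by
    rw [← Real.rpow_natCast, ← Real.rpow_mul (by norm_num), hxy]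
  rw [← h1] at h
  exact (pow_le_pow_iff_left₀ ha (by positivity) hC).1 h

private theorem N2_base (n : ℕ) : (31 / 32 : ℝ) ^ n ≤ (2 : ℝ) ^ (-((n : ℝ) / 32)) := by
  have h1 : (31 / 32 : ℝ) ≤ (2 : ℝ) ^ (-(1 / 32) : ℝ) := by
    refine N2_root (C := 32) (y := -1) (by norm_num) (by norm_num) ?_ (by norm_num)
    rw [Real.rpow_neg_one]
    norm_num
  calc (31 / 32 : ℝ) ^ n ≤ ((2 : ℝ) ^ (-(1 / 32) : ℝ)) ^ n := pow_le_pow_left₀ (by norm_num) h1 n
    _ = (2 : ℝ) ^ (-((n : ℝ) / 32)) := by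
      rw [← Real.rpow_natCast, ← Real.rpow_mul (by norm_num)]
      congr 1
      ring

/-- **Module NUM2** -/
theorem thm_Num2 : St_Num2 := by
  refine ⟨2 ^ 19, by norm_num, ?_⟩
  intro C hC w k L S T m o hw hk hL hT hom hS H
  by_contra hlt
  rw [not_le] at hlt
  set h := Nat.log 2 (L / k) with hh
  set R := h / 2 + 1 with hR
  set l := k * 2 ^ (h - h / 2) with hl
  have hC0 : C ≠ 0 := by
    have : 0 < 2 ^ 19 := by norm_num
    omega
  have hw19 : 2 ^ 19 ≤ w := hC.trans hw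
  have hLk : 2 ≤ L / k := (Nat.le_div_iff_mul_le (by omega)).2 hL
  have hLlo : k * 2 ^ h ≤ L := by
    have h1 : 2 ^ h ≤ L / k := Nat.pow_log_le_self 2 (by omega)
    calc k * 2 ^ h ≤ k * (L / k) := Nat.mul_le_mul_left _ h1
      _ ≤ L := Nat.mul_div_le L k
  have hLhi : L < k * 2 ^ (h + 1) := by
    have h1 : L / k < 2 ^ (h + 1) := Nat.lt_pow_succ_log_self (by norm_num) _
    rw [mul_comm]
    exact (Nat.div_lt_iff_lt_mul (by omega)).1 h1
  have hh1 : 1 ≤ h := Nat.log_pos (by norm_num) hLk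
  -- `(T m) ^ C < o ^ C 2 ^ (2 h w)`
  have hTm : (T * m) ^ C < o ^ C * 2 ^ (2 * h * w) := by
    have h1 : (T * m) ^ C * k ^ w < (o ^ C * 2 ^ (2 * h * w)) * k ^ w := by
      calc (T * m) ^ C * k ^ w < o ^ C * L ^ w := hlt
        _ ≤ o ^ C * (k * 2 ^ (h + 1)) ^ w :=
            Nat.mul_le_mul_left _ (Nat.pow_le_pow_left hLhi.le _)
        _ = o ^ C * 2 ^ ((h + 1) * w) * k ^ w := by rw [mul_pow, pow_mul]; ring
        _ ≤ o ^ C * 2 ^ (2 * h * w) * k ^ w := by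
            refine Nat.mul_le_mul_right _ (Nat.mul_le_mul_left _ (Nat.pow_le_pow_right (by norm_num) ?_))
            exact Nat.mul_le_mul_right _ (by omega)
    exact lt_of_mul_lt_mul_right h1 (Nat.zero_le _)
  have ho : 1 ≤ o := by
    rcases Nat.eq_zero_or_pos o with h1 | h1
    · rw [h1, zero_pow hC0, zero_mul] at hTm
      exact absurd hTm (Nat.not_lt_zero _)
    · exact h1
  have hm : 1 ≤ m := ho.trans hom
  -- the choice
  have hlR : l * 2 ^ (R - 1) ≤ L := by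
    rw [hl, hR, Nat.add_sub_cancel, mul_assoc, ← pow_add, Nat.sub_add_cancel (Nat.div_le_self _ _)]
    exact hLlo
  have hl2 : 2 * k ≤ l := by
    rw [hl, mul_comm 2 k]
    refine Nat.mul_le_mul_left _ ?_
    calc 2 = 2 ^ 1 := (pow_one 2).symm
      _ ≤ 2 ^ (h - h / 2) := Nat.pow_le_pow_right (by norm_num) (by omega)
  have hl1 : 1 ≤ l := by omega
  -- real numbers
  set θ : ℝ := (w : ℝ) / C with hθ
  have hCR : (0 : ℝ) < C := by exact_mod_cast Nat.pos_of_ne_zero hC0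
  have hC19 : (524288 : ℝ) ≤ C := by
    rw [show (524288 : ℝ) = 2 ^ 19 by norm_num]
    exact_mod_cast hC
  have hwR' : (524288 : ℝ) ≤ w := by
    rw [show (524288 : ℝ) = 2 ^ 19 by norm_num]
    exact_mod_cast hw19
  have hwR : (0 : ℝ) < w := by linarith
  have hθC : θ * C = w := by rw [hθ]; field_simp
  have hθ0 : 0 ≤ θ := by positivity
  have hθ1 : 1 ≤ θ := by
    rw [hθ, le_div_iff₀ hCR, one_mul]
    exact_mod_cast hw
  have hθw' : θ * 524288 ≤ w := by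
    rw [← hθC]
    exact mul_le_mul_of_nonneg_left hC19 hθ0
  have hSθ : (S : ℝ) ≤ (2 : ℝ) ^ θ := by
    refine N2_root (C := C) (y := w) hC0 (Nat.cast_nonneg _) ?_ hθC
    rw [Real.rpow_natCast]
    exact_mod_cast hS
  have hhR1 : (1 : ℝ) ≤ h := by exact_mod_cast hh1
  have hR1 : (1 : ℝ) ≤ R := by
    have : 1 ≤ R := by omega
    exact_mod_cast this
  have hhR : (h : ℝ) ≤ 2 * R := by
    have : h ≤ 2 * R := by omega
    exact_mod_cast this
  have hoR : (0 : ℝ) < o := by exact_mod_cast ho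
  have hmR : (0 : ℝ) < m := by exact_mod_cast hm
  have homR : (o : ℝ) ≤ m := by exact_mod_cast hom
  have hTR : (1 : ℝ) ≤ T := by exact_mod_cast hT
  set x : ℝ := 2 * h * θ with hx
  have hx2 : 2 * θ ≤ x := by
    rw [hx]
    nlinarith
  -- `T m < o 2 ^ x`
  have hTm' : (T : ℝ) * m < o * (2 : ℝ) ^ x := by
    have h1 : ((T : ℝ) * m) ^ C < (o * (2 : ℝ) ^ x) ^ C := by
      have h2 : (((T * m) ^ C : ℕ) : ℝ) < ((o ^ C * 2 ^ (2 * h * w) : ℕ) : ℝ) := by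
        exact_mod_cast hTm
      push_cast at h2
      refine h2.trans_eq ?_
      rw [mul_pow, ← Real.rpow_natCast (((2 : ℝ) ^ x)), ← Real.rpow_mul (by norm_num),
        ← Real.rpow_natCast (2 : ℝ)]
      congr 2
      push_cast
      rw [hx, mul_assoc (2 * (h : ℝ)), hθC]
    exact lt_of_pow_lt_pow_left₀ C (by positivity) h1
  have hmo : (m : ℝ) < o * (2 : ℝ) ^ x := by
    refine lt_of_le_of_lt ?_ hTm'
    exact le_mul_of_one_le_left hmR.le hTR
  have hTx : (T : ℝ) < (2 : ℝ) ^ x := by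
    have h1 : (T : ℝ) * o ≤ T * m := mul_le_mul_of_nonneg_left homR (by linarith)
    have h2 : (T : ℝ) * o < (2 : ℝ) ^ x * o := by
      rw [mul_comm ((2 : ℝ) ^ x)]
      exact h1.trans_lt hTm'
    exact lt_of_mul_lt_mul_right h2 hoR.le
  -- `J`
  set J := ⌈x⌉₊ + 1 with hJ
  have hJlo : x + 1 ≤ (J : ℝ) := by
    rw [hJ]
    push_cast
    linarith [Nat.le_ceil x]
  have hJhi : (J : ℝ) ≤ x + 2 := by
    rw [hJ]
    push_cast
    have := Nat.ceil_lt_add_one (show 0 ≤ x by linarith)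
    linarith
  have hThi : T + 1 ≤ 2 ^ J := by
    have h1 : (1 : ℝ) ≤ (2 : ℝ) ^ x := Real.one_le_rpow (by norm_num) (by linarith)
    have h2 : (2 : ℝ) ^ (x + 1) ≤ (2 : ℝ) ^ (J : ℝ) :=
      Real.rpow_le_rpow_of_exponent_le (by norm_num) hJlo
    rw [Real.rpow_add (by norm_num), Real.rpow_one, Real.rpow_natCast] at h2
    have h3 : (T : ℝ) + 1 ≤ (2 : ℝ) ^ J := by linarith
    exact_mod_cast h3
  have key := H J R l hThi (by omega) hl1 hlR hl2
  have hJR : (J : ℝ) ≤ 8 * (θ * R) := by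
    have h1 : x ≤ 4 * (θ * R) := by
      rw [hx]
      nlinarith
    have h2 : (1 : ℝ) ≤ θ * R := by nlinarith
    nlinarith
  -- the power of 31/32
  set n1 := w / 4 * R / 2 with hn1
  have hn1w : (w : ℝ) * R / 400 ≤ (n1 : ℝ) / 32 := by
    have h1 : (w : ℝ) - 3 ≤ 4 * ((w / 4 : ℕ) : ℝ) := by
      have : w ≤ 4 * (w / 4) + 3 := by omega
      have h2 : (w : ℝ) ≤ 4 * ((w / 4 : ℕ) : ℝ) + 3 := by exact_mod_cast this
      linarith
    have h2 : ((w / 4 : ℕ) : ℝ) * R - 1 ≤ 2 * (n1 : ℝ) := by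
      have : w / 4 * R ≤ 2 * n1 + 1 := by omega
      have h3 : ((w / 4 : ℕ) : ℝ) * R ≤ 2 * (n1 : ℝ) + 1 := by exact_mod_cast this
      linarith
    have h3 : ((w : ℝ) - 3) * R ≤ 4 * ((w / 4 : ℕ) : ℝ) * R :=
      mul_le_mul_of_nonneg_right h1 (by positivity)
    have h4 : (524288 : ℝ) * R ≤ w * R := mul_le_mul_of_nonneg_right hwR' (by positivity)
    linarith
  have hpow1 : (31 / 32 : ℝ) ^ n1 ≤ (2 : ℝ) ^ (-((w : ℝ) * R / 400)) := by
    refine (N2_base n1).trans ?_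
    apply Real.rpow_le_rpow_of_exponent_le (by norm_num)
    linarith
  have hlR' : R ≤ l := by
    have h1 : R ≤ (h - h / 2) + 1 := by omega
    have h2 : (h - h / 2) + 1 ≤ 2 ^ (h - h / 2) := Nat.lt_two_pow_self
    have h3 : 2 ^ (h - h / 2) ≤ l := by
      rw [hl]
      exact Nat.le_mul_of_pos_left _ hk
    omega
  have hpow2 : (31 / 32 : ℝ) ^ (w / 4 * l) ≤ (2 : ℝ) ^ (-((w : ℝ) * R / 400)) := by
    refine le_trans ?_ hpow1
    apply pow_le_pow_of_le_one (by norm_num) (by norm_num)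
    have h1 : w / 4 * R ≤ w / 4 * l := Nat.mul_le_mul_left _ hlR'
    have h2 : n1 ≤ w / 4 * R := Nat.div_le_self _ _
    omega
  have e1 : θ * 524288 * R ≤ w * R := mul_le_mul_of_nonneg_right hθw' (by positivity)
  have e3 : θ ≤ θ * R := le_mul_of_one_le_right hθ0 hR1
  have e4 : (R : ℝ) ≤ θ * R := le_mul_of_one_le_left (by positivity) hθ1
  -- the summands
  have hX1 : (2 : ℝ) ^ J * (2 ^ (J + R) * (S : ℝ) ^ R * (31 / 32 : ℝ) ^ n1) ≤
      (2 : ℝ) ^ (-(J : ℝ)) := by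
    have h2 : (S : ℝ) ^ R ≤ (2 : ℝ) ^ (θ * R) := by
      calc (S : ℝ) ^ R ≤ ((2 : ℝ) ^ θ) ^ R := pow_le_pow_left₀ (Nat.cast_nonneg _) hSθ R
        _ = _ := by rw [← Real.rpow_natCast, ← Real.rpow_mul (by norm_num)]
    calc (2 : ℝ) ^ J * (2 ^ (J + R) * (S : ℝ) ^ R * (31 / 32 : ℝ) ^ n1) ≤
        (2 : ℝ) ^ J * (2 ^ (J + R) * (2 : ℝ) ^ (θ * R) * (2 : ℝ) ^ (-((w : ℝ) * R / 400))) := by
          gcongr
      _ = (2 : ℝ) ^ ((J : ℝ) + ((((J + R : ℕ) : ℝ) + θ * R) + -((w : ℝ) * R / 400))) := by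
          rw [← Real.rpow_natCast (2 : ℝ) J, ← Real.rpow_natCast (2 : ℝ) (J + R),
            ← Real.rpow_add (by norm_num), ← Real.rpow_add (by norm_num), ← Real.rpow_add (by norm_num)]
      _ ≤ (2 : ℝ) ^ (-(J : ℝ)) := by
          apply Real.rpow_le_rpow_of_exponent_le (by norm_num)
          push_cast
          linarith
  have hX2 : (2 : ℝ) ^ J * (((2 * S ^ 2 : ℕ) : ℝ) * (31 / 32 : ℝ) ^ (w / 4 * l)) ≤
      (2 : ℝ) ^ (-(J : ℝ)) := by
    have h1 : ((2 * S ^ 2 : ℕ) : ℝ) ≤ (2 : ℝ) ^ (1 + 2 * θ) := by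
      push_cast
      calc (2 : ℝ) * (S : ℝ) ^ 2 ≤ 2 * ((2 : ℝ) ^ θ) ^ 2 := by gcongr
        _ = (2 : ℝ) ^ (1 + 2 * θ) := by
            rw [Real.rpow_add (by norm_num), Real.rpow_one, ← Real.rpow_natCast,
              ← Real.rpow_mul (by norm_num)]
            congr 2
            push_cast
            ring
    calc (2 : ℝ) ^ J * (((2 * S ^ 2 : ℕ) : ℝ) * (31 / 32 : ℝ) ^ (w / 4 * l)) ≤
        (2 : ℝ) ^ (J : ℝ) * ((2 : ℝ) ^ (1 + 2 * θ) * (2 : ℝ) ^ (-((w : ℝ) * R / 400))) := by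
          rw [Real.rpow_natCast]
          gcongr
      _ = (2 : ℝ) ^ ((J : ℝ) + ((1 + 2 * θ) + -((w : ℝ) * R / 400))) := by
          rw [← Real.rpow_add (by norm_num), ← Real.rpow_add (by norm_num)]
      _ ≤ (2 : ℝ) ^ (-(J : ℝ)) := by
          apply Real.rpow_le_rpow_of_exponent_le (by norm_num)
          linarith
  have hJm : (2 : ℝ) ^ (-(J : ℝ)) ≤ (2 : ℝ) ^ (-x) / 2 := by
    have h1 : (2 : ℝ) ^ (-(J : ℝ)) ≤ (2 : ℝ) ^ (-x - 1) :=
      Real.rpow_le_rpow_of_exponent_le (by norm_num) (by linarith)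
    rwa [Real.rpow_sub (by norm_num), Real.rpow_one] at h1
  have hfin : (o : ℝ) ≤ (2 : ℝ) ^ (-x) * m := by
    refine key.trans (mul_le_mul_of_nonneg_right ?_ hmR.le)
    linarith
  have hlast : (2 : ℝ) ^ (-x) * m < o := by
    calc (2 : ℝ) ^ (-x) * m < (2 : ℝ) ^ (-x) * (o * (2 : ℝ) ^ x) :=
          mul_lt_mul_of_pos_left hmo (by positivity)
      _ = o := by
          have : (2 : ℝ) ^ (-x) * (2 : ℝ) ^ x = 1 := by
            rw [← Real.rpow_add (by norm_num), neg_add_cancel, Real.rpow_zero]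
          calc (2 : ℝ) ^ (-x) * (o * (2 : ℝ) ^ x) = ((2 : ℝ) ^ (-x) * (2 : ℝ) ^ x) * o := by ring
            _ = o := by rw [this, one_mul]
  linarith

end TSP
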