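import Pool.Agent.TSP.St2

/-!
# TSP, module RCT: rectangles in the grid
-/

set_option autoImplicit false

namespace TSP

open Finset
open SimpleGraph

private theorem Rct_mem {w l i i' j j' : ℕ} {v : Fin w × Fin l} : v ∈ rct w l i i' j j' ↔
    (i ≤ (v.1 : ℕ) ∧ (v.1 : ℕ) < i') ∧ (j ≤ (v.2 : ℕ) ∧ (v.2 : ℕ) < j') := by
  unfold rct
  simp

private theorem Rct_adj {w l : ℕ} {x y : Fin w × Fin l} : (gr w l).Adj x y ↔
    (((x.1 : ℕ) + 1 = y.1 ∨ (y.1 : ℕ) + 1 = x.1) ∧ x.2 = y.2) ∨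
      (((x.2 : ℕ) + 1 = y.2 ∨ (y.2 : ℕ) + 1 = x.2) ∧ x.1 = y.1) := by
  rw [boxProd_adj, pathGraph_adj, pathGraph_adj]

private theorem Rct_dis {w l i i' j j' a a' b b' : ℕ}
    (h : i' ≤ a ∨ a' ≤ i ∨ j' ≤ b ∨ b' ≤ j) :
    Disjoint (rct w l i i' j j') (rct w l a a' b b') := by
  rw [Finset.disjoint_left]
  intro v h1 h2
  rw [Rct_mem] at h1 h2
  omega

theorem thm_Rct : St_Rct := by
  intro w l
  refine ⟨fun i i' j j' => ?_, fun v => ?_, fun i i' j r j' h1 h2 => ⟨?_, ?_, ?_, fun v => ?_, ?_⟩,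
    fun i r i' j j' h1 h2 => ⟨?_, ?_, ?_, fun v => ?_, ?_⟩⟩
  · have h : ((Finset.Ico i i') ×ˢ (Finset.Ico j j')).card = (i' - i) * (j' - j) := by
      rw [Finset.card_product, Nat.card_Ico, Nat.card_Ico]
    rw [← h]
    refine Finset.card_le_card_of_injOn (fun v => ((v.1 : ℕ), (v.2 : ℕ))) ?_ ?_
    · intro v hv
      rw [Finset.mem_coe, Rct_mem] at hv
      rw [Finset.mem_coe, Finset.mem_product, Finset.mem_Ico, Finset.mem_Ico]
      exact hv
    · intro v _ v' _ e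
      simp only [Prod.mk.injEq] at e
      exact Prod.ext (Fin.ext e.1) (Fin.ext e.2)
  · rw [Rct_mem]
    have := v.1.isLt
    have := v.2.isLt
    omega
  · exact Rct_dis (by omega)
  · exact Rct_dis (by omega)
  · exact Rct_dis (by omega)
  · rw [Rct_mem, Rct_mem, Rct_mem, Rct_mem]
    omega
  · intro u hu v hv hadj
    rw [Rct_mem] at hu hv
    rw [Rct_adj] at hadj
    rcases hadj with ⟨_, h⟩ | ⟨h, _⟩
    · have := congrArg Fin.val h
      omega
    · omega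
  · exact Rct_dis (by omega)
  · exact Rct_dis (by omega)
  · exact Rct_dis (by omega)
  · rw [Rct_mem, Rct_mem, Rct_mem, Rct_mem]
    omega
  · intro u hu v hv hadj
    rw [Rct_mem] at hu hv
    rw [Rct_adj] at hadj
    rcases hadj with ⟨h, _⟩ | ⟨_, h⟩
    · omega
    · have := congrArg Fin.val h
      omega

end TSP
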