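import Pool.Agent.TSP.St2

/-!
# TSP: Sep, the general separator step (helper50)
-/

set_option autoImplicit false

namespace TSP

open Finset
open scoped BigOperators

private theorem Sep_run {V : Type} {K s τ : ℕ} (hK : 1 ≤ K) {A B : Finset (Item V)}
    (h : Run 1 s τ A B) : Run K s τ A B := by
  obtain ⟨M, h1, h2, h3, h4⟩ := h
  refine ⟨M, h1, h2, h3, fun t ht => ?_⟩
  obtain ⟨I, hI, hJ⟩ := h4 t ht
  refine ⟨I, ?_, hJ⟩
  rcases hI with hI | hI | hI
  · exact Or.inl (hI.trans hK)
  · exact Or.inr (Or.inl hI)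
  · exact Or.inr (Or.inr hI)

section

variable {V : Type}

private theorem Sep_mix_mem {X : Finset V} {b a : V → Bool} {v : V} (h : v ∈ X) :
    mix X b a v = b v := by
  unfold mix
  rw [if_pos h]

private theorem Sep_mix_not {X : Finset V} {b a : V → Bool} {v : V} (h : v ∉ X) :
    mix X b a v = a v := by
  unfold mix
  rw [if_neg h]

/-- the condition on the assignments of the separator -/
private def Sep_Om (G : SimpleGraph V) (W P Q : Finset V) (c c' : V → Bool) : Prop :=
  (∀ v, v ∉ W → c' v = c v) ∧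
    ∀ u ∈ W, ∀ v, G.Adj u v → v ∉ P → v ∉ Q → c' u = true ∨ c' v = true

private theorem Sep_iff {G : SimpleGraph V} {X W P Q : Finset V} (hWP : Disjoint W P)
    (hWQ : Disjoint W Q) (hPQ : Disjoint P Q) (hX : ∀ v, v ∈ X ↔ v ∈ W ∨ v ∈ P ∨ v ∈ Q)
    (hG : ∀ u ∈ P, ∀ v ∈ Q, ¬ G.Adj u v) (c a : V → Bool) :
    OkX G X c a ↔ Sep_Om G W P Q c (mix W a c) ∧ OkX G P (mix W a c) a ∧
      OkX G Q (mix W a c) a := by
  have eW : ∀ v, v ∉ P → v ∉ Q → mix W a c v = mix X a c v := by
    intro v hP hQ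
    by_cases hW : v ∈ W
    · rw [Sep_mix_mem hW, Sep_mix_mem ((hX v).2 (Or.inl hW))]
    · rw [Sep_mix_not hW, Sep_mix_not]
      intro h
      rcases (hX v).1 h with h | h | h
      · exact hW h
      · exact hP h
      · exact hQ h
  have eP : ∀ v, v ∉ Q → mix P a (mix W a c) v = mix X a c v := by
    intro v hQ
    by_cases hP : v ∈ P
    · rw [Sep_mix_mem hP, Sep_mix_mem ((hX v).2 (Or.inr (Or.inl hP)))]
    · rw [Sep_mix_not hP, eW v hP hQ]
  have eQ : ∀ v, v ∉ P → mix Q a (mix W a c) v = mix X a c v := by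
    intro v hP
    by_cases hQ : v ∈ Q
    · rw [Sep_mix_mem hQ, Sep_mix_mem ((hX v).2 (Or.inr (Or.inr hQ)))]
    · rw [Sep_mix_not hQ, eW v hP hQ]
  have nPQ : ∀ v, v ∈ P → v ∉ Q := fun v h1 h2 => Finset.disjoint_left.1 hPQ h1 h2
  have nQP : ∀ v, v ∈ Q → v ∉ P := fun v h1 h2 => Finset.disjoint_left.1 hPQ h2 h1
  have nWP : ∀ v, v ∈ W → v ∉ P := fun v h1 h2 => Finset.disjoint_left.1 hWP h1 h2
  have nWQ : ∀ v, v ∈ W → v ∉ Q := fun v h1 h2 => Finset.disjoint_left.1 hWQ h1 h2
  constructor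
  · intro h
    refine ⟨⟨fun v hv => Sep_mix_not hv, fun u hu v huv hP hQ => ?_⟩, fun u v huv hu => ?_,
      fun u v huv hu => ?_⟩
    · rw [eW u (nWP u hu) (nWQ u hu), eW v hP hQ]
      exact h u v huv ((hX u).2 (Or.inl hu))
    · rw [eP u (nPQ u hu), eP v fun hv => hG u hu v hv huv]
      exact h u v huv ((hX u).2 (Or.inr (Or.inl hu)))
    · rw [eQ u (nQP u hu), eQ v fun hv => hG v hv u hu huv.symm]
      exact h u v huv ((hX u).2 (Or.inr (Or.inr hu)))
  · rintro ⟨⟨-, hΩ⟩, hOP, hOQ⟩
    have kP : ∀ u v, G.Adj u v → u ∈ P → mix X a c u = true ∨ mix X a c v = true := by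
      intro u v huv hu
      rw [← eP u (nPQ u hu), ← eP v fun hv => hG u hu v hv huv]
      exact hOP u v huv hu
    have kQ : ∀ u v, G.Adj u v → u ∈ Q → mix X a c u = true ∨ mix X a c v = true := by
      intro u v huv hu
      rw [← eQ u (nQP u hu), ← eQ v fun hv => hG v hv u hu huv.symm]
      exact hOQ u v huv hu
    intro u v huv hu
    rcases (hX u).1 hu with hu | hu | hu
    · by_cases hP : v ∈ P
      · exact (kP v u huv.symm hP).symm
      by_cases hQ : v ∈ Q
      · exact (kQ v u huv.symm hQ).symm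
      rw [← eW u (nWP u hu) (nWQ u hu), ← eW v hP hQ]
      exact hΩ u hu v huv hP hQ
    · exact kP u v huv hu
    · exact kQ u v huv hu

open Classical in
private theorem Sep_sum [Fintype V] {G : SimpleGraph V} {X W P Q : Finset V} (hWP : Disjoint W P)
    (hWQ : Disjoint W Q) (hPQ : Disjoint P Q) (hX : ∀ v, v ∈ X ↔ v ∈ W ∨ v ∈ P ∨ v ∈ Q)
    (hG : ∀ u ∈ P, ∀ v ∈ Q, ¬ G.Adj u v) (c a : V → Bool) :
    (Ux G X c).f a = ∑ c' ∈ univ.filter (Sep_Om G W P Q c),
      (pt W c').f a * (Ux G P c').f a * (Ux G Q c').f a := by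
  have hz : ∀ c', Sep_Om G W P Q c c' → c' ≠ mix W a c → (pt W c').f a = 0 := by
    intro c' hc' hne
    unfold pt
    refine if_neg fun h => hne ?_
    funext v
    by_cases hv : v ∈ W
    · rw [Sep_mix_mem hv, h v hv]
    · rw [Sep_mix_not hv, hc'.1 v hv]
  have hone : (pt W (mix W a c)).f a = 1 := by
    unfold pt
    exact if_pos fun v hv => (Sep_mix_mem hv).symm
  have hi := Sep_iff hWP hWQ hPQ hX hG c a
  by_cases hm : Sep_Om G W P Q c (mix W a c)
  · rw [Finset.sum_eq_single (mix W a c)]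
    · rw [hone, one_mul]
      change (if OkX G X c a then (1 : ℝ) else 0) =
        (if OkX G P (mix W a c) a then (1 : ℝ) else 0) *
          (if OkX G Q (mix W a c) a then (1 : ℝ) else 0)
      by_cases h1 : OkX G P (mix W a c) a
      · by_cases h2 : OkX G Q (mix W a c) a
        · rw [if_pos (hi.2 ⟨hm, h1, h2⟩), if_pos h1, if_pos h2, one_mul]
        · rw [if_neg fun h => h2 (hi.1 h).2.2, if_neg h2, mul_zero]
      · rw [if_neg fun h => h1 (hi.1 h).2.1, if_neg h1, zero_mul]
    · intro c' hc' hne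
      rw [hz c' (Finset.mem_filter.1 hc').2 hne, zero_mul, zero_mul]
    · intro h
      exact absurd (Finset.mem_filter.2 ⟨Finset.mem_univ _, hm⟩) h
  · rw [Finset.sum_eq_zero]
    · change (if OkX G X c a then (1 : ℝ) else 0) = 0
      exact if_neg fun h => hm (hi.1 h).1
    · intro c' hc'
      have h1 := (Finset.mem_filter.1 hc').2
      rw [hz c' h1 (fun e => hm (e ▸ h1)), zero_mul, zero_mul]

open Classical in
private theorem Sep_card [Fintype V] (G : SimpleGraph V) (W P Q : Finset V) (c : V → Bool) :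
    (univ.filter (Sep_Om G W P Q c)).card ≤ 2 ^ W.card := by
  have h := Finset.card_le_card_of_injOn (s := univ.filter (Sep_Om G W P Q c))
    (t := (univ : Finset (W → Bool))) (fun c' => fun w : W => c' w)
    (fun _ _ => Finset.mem_coe.2 (Finset.mem_univ _)) (by
      intro c₁ h₁ c₂ h₂ he
      have h₁ := (Finset.mem_filter.1 (Finset.mem_coe.1 h₁)).2
      have h₂ := (Finset.mem_filter.1 (Finset.mem_coe.1 h₂)).2
      funext v
      by_cases hv : v ∈ W
      · exact congrFun he ⟨v, hv⟩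
      · rw [h₁.1 v hv, h₂.1 v hv])
  rwa [Finset.card_univ, Fintype.card_fun, Fintype.card_bool, Fintype.card_coe] at h

/-- the product item -/
private noncomputable def Sep_P (G : SimpleGraph V) (X W P Q : Finset V)
    (hX : ∀ v, v ∈ X ↔ v ∈ W ∨ v ∈ P ∨ v ∈ Q) (c : V → Bool) : Item V where
  vars := X
  f := fun a => (pt W c).f a * (Ux G P c).f a * (Ux G Q c).f a
  nonneg := fun a => mul_nonneg (mul_nonneg (Item.nonneg _ _) (Item.nonneg _ _)) (Item.nonneg _ _)
  dep := fun a b hab => by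
    rw [(pt W c).dep a b fun v hv => hab v ((hX v).2 (Or.inl hv)),
      (Ux G P c).dep a b fun v hv => hab v ((hX v).2 (Or.inr (Or.inl hv))),
      (Ux G Q c).dep a b fun v hv => hab v ((hX v).2 (Or.inr (Or.inr hv)))]

end

/-- [Sep] separators -/
theorem thm_Sep (h1 : St_Rn) (h2 : St_RnP) (h3 : St_RnS) : St_Sep := by
  classical
  intro V _ G K hK
  obtain ⟨hcat, hkeep, hmono, hone, hprog⟩ := h1 V K
  obtain ⟨hpt, hprod⟩ := h2 V
  refine ⟨?_, ?_, ?_, ?_⟩
  · intro X hX c
    exact hone 4 ∅ {Ux G X c} (Ux G X c) (Or.inl hX) (by simp) (by simp)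
      (fun J hJ => Or.inl (mem_singleton.1 hJ))
  · intro X s s' τ τ' h hs hτ c
    exact hmono _ _ _ _ _ _ _ _ (h c) hs hτ (Subset.refl _) (Subset.refl _)
  · intro X W P Q s τ hWP hWQ hPQ hX hG hs hCP hCQ c
    have hP : ∀ c' : V → Bool,
        Run K (s + 2) (2 * τ + 2 * W.card + 3) ∅ {Sep_P G X W P Q hX c'} := by
      intro c'
      have r1 := hCP c'
      have r2 := hCQ c'
      have r3 := Sep_run hK (hpt W c')
      have k1 := hmono _ (s + 2) _ τ _ _ ∅ {Ux G P c'} r1 (by omega) le_rfl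
        (Subset.refl _) (Subset.refl _)
      have k2 := hkeep _ _ _ _ {Ux G P c'} {Ux G P c'}
        {Ux G P c', Ux G Q c'} r2 (fun J hJ => absurd hJ (notMem_empty J))
        (fun J hJ => hJ) (fun J hJ => by
          rw [mem_insert] at hJ
          rcases hJ with hJ | hJ
          · exact Or.inr (mem_singleton.2 hJ)
          · exact Or.inl hJ)
      have k2' := hmono _ (s + 2) _ τ _ _ _ _ k2
        (by rw [card_singleton]; omega) le_rfl (Subset.refl _) (Subset.refl _)
      have k3 := hkeep _ _ _ _ {Ux G P c', Ux G Q c'}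
        {Ux G P c', Ux G Q c'}
        (insert (pt W c') {Ux G P c', Ux G Q c'}) r3
        (fun J hJ => absurd hJ (notMem_empty J)) (fun J hJ => hJ) (fun J hJ => by
          rw [mem_insert] at hJ
          rcases hJ with hJ | hJ
          · exact Or.inl (mem_singleton.2 hJ)
          · exact Or.inr hJ)
      have k3' := hmono _ (s + 2) _ (2 * W.card + 1) _ _ _ _ k3 (by
          have := card_le_two (a := Ux G P c') (b := Ux G Q c')
          omega) le_rfl (Subset.refl _) (Subset.refl _)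
      have k4 := Sep_run hK (hprod (pt W c') (Ux G P c') (Ux G Q c')
        (Sep_P G X W P Q hX c') hWP hWQ hPQ hX (fun a => rfl)
        (insert (pt W c') {Ux G P c', Ux G Q c'})
        (mem_insert_self _ _) (mem_insert_of_mem (mem_insert_self _ _))
        (mem_insert_of_mem (mem_insert_of_mem (mem_singleton_self _))))
      have k4' := hmono _ (s + 2) _ 2 _ _ _ _ k4 (by omega) le_rfl
        (Subset.refl _) (Subset.refl _)
      have k5 := hcat _ _ _ _ _ _ (hcat _ _ _ _ _ _ (hcat _ _ _ _ _ _ k1 k2') k3') k4'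
      exact hmono _ _ _ _ _ _ _ _ k5 le_rfl (by omega) (Subset.refl _) (Subset.refl _)
    have hS := h3 V (V → Bool) K (s + 2) (2 * τ + 2 * W.card + 3)
      (univ.filter (Sep_Om G W P Q c))
      (fun c' => Sep_P G X W P Q hX c') (Ux G X c) ∅ {Ux G X c} (by simp)
      (fun i _ B' hB' => hmono _ _ _ _ _ _ _ _ (hP i) le_rfl le_rfl (Subset.refl _)
        (fun J hJ => by
          rcases hB' J hJ with hJ | hJ
          · exact mem_singleton.2 hJ
          · exact absurd hJ (notMem_empty J)))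
      (fun i _ => Subset.refl _) (fun a => Sep_sum hWP hWQ hPQ hX hG c a)
      (fun J hJ => Or.inl (mem_singleton.1 hJ))
    refine hmono _ _ _ _ _ _ _ _ hS (by omega) ?_ (Subset.refl _) (Subset.refl _)
    exact Nat.succ_le_succ (Nat.mul_le_mul_right _ (Sep_card G W P Q c))
  · intro X s τ hX hC
    obtain ⟨M, hM, hI⟩ := hprog _ _ _ (hC fun _ => true)
    refine ⟨M, hM, Ux G X fun _ => true, hI (mem_singleton_self _), fun a => ?_⟩
    have e : mix X a (fun _ => true) = a := funext fun v => Sep_mix_mem (hX v)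
    have hiff : OkX G X (fun _ => true) a ↔ a ∈ Mod G := by
      unfold OkX
      rw [e]
      exact ⟨fun h u v huv => h u v huv (hX u), fun h u v huv _ => h u v huv⟩
    constructor
    · intro ha
      change (if OkX G X (fun _ => true) a then (1 : ℝ) else 0) = 1
      exact if_pos (hiff.2 ha)
    · intro ha
      change (if OkX G X (fun _ => true) a then (1 : ℝ) else 0) = 0
      exact if_neg fun h => ha (hiff.1 h)

end TSP
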