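import Pool.Agent.TSP.St2

/-!
# TSP, module UpC: little memory, leaves with one variable (MP_4ed1f9_lc; helper72)
-/

set_option autoImplicit false

namespace TSP

open Finset

private theorem UpC_num (n m τ : ℕ) (h : n ≤ m) (hτ : 1 ≤ τ) :
    2 ^ n * (2 * τ + 2 * n + 4) + 1 ≤ 2 ^ (2 * m + 3) * τ := by
  have h1 : 2 ^ n ≤ 2 ^ m := Nat.pow_le_pow_right (by norm_num) h
  have h2 : m < 2 ^ m := Nat.lt_two_pow_self
  have h3 : 2 * τ + 2 * n + 4 ≤ (2 * m + 6) * τ := by nlinarith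
  have h4 : 2 ^ n * (2 * τ + 2 * n + 4) ≤ 2 ^ m * ((2 * m + 6) * τ) := Nat.mul_le_mul h1 h3
  have h5 : 1 ≤ 2 ^ m * τ := Nat.mul_pos (by positivity) hτ
  have h6 : 2 ^ m * ((2 * m + 6) * τ) + 2 ^ m * τ = 2 ^ m * ((2 * m + 7) * τ) := by ring
  have h7 : 2 ^ m * ((2 * m + 7) * τ) ≤ 2 ^ m * ((8 * 2 ^ m) * τ) :=
    Nat.mul_le_mul_left _ (Nat.mul_le_mul_right _ (by omega))
  have h8 : 2 ^ (2 * m + 3) * τ = 2 ^ m * ((8 * 2 ^ m) * τ) := by
    rw [pow_add, two_mul, pow_add]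
    ring
  rw [h8]
  omega

/-- one step with powers of two -/
private theorem UpC_step (h1 : St_Sep) {V : Type} [Fintype V] (G : SimpleGraph V)
    (X W P Q : Finset V) (s e m : ℕ) (d1 : Disjoint W P) (d2 : Disjoint W Q) (d3 : Disjoint P Q)
    (hX : ∀ v, v ∈ X ↔ v ∈ W ∨ v ∈ P ∨ v ∈ Q) (hadj : ∀ u ∈ P, ∀ v ∈ Q, ¬ G.Adj u v)
    (hs : 4 ≤ s) (hW : W.card ≤ m) (hP : Cst G 1 P s (2 ^ e)) (hQ : Cst G 1 Q s (2 ^ e)) :
    Cst G 1 X (s + 3) (2 ^ (2 * m + 3 + e)) := by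
  obtain ⟨-, mono, step, -⟩ := h1 V G 1 le_rfl
  have e1 := step X W P Q s (2 ^ e) d1 d2 d3 hX hadj hs hP hQ
  refine mono X (s + 3) (s + 3) _ _ e1 le_rfl ?_
  rw [pow_add]
  exact UpC_num W.card m (2 ^ e) hW Nat.one_le_two_pow

private theorem UpC_A (h1 : St_Sep) (h2 : St_Rct) (w l : ℕ) : ∀ t : ℕ, ∀ i i' j j' : ℕ,
    i' - i < 2 ^ t → j' - j < 2 ^ t →
    Cst (gr w l) 1 (rct w l i i' j j') (6 * t + 4) (2 ^ (12 * 2 ^ t)) := by
  obtain ⟨leaf, mono, -, -⟩ := h1 (Fin w × Fin l) (gr w l) 1 le_rfl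
  obtain ⟨hcard, -, hcol, hrow⟩ := h2 w l
  intro t
  induction t with
  | zero =>
    intro i i' j j' hi hj
    have e0 : i' - i = 0 := by
      rw [pow_zero] at hi
      omega
    have e1 : (rct w l i i' j j').card ≤ 1 := by
      have := hcard i i' j j'
      rw [e0, zero_mul] at this
      omega
    exact mono _ 4 _ 1 _ (leaf _ e1) (by omega) Nat.one_le_two_pow
  | succ t ih =>
    have hpos : 1 ≤ 2 ^ t := Nat.one_le_two_pow
    have hA : ∀ i i' j j' : ℕ, i' - i < 2 ^ (t + 1) → j' - j < 2 ^ t →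
        Cst (gr w l) 1 (rct w l i i' j j') (6 * t + 7)
          (2 ^ (2 * 2 ^ t + 3 + 12 * 2 ^ t)) := by
      intro i i' j j' hi hj
      rcases Nat.lt_or_ge (i' - i) (2 ^ t) with h | h
      · exact mono _ _ _ _ _ (ih i i' j j' h hj) (by omega)
          (Nat.pow_le_pow_right (by norm_num) (by omega))
      · obtain ⟨d1, d2, d3, hX, hadj⟩ := hrow i (i + 2 ^ t - 1) i' j j' (by omega) (by omega)
        rw [pow_succ] at hi
        refine UpC_step h1 (gr w l) _ _ _ _ (6 * t + 4) (12 * 2 ^ t) (2 ^ t) d1 d2 d3 hX hadj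
          (by omega) ?_ ?_ ?_
        · have e1 := hcard (i + 2 ^ t - 1) (i + 2 ^ t - 1 + 1) j j'
          have e2 : i + 2 ^ t - 1 + 1 - (i + 2 ^ t - 1) = 1 := by omega
          rw [e2, one_mul] at e1
          omega
        · exact ih _ _ _ _ (by omega) hj
        · exact ih _ _ _ _ (by omega) hj
    intro i i' j j' hi hj
    have hexp : 2 * 2 ^ (t + 1) + 3 + (2 * 2 ^ t + 3 + 12 * 2 ^ t) ≤ 12 * 2 ^ (t + 1) := by
      rw [pow_succ]
      omega
    rcases Nat.lt_or_ge (j' - j) (2 ^ t) with h | h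
    · exact mono _ _ _ _ _ (hA i i' j j' hi h) (by omega)
        (Nat.pow_le_pow_right (by norm_num) (by omega))
    · obtain ⟨d1, d2, d3, hX, hadj⟩ := hcol i i' j (j + 2 ^ t - 1) j' (by omega) (by omega)
      have hj' : j' - j < 2 ^ t * 2 := by
        rw [pow_succ] at hj
        exact hj
      have e3 : Cst (gr w l) 1 (rct w l i i' j j') (6 * t + 7 + 3)
          (2 ^ (2 * 2 ^ (t + 1) + 3 + (2 * 2 ^ t + 3 + 12 * 2 ^ t))) := by
        refine UpC_step h1 (gr w l) _ _ _ _ (6 * t + 7) _ (2 ^ (t + 1)) d1 d2 d3 hX hadj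
          (by omega) ?_ ?_ ?_
        · have e1 := hcard i i' (j + 2 ^ t - 1) (j + 2 ^ t - 1 + 1)
          have e2 : j + 2 ^ t - 1 + 1 - (j + 2 ^ t - 1) = 1 := by omega
          rw [e2, mul_one] at e1
          omega
        · exact hA _ _ _ _ hi (by omega)
        · exact hA _ _ _ _ hi (by omega)
      exact mono _ _ _ _ _ e3 (by omega) (Nat.pow_le_pow_right (by norm_num) hexp)

private theorem UpC_B (h1 : St_Sep) (h2 : St_Rct) (w l t : ℕ) (hw : w < 2 ^ t) : ∀ s : ℕ,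
    ∀ j j' : ℕ, j' - j < 2 ^ (t + s) →
    Cst (gr w l) 1 (rct w l 0 w j j') (6 * t + 4 + 3 * s)
      (2 ^ (12 * 2 ^ t + (2 * w + 3) * s)) := by
  obtain ⟨leaf, mono, -, -⟩ := h1 (Fin w × Fin l) (gr w l) 1 le_rfl
  obtain ⟨hcard, -, hcol, -⟩ := h2 w l
  intro s
  induction s with
  | zero =>
    intro j j' hj
    exact mono _ _ _ _ _ (UpC_A h1 h2 w l t 0 w j j' (by omega) hj) (by omega)
      (Nat.pow_le_pow_right (by norm_num) (by omega))
  | succ s ih =>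
    intro j j' hj
    have hpos : 1 ≤ 2 ^ (t + s) := Nat.one_le_two_pow
    have hj' : j' - j < 2 ^ (t + s) * 2 := by
      rw [← pow_succ]
      exact hj
    have hexp : 2 * w + 3 + (12 * 2 ^ t + (2 * w + 3) * s) = 12 * 2 ^ t + (2 * w + 3) * (s + 1) := by
      ring
    rcases Nat.lt_or_ge (j' - j) (2 ^ (t + s)) with h | h
    · exact mono _ _ _ _ _ (ih j j' h) (by omega)
        (Nat.pow_le_pow_right (by norm_num) (by rw [← hexp]; omega))
    · obtain ⟨d1, d2, d3, hX, hadj⟩ := hcol 0 w j (j + 2 ^ (t + s) - 1) j' (by omega) (by omega)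
      have e3 : Cst (gr w l) 1 (rct w l 0 w j j') (6 * t + 4 + 3 * s + 3)
          (2 ^ (2 * w + 3 + (12 * 2 ^ t + (2 * w + 3) * s))) := by
        refine UpC_step h1 (gr w l) _ _ _ _ (6 * t + 4 + 3 * s) _ w d1 d2 d3 hX hadj
          (by omega) ?_ ?_ ?_
        · have e1 := hcard 0 w (j + 2 ^ (t + s) - 1) (j + 2 ^ (t + s) - 1 + 1)
          have e2 : j + 2 ^ (t + s) - 1 + 1 - (j + 2 ^ (t + s) - 1) = 1 := by omega
          rw [e2, mul_one] at e1
          omega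
        · exact ih _ _ (by omega)
        · exact ih _ _ (by omega)
      rw [← hexp]
      exact mono _ _ _ _ _ e3 (by omega) le_rfl

/-- [UpC] -/
theorem thm_UpC (h1 : St_Sep) (h2 : St_Rct) : St_UpC := by
  refine ⟨34, fun w L hw hL => ?_⟩
  obtain ⟨leaf, mono, -, fin⟩ := h1 (Fin w × Fin (w * L)) (gr w (w * L)) 1 le_rfl
  obtain ⟨-, hall, -, -⟩ := h2 w (w * L)
  have a1 : 2 ^ Nat.log 2 w ≤ w := Nat.pow_log_le_self 2 (by omega)
  have a2 : w < 2 ^ (Nat.log 2 w + 1) := Nat.lt_pow_succ_log_self (by norm_num) w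
  have a3 : 2 ^ Nat.log 2 L ≤ L := Nat.pow_log_le_self 2 (by omega)
  have a4 : L < 2 ^ (Nat.log 2 L + 1) := Nat.lt_pow_succ_log_self (by norm_num) L
  have a5 : 1 ≤ Nat.log 2 L := Nat.log_pos (by norm_num) hL
  have a6 : Nat.log 2 w + Nat.log 2 L ≤ Nat.log 2 (w * L) := by
    refine Nat.le_log_of_pow_le (by norm_num) ?_
    rw [pow_add]
    exact Nat.mul_le_mul a1 a3
  have a7 : w * L - 0 < 2 ^ (Nat.log 2 w + 1 + (Nat.log 2 L + 1)) := by
    rw [pow_add (2 : ℕ) (Nat.log 2 w + 1) (Nat.log 2 L + 1), Nat.sub_zero]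
    exact Nat.mul_lt_mul'' a2 a4
  have e1 := UpC_B h1 h2 w (w * L) (Nat.log 2 w + 1) a2 (Nat.log 2 L + 1) 0 (w * L) a7
  have hexp : 12 * 2 ^ (Nat.log 2 w + 1) + (2 * w + 3) * (Nat.log 2 L + 1) ≤
      Nat.log 2 L * (34 * w) := by
    have b1 : 2 ^ (Nat.log 2 w + 1) = 2 ^ Nat.log 2 w * 2 := pow_succ _ _
    have b2 : (2 * w + 3) * (Nat.log 2 L + 1) ≤ (5 * w) * (2 * Nat.log 2 L) :=
      Nat.mul_le_mul (by omega) (by omega)
    have b3 : 24 * w * 1 ≤ 24 * w * Nat.log 2 L := Nat.mul_le_mul_left _ a5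
    have b4 : Nat.log 2 L * (34 * w) = 24 * w * Nat.log 2 L + (5 * w) * (2 * Nat.log 2 L) := by
      ring
    rw [b4, b1]
    omega
  have htime : 2 ^ (12 * 2 ^ (Nat.log 2 w + 1) + (2 * w + 3) * (Nat.log 2 L + 1)) ≤
      L ^ (34 * w) := by
    refine le_trans (Nat.pow_le_pow_right (by norm_num) hexp) ?_
    rw [pow_mul]
    exact Nat.pow_le_pow_left a3 _
  have e2 := mono _ _ (34 * Nat.log 2 (w * L)) _ (L ^ (34 * w)) e1 (by omega) htime
  obtain ⟨M, hM, hI⟩ := fin _ _ _ hall e2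
  exact ⟨L ^ (34 * w), le_rfl, M, hM, hI⟩

end TSP
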