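import Pool.Agent.TSP.St2

/-!
# TSP: little memory, leaves with `k w ^ 2` variables
-/

set_option autoImplicit false

namespace TSP

/-- one splitting step -/
theorem UpD_num (w n τ : ℕ) (hn : n ≤ w) (hτ : 1 ≤ τ) :
    2 ^ n * (2 * τ + 2 * n + 4) + 1 ≤ 2 ^ (2 * w + 3) * τ := by
  have h1 : 2 ^ n ≤ 2 ^ w := Nat.pow_le_pow_right (by norm_num) hn
  have h2 : w + 1 ≤ 2 ^ w := Nat.lt_two_pow_self
  have h3 : 2 ^ n * (2 * τ + 2 * n + 4) + 1 ≤ 2 ^ w * (2 * τ + 2 * w + 5) := by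
    calc 2 ^ n * (2 * τ + 2 * n + 4) + 1 ≤ 2 ^ w * (2 * τ + 2 * w + 4) + 1 := by
          have := Nat.mul_le_mul h1 (show 2 * τ + 2 * n + 4 ≤ 2 * τ + 2 * w + 4 by omega)
          omega
      _ ≤ 2 ^ w * (2 * τ + 2 * w + 4) + 2 ^ w := by
          have : 1 ≤ 2 ^ w := Nat.one_le_two_pow
          omega
      _ = 2 ^ w * (2 * τ + 2 * w + 5) := by ring
  have h4 : 2 * τ + 2 * w + 5 ≤ 8 * 2 ^ w * τ := by
    have h5 : 8 * (w + 1) * τ ≤ 8 * 2 ^ w * τ :=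
      Nat.mul_le_mul_right _ (Nat.mul_le_mul_left _ h2)
    have h6 : w ≤ w * τ := Nat.le_mul_of_pos_right _ hτ
    have h7 : 8 * (w + 1) * τ = 8 * (w * τ) + 8 * τ := by ring
    omega
  calc 2 ^ n * (2 * τ + 2 * n + 4) + 1 ≤ 2 ^ w * (2 * τ + 2 * w + 5) := h3
    _ ≤ 2 ^ w * (8 * 2 ^ w * τ) := Nat.mul_le_mul_left _ h4
    _ = 2 ^ (2 * w + 3) * τ := by
        rw [pow_add, two_mul, pow_add]
        ring

/-- the claim: rectangles with all rows -/
theorem UpD_rec (h1 : St_Sep) (h2 : St_Rct) (w k l : ℕ) (hw : 1 ≤ w) (hk : 1 ≤ k) :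
    ∀ s j j' : ℕ, j' - j + 1 ≤ 2 ^ s * (k * w + 1) →
      Cst (gr w l) (k * w ^ 2) (rct w l 0 w j j') (3 * s + 4) (2 ^ ((2 * w + 3) * s)) := by
  have hK : 1 ≤ k * w ^ 2 := Nat.mul_pos hk (pow_pos hw 2)
  obtain ⟨hleaf, hmono, hsplit, -⟩ := h1 (Fin w × Fin l) (gr w l) (k * w ^ 2) hK
  obtain ⟨hcard, -, hcol, -⟩ := h2 w l
  intro s
  induction s with
  | zero =>
    intro j j' h
    have h3 : j' - j ≤ k * w := by omega
    have h4 : (rct w l 0 w j j').card ≤ k * w ^ 2 := by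
      refine (hcard 0 w j j').trans ?_
      calc (w - 0) * (j' - j) ≤ w * (k * w) := Nat.mul_le_mul (by omega) h3
        _ = k * w ^ 2 := by ring
    exact hmono _ _ _ _ _ (hleaf _ h4) (by omega) Nat.one_le_two_pow
  | succ s ih =>
    intro j j' h
    rcases Nat.lt_or_ge j j' with hj | hj
    · have hp : 2 ^ (s + 1) * (k * w + 1) = 2 * (2 ^ s * (k * w + 1)) := by
        rw [pow_succ]
        ring
      rw [hp] at h
      obtain ⟨N, hN⟩ : ∃ N, N = 2 ^ s * (k * w + 1) := ⟨_, rfl⟩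
      rw [← hN] at h ih
      obtain ⟨r, hr⟩ : ∃ r, r = j + (j' - j) / 2 := ⟨_, rfl⟩
      have hr1 : j ≤ r := by omega
      have hr2 : r < j' := by omega
      obtain ⟨d1, d2, d3, hX, hadj⟩ := hcol 0 w j r j' hr1 hr2
      have hP := ih j r (by omega)
      have hQ := ih (r + 1) j' (by omega)
      have hc := hsplit _ _ _ _ _ _ d1 d2 d3 hX hadj (by omega) hP hQ
      refine hmono _ _ _ _ _ hc (by omega) ?_
      have hW : (rct w l 0 w r (r + 1)).card ≤ w := by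
        refine (hcard 0 w r (r + 1)).trans ?_
        have : r + 1 - r = 1 := by omega
        rw [this, mul_one]
        exact Nat.sub_le _ _
      refine (UpD_num w _ _ hW Nat.one_le_two_pow).trans (le_of_eq ?_)
      rw [← pow_add]
      congr 1
      ring
    · have h4 : (rct w l 0 w j j').card ≤ k * w ^ 2 := by
        refine (hcard 0 w j j').trans ?_
        rw [Nat.sub_eq_zero_of_le hj, mul_zero]
        exact Nat.zero_le _
      exact hmono _ _ _ _ _ (hleaf _ h4) (by omega) Nat.one_le_two_pow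

/-- **UpD** -/
theorem thm_UpD (h1 : St_Sep) (h2 : St_Rct) : St_UpD := by
  refine ⟨10, fun w k L hw hk hL => ?_⟩
  have hK : 1 ≤ k * w ^ 2 := Nat.mul_pos hk (pow_pos hw 2)
  obtain ⟨-, hmono, -, hend⟩ := h1 (Fin w × Fin (w * L)) (gr w (w * L)) (k * w ^ 2) hK
  obtain ⟨h, hh⟩ : ∃ h, h = Nat.log 2 (L / k) := ⟨_, rfl⟩
  have hq : 2 ≤ L / k := (Nat.le_div_iff_mul_le hk).2 hL
  have hh1 : 1 ≤ h := by
    rw [hh]
    exact Nat.log_pos (by norm_num) hq
  have hlo : 2 ^ h ≤ L / k := by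
    rw [hh]
    exact Nat.pow_log_le_self 2 (by omega)
  have hhi : L / k < 2 ^ (h + 1) := by
    rw [hh]
    exact Nat.lt_pow_succ_log_self (by norm_num) _
  have hL2 : L < 2 ^ (h + 1) * k := (Nat.div_lt_iff_lt_mul hk).1 hhi
  have hx : w * L - 0 + 1 ≤ 2 ^ (h + 1) * (k * w + 1) := by
    have e1 : w * L ≤ w * (2 ^ (h + 1) * k) := Nat.mul_le_mul_left _ hL2.le
    have e2 : 2 ^ (h + 1) * (k * w + 1) = w * (2 ^ (h + 1) * k) + 2 ^ (h + 1) := by ring
    have e3 : 1 ≤ 2 ^ (h + 1) := Nat.one_le_two_pow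
    omega
  have hc := UpD_rec h1 h2 w k (w * L) hw hk (h + 1) 0 (w * L) hx
  have ht : 2 ^ ((2 * w + 3) * (h + 1)) ≤ (L / k) ^ (10 * w) := by
    calc 2 ^ ((2 * w + 3) * (h + 1)) ≤ 2 ^ (h * (10 * w)) := by
          refine Nat.pow_le_pow_right (by norm_num) ?_
          calc (2 * w + 3) * (h + 1) ≤ (5 * w) * (2 * h) := Nat.mul_le_mul (by omega) (by omega)
            _ = h * (10 * w) := by ring
      _ = (2 ^ h) ^ (10 * w) := pow_mul _ _ _
      _ ≤ (L / k) ^ (10 * w) := Nat.pow_le_pow_left hlo _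
  have hc' := hmono _ _ (10 * h) _ ((L / k) ^ (10 * w)) hc (by omega) ht
  rw [← hh]
  obtain ⟨M, hM, I, hI, hI2⟩ := hend _ _ _ (h2 w (w * L)).2.1 hc'
  exact ⟨_, le_rfl, M, hM, I, hI, hI2⟩

end TSP
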