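import Pool.Agent.TSP.Main2
import Pool.Agent.TSP.Lrg2
import Pool.Agent.TSP.Num2
import Pool.Agent.TSP.Red
import Pool.Agent.TSP.Frt
import Pool.Agent.TSP.End
import Pool.Agent.TSP.Prb
import Pool.Agent.TSP.Rn
import Pool.Agent.TSP.RnP
import Pool.Agent.TSP.RnS
import Pool.Agent.TSP.Rec
import Pool.Agent.TSP.UpB
import Pool.Agent.TSP.Sep
import Pool.Agent.TSP.Rct
import Pool.Agent.TSP.UpC
import Pool.Agent.TSP.UpD

/-!
# TSP: the theorem without hypotheses, second form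
-/

set_option autoImplicit false

namespace TSP

theorem all_Main2 : St_Main2 :=
  thm_Main2 thm_Red (thm_Lrg2 thm_Frt thm_End thm_Prb) thm_Num2
    (thm_UpB thm_Rn (thm_RnP thm_Rn) (thm_RnS thm_Rn) thm_Rec)
    (thm_UpC (thm_Sep thm_Rn (thm_RnP thm_Rn) (thm_RnS thm_Rn)) thm_Rct)
    (thm_UpD (thm_Sep thm_Rn (thm_RnP thm_Rn) (thm_RnS thm_Rn)) thm_Rct)

end TSP
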