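import Pool.Agent.TSP.St3

/-!
# TSP, module MAIN3: assembly, final form
-/

set_option autoImplicit false

namespace TSP

open Finset

private theorem Main3_mono {K w l S T S' T' : ℕ} (h : Cmp K w l S T) (hS : S ≤ S') (hT : T ≤ T') :
    Cmp K w l S' T' := by
  obtain ⟨T1, hT1, M, hM, h⟩ := h
  exact ⟨T1, hT1.trans hT, M, ⟨hM.start, fun t ht => (hM.mem t ht).trans hS, hM.step⟩, h⟩

private theorem Main3_pow {x n n' : ℕ} (hx : 2 ≤ x) (hn : n + 1 ≤ n') : x ^ n + 1 ≤ x ^ n' := by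
  have h1 : 1 ≤ x ^ n := Nat.one_le_pow _ _ (by omega)
  calc x ^ n + 1 ≤ x ^ n * 2 := by omega
    _ ≤ x ^ n * x := Nat.mul_le_mul_left _ hx
    _ = x ^ (n + 1) := (pow_succ x n).symm
    _ ≤ x ^ n' := Nat.pow_le_pow_right (by omega) hn

/-- **Module MAIN3** -/
theorem thm_Main3 (h1 : St_Sup) (h2 : St_PRd) (h3 : St_Tra) (h4 : St_Lrg2) (h5 : St_Num2)
    (h6 : St_Main2) : St_Main3 := by
  obtain ⟨C0, hC0, hN⟩ := h5
  obtain ⟨C2, hC2, hM2⟩ := h6
  set C := C0 + (C2 + 1) with hC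
  refine ⟨C, by omega, ?_⟩
  intro w k L hw hk hkL
  have hw1 : 1 ≤ w := by omega
  have hL : 2 ≤ L := by omega
  have hLk : 2 ≤ L / k := (Nat.le_div_iff_mul_le (by omega)).2 hkL
  obtain ⟨-, u1, u2, u3⟩ := hM2 w k L (by omega) hk hkL
  have hexp : C2 * w + 1 ≤ C * w := by
    have e1 : (C2 + 1) * w ≤ C * w := Nat.mul_le_mul_right _ (by omega)
    have e2 : (C2 + 1) * w = C2 * w + w := by ring
    omega
  refine ⟨?_, ?_, ?_, ?_⟩
  · intro S T M I hS hprog hI hsub
    obtain ⟨-, -, -, -, hsup⟩ := h1 (Fin w × Fin (w * L))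
    obtain ⟨-, hcard, -⟩ := hsup (gr w (w * L))
    by_cases hI0 : I = 0
    · rw [hI0, MvPolynomial.support_zero, card_empty, zero_pow (by omega), zero_mul]
      exact Nat.zero_le _
    · obtain ⟨M', J, hM', hJ, hfull, hset, hJc⟩ :=
        h2 (Fin w × Fin (w * L)) (gr w (w * L)) (k * w ^ 2) S T M I hprog hI hI0 hsub
      have hT : 1 ≤ T := by
        rcases Nat.eq_zero_or_pos T with h | h
        · subst h
          rw [hprog.start] at hI
          exact absurd hI (Finset.notMem_empty _)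
        · exact h
      have hom : I.support.card ≤ (Part (gr w (w * L))).support.card := card_le_card hsub
      refine hN C (by omega) w k L S T _ _ hw hk hkL hT hom hS ?_
      intro J' R l hT' hR hl0 hl hlk
      have h9 := h4 w L (k * w ^ 2) S T M' J hM' hJ hfull hset hw1 J' R l (by omega) hR hl0 hl (by
        calc 2 * (k * w ^ 2) = (2 * k) * (w * w) := by ring
          _ ≤ l * (w * w) := Nat.mul_le_mul_right _ hlk)
      rw [hJc, ← hcard] at h9
      exact h9
  · exact Main3_mono (h3 _ _ _ _ _ u1) (Nat.mul_le_mul_right _ (by omega)) (Main3_pow hLk hexp)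
  · exact Main3_mono (h3 _ _ _ _ _ u2) (Nat.mul_le_mul_right _ (by omega)) (Main3_pow hL hexp)
  · refine Main3_mono (h3 _ _ _ _ _ u3)
      (Nat.pow_le_pow_right (by norm_num) (Nat.mul_le_mul_right _ (by omega))) ?_
    have e1 := Main3_pow (x := 2) le_rfl hexp
    calc 2 ^ (C2 * w) * L + 1 ≤ (2 ^ (C2 * w) + 1) * L := by
          rw [add_mul, one_mul]
          omega
      _ ≤ 2 ^ (C * w) * L := Nat.mul_le_mul_right _ e1

end TSP
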