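import Pool.Agent.TSP.St3

/-!
# TSP, module PRd: from programs with polynomials to programs with sets (MP_4ed1f9_lc)
-/

set_option autoImplicit false

namespace TSP

open Finset MvPolynomial
open scoped BigOperators

namespace PRdx

variable {V : Type}

/-- the degree in the two literals of `v` -/
def dg (e : (V × Bool) →₀ ℕ) (v : V) : ℕ := e (v, false) + e (v, true)

theorem dg_add (e f : (V × Bool) →₀ ℕ) (v : V) : dg (e + f) v = dg e v + dg f v := by
  unfold dg
  simp only [Finsupp.add_apply]
  omega

/-- all elements of the support can be completed by `r` to full assignments -/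
def GoodR [Fintype V] (J : Pol V) (r : (V × Bool) →₀ ℕ) : Prop :=
  ∀ e ∈ J.support, ∃ a : V → Bool, e + r = mon univ a

def Good [Fintype V] (J : Pol V) : Prop := ∃ r, GoodR J r

open Classical in
/-- the variables of `J` -/
noncomputable def XX [Fintype V] (J : Pol V) : Finset V :=
  univ.filter fun v => ∃ e ∈ J.support, dg e v ≠ 0

theorem mem_XX [Fintype V] (J : Pol V) (v : V) : v ∈ XX J ↔ ∃ e ∈ J.support, dg e v ≠ 0 := by
  unfold XX
  simp

theorem mon_congr {W : Finset V} {a b : V → Bool} (h : ∀ v ∈ W, a v = b v) :
    mon W a = mon W b := by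
  unfold mon
  exact Finset.sum_congr rfl fun v hv => by rw [h v hv]

/-- the item of `J` -/
noncomputable def conv [Fintype V] (J : Pol V) : It V where
  vars := XX J
  set := {a | mon (XX J) a ∈ J.support}
  dep := fun a b hab ha => by
    have e : mon (XX J) a = mon (XX J) b := mon_congr hab
    change mon (XX J) a ∈ J.support at ha
    change mon (XX J) b ∈ J.support
    rw [← e]
    exact ha

section vals

variable (h4 : ∀ (W : Finset V) (a : V → Bool) (v : V) (b : Bool),
      (v ∈ W ∧ a v = b → mon W a (v, b) = 1) ∧ (¬ (v ∈ W ∧ a v = b) → mon W a (v, b) = 0))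

include h4

theorem dg_mon_mem (W : Finset V) (a : V → Bool) (v : V) (hv : v ∈ W) : dg (mon W a) v = 1 := by
  unfold dg
  cases hav : a v with
  | false =>
    rw [(h4 W a v false).1 ⟨hv, hav⟩, (h4 W a v true).2 (by simp [hav])]
  | true =>
    rw [(h4 W a v true).1 ⟨hv, hav⟩, (h4 W a v false).2 (by simp [hav])]

theorem mon_not (W : Finset V) (a : V → Bool) (v : V) : mon W a (v, !a v) = 0 :=
  (h4 W a v (!a v)).2 (by simp)

theorem dgr [Fintype V] {J : Pol V} {r : (V × Bool) →₀ ℕ} (hr : GoodR J r)
    {e : (V × Bool) →₀ ℕ} (he : e ∈ J.support) (v : V) : dg e v + dg r v = 1 := by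
  obtain ⟨a, ha⟩ := hr e he
  rw [← dg_add, ha]
  exact dg_mon_mem h4 univ a v (mem_univ v)

theorem dg_of_mem [Fintype V] {J : Pol V} (hJ : Good J)
    {e : (V × Bool) →₀ ℕ} (he : e ∈ J.support) {v : V} (hv : v ∈ XX J) : dg e v = 1 := by
  obtain ⟨r, hr⟩ := hJ
  obtain ⟨e', he', hv'⟩ := (mem_XX J v).1 hv
  have h1 := dgr h4 hr he v
  have h2 := dgr h4 hr he' v
  omega

omit h4 in
theorem dg_of_not [Fintype V] {J : Pol V}
    {e : (V × Bool) →₀ ℕ} (he : e ∈ J.support) {v : V} (hv : v ∉ XX J) : dg e v = 0 := by
  by_contra h
  exact hv ((mem_XX J v).2 ⟨e, he, h⟩)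

theorem dg_le [Fintype V] {J : Pol V} (hJ : Good J)
    {e : (V × Bool) →₀ ℕ} (he : e ∈ J.support) (v : V) : dg e v ≤ 1 := by
  obtain ⟨r, hr⟩ := hJ
  have h1 := dgr h4 hr he v
  omega

/-- an element of the support compatible with `a` is `mon (XX J) a` -/
theorem eq_mon [Fintype V] {J : Pol V} (hJ : Good J)
    {e : (V × Bool) →₀ ℕ} (he : e ∈ J.support) (a : V → Bool) (ha : ∀ v, e (v, !a v) = 0) :
    e = mon (XX J) a := by
  ext ⟨v, b⟩
  by_cases hv : v ∈ XX J
  · have h1 := dg_of_mem h4 hJ he hv
    have h2 := ha v
    by_cases hb : a v = b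
    · rw [(h4 (XX J) a v b).1 ⟨hv, hb⟩]
      unfold dg at h1
      cases hav : a v with
      | false =>
        rw [hav] at h2 hb
        simp only [Bool.not_false] at h2
        rw [← hb]
        omega
      | true =>
        rw [hav] at h2 hb
        simp only [Bool.not_true] at h2
        rw [← hb]
        omega
    · rw [(h4 (XX J) a v b).2 (fun h => hb h.2)]
      have : b = !a v := by
        cases b <;> cases hav : a v <;> simp_all
      rw [this]
      exact h2
  · have h1 := dg_of_not he hv
    rw [(h4 (XX J) a v b).2 (fun h => hv h.1)]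
    unfold dg at h1
    cases b <;> omega

end vals

theorem good_zero [Fintype V] : Good (0 : Pol V) := ⟨0, by intro e he; simp at he⟩

theorem XX_zero [Fintype V] : XX (0 : Pol V) = ∅ := by
  ext v
  rw [mem_XX]
  simp

end PRdx

open PRdx

theorem thm_PRd (h : St_Sup) : St_PRd := by
  classical
  intro V _ G K S T M I hP hI hI0 hsub
  obtain ⟨s1, s2, s3, h4, h5⟩ := h V
  obtain ⟨s5, s6, s7⟩ := h5 G
  set M' : ℕ → Finset (It V) := fun t => ((M t).filter fun J => Good J).image conv with hM'
  have memM' : ∀ t J, J ∈ M' t ↔ ∃ J₀, (J₀ ∈ M t ∧ Good J₀) ∧ conv J₀ = J := by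
    intro t J
    simp only [hM', mem_image, mem_filter]
  have GI : Good I := ⟨0, fun e he => by
    obtain ⟨a, _, ha⟩ := (s5 e).1 (hsub he)
    exact ⟨a, by rw [add_zero, ha]⟩⟩
  have XI : XX I = univ := by
    obtain ⟨e, he⟩ := Finset.nonempty_iff_ne_empty.2
      (fun h0 => hI0 (MvPolynomial.support_eq_empty.1 h0))
    obtain ⟨a, _, ha⟩ := (s5 e).1 (hsub he)
    ext v
    simp only [mem_univ, iff_true]
    rw [mem_XX]
    refine ⟨e, he, ?_⟩
    rw [ha, dg_mon_mem h4 univ a v (mem_univ v)]
    exact one_ne_zero
  refine ⟨M', conv I, ?_, (memM' T _).2 ⟨I, ⟨hI, GI⟩, rfl⟩, ?_, ?_, ?_⟩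
  · refine ⟨?_, ?_, ?_⟩
    · simp only [hM', hP.start, Finset.filter_empty, Finset.image_empty]
    · intro t ht
      exact (Finset.card_image_le.trans (Finset.card_filter_le _ _)).trans (hP.mem t ht)
    · intro t ht
      obtain ⟨P, hDer, hst⟩ := hP.step t ht
      by_cases hG : Good P
      swap
      · refine ⟨⟨∅, ∅, fun a b _ h => h⟩, Or.inl (by simp), ?_⟩
        intro J hJ
        obtain ⟨J₀, ⟨hJ₀, hg⟩, rfl⟩ := (memM' _ _).1 hJ
        right
        rcases hst J₀ hJ₀ with h1 | h1
        · exact absurd (h1 ▸ hg) hG
        · exact (memM' _ _).2 ⟨J₀, ⟨h1, hg⟩, rfl⟩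
      · refine ⟨conv P, ?_, ?_⟩
        swap
        · intro J hJ
          obtain ⟨J₀, ⟨hJ₀, hg⟩, rfl⟩ := (memM' _ _).1 hJ
          rcases hst J₀ hJ₀ with h1 | h1
          · left
            rw [h1]
          · right
            exact (memM' _ _).2 ⟨J₀, ⟨h1, hg⟩, rfl⟩
        · by_cases hP0 : P = 0
          · left
            show (XX P).card ≤ K
            rw [hP0, XX_zero]
            simp
          obtain ⟨r, hr⟩ := hG
          have hG : Good P := ⟨r, hr⟩
          rcases hDer with ⟨U, hU, hUv⟩ | ⟨c, Y, hc⟩ | ⟨J, hJ, L, hL, hJL⟩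
          · left
            refine (Finset.card_le_card ?_).trans hU
            intro v hv
            obtain ⟨e, he, hev⟩ := (mem_XX P v).1 hv
            unfold dg at hev
            rcases (by omega : e (v, false) ≠ 0 ∨ e (v, true) ≠ 0) with hb | hb
            · exact hUv (v, false) ((MvPolynomial.mem_vars_iff_mem_support _).2
                ⟨e, he, Finsupp.mem_support_iff.2 hb⟩)
            · exact hUv (v, true) ((MvPolynomial.mem_vars_iff_mem_support _).2
                ⟨e, he, Finsupp.mem_support_iff.2 hb⟩)
          · right
            left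
            -- the elements of the support of `P`
            have key : ∀ J ∈ M t, c J ≠ 0 → ∀ e ∈ J.support, ∀ b : V → Bool,
                e + mon (Y J) b ∈ P.support := by
              intro J hJ hcJ e he b
              rw [hc, s2]
              refine ⟨J, hJ, hcJ, ?_⟩
              rw [s1]
              exact ⟨e, he, mon (Y J) b, (s3 _ _).2 ⟨b, rfl⟩, rfl⟩
            have good : ∀ J ∈ M t, c J ≠ 0 → Good J := by
              intro J hJ hcJ
              refine ⟨mon (Y J) (fun _ => false) + r, ?_⟩
              intro e he
              obtain ⟨a, ha⟩ := hr _ (key J hJ hcJ e he (fun _ => false))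
              exact ⟨a, by rw [← add_assoc]; exact ha⟩
            refine ⟨((M t).filter fun J => c J ≠ 0).image conv, ?_, ?_, ?_⟩
            · intro J hJ
              obtain ⟨J₀, hJ₀, rfl⟩ := mem_image.1 hJ
              rw [mem_filter] at hJ₀
              exact (memM' _ _).2 ⟨J₀, ⟨hJ₀.1, good J₀ hJ₀.1 hJ₀.2⟩, rfl⟩
            · intro J hJ
              obtain ⟨J₀, hJ₀, rfl⟩ := mem_image.1 hJ
              rw [mem_filter] at hJ₀
              intro v hv
              obtain ⟨e, he, hev⟩ := (mem_XX J₀ v).1 hv
              refine (mem_XX P v).2 ⟨_, key J₀ hJ₀.1 hJ₀.2 e he (fun _ => false), ?_⟩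
              rw [dg_add]
              omega
            · intro a
              constructor
              · intro ha
                have ha' : mon (XX P) a ∈ P.support := ha
                rw [hc, s2] at ha'
                obtain ⟨J, hJ, hcJ, hm⟩ := ha'
                rw [s1] at hm
                obtain ⟨e, he, f, _, hef⟩ := hm
                refine ⟨conv J, mem_image.2 ⟨J, mem_filter.2 ⟨hJ, hcJ⟩, rfl⟩, ?_⟩
                show mon (XX J) a ∈ J.support
                rw [← eq_mon h4 (good J hJ hcJ) he a ?_]
                · exact he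
                · intro v
                  have h1 : (e + f) (v, !a v) = 0 := by
                    rw [hef, ← hc]
                    exact mon_not h4 _ a v
                  rw [Finsupp.add_apply] at h1
                  omega
              · rintro ⟨J, hJ, ha⟩
                obtain ⟨J₀, hJ₀, rfl⟩ := mem_image.1 hJ
                rw [mem_filter] at hJ₀
                have ha' : mon (XX J₀) a ∈ J₀.support := ha
                have h1 := key J₀ hJ₀.1 hJ₀.2 _ ha' a
                show mon (XX P) a ∈ P.support
                rw [← eq_mon h4 hG h1 a ?_]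
                · exact h1
                · intro v
                  rw [Finsupp.add_apply, mon_not h4, mon_not h4]
          · right
            right
            have key : ∀ e ∈ J.support, ∀ f ∈ L.support, e + f ∈ P.support := by
              intro e he f hf
              rw [hJL, s1]
              exact ⟨e, he, f, hf, rfl⟩
            have hJ0 : J ≠ 0 := fun h0 => hP0 (by rw [hJL, h0, zero_mul])
            have hL0 : L ≠ 0 := fun h0 => hP0 (by rw [hJL, h0, mul_zero])
            obtain ⟨e₀, he₀⟩ := Finset.nonempty_iff_ne_empty.2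
              (fun h0 => hJ0 (MvPolynomial.support_eq_empty.1 h0))
            obtain ⟨f₀, hf₀⟩ := Finset.nonempty_iff_ne_empty.2
              (fun h0 => hL0 (MvPolynomial.support_eq_empty.1 h0))
            have gJ : Good J := by
              refine ⟨f₀ + r, fun e he => ?_⟩
              obtain ⟨a, ha⟩ := hr _ (key e he f₀ hf₀)
              exact ⟨a, by rw [← add_assoc]; exact ha⟩
            have gL : Good L := by
              refine ⟨e₀ + r, fun f hf => ?_⟩
              obtain ⟨a, ha⟩ := hr _ (key e₀ he₀ f hf)
              exact ⟨a, by rw [← add_assoc, add_comm f e₀]; exact ha⟩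
            refine ⟨conv J, (memM' _ _).2 ⟨J, ⟨hJ, gJ⟩, rfl⟩, conv L,
              (memM' _ _).2 ⟨L, ⟨hL, gL⟩, rfl⟩, ?_, ?_, ?_⟩
            · show Disjoint (XX J) (XX L)
              rw [Finset.disjoint_left]
              intro v hv hv'
              have h1 := dg_of_mem h4 gJ he₀ hv
              have h2 := dg_of_mem h4 gL hf₀ hv'
              have h3 := dg_le h4 hG (key e₀ he₀ f₀ hf₀) v
              rw [dg_add] at h3
              omega
            · intro v
              show v ∈ XX P ↔ v ∈ XX J ∨ v ∈ XX L
              constructor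
              · intro hv
                obtain ⟨g, hg, hgv⟩ := (mem_XX P v).1 hv
                rw [hJL, s1] at hg
                obtain ⟨e, he, f, hf, hef⟩ := hg
                rw [← hef, dg_add] at hgv
                rcases (by omega : dg e v ≠ 0 ∨ dg f v ≠ 0) with h1 | h1
                · exact Or.inl ((mem_XX J v).2 ⟨e, he, h1⟩)
                · exact Or.inr ((mem_XX L v).2 ⟨f, hf, h1⟩)
              · rintro (hv | hv)
                · obtain ⟨e, he, hev⟩ := (mem_XX J v).1 hv
                  refine (mem_XX P v).2 ⟨_, key e he f₀ hf₀, ?_⟩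
                  rw [dg_add]
                  omega
                · obtain ⟨f, hf, hfv⟩ := (mem_XX L v).1 hv
                  refine (mem_XX P v).2 ⟨_, key e₀ he₀ f hf, ?_⟩
                  rw [dg_add]
                  omega
            · intro a
              show mon (XX P) a ∈ P.support ↔ mon (XX J) a ∈ J.support ∧ mon (XX L) a ∈ L.support
              constructor
              · intro ha
                have ha2 := ha
                rw [hJL, s1] at ha2
                obtain ⟨e, he, f, hf, hef⟩ := ha2
                rw [← hJL] at hef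
                have h1 : ∀ v, e (v, !a v) + f (v, !a v) = 0 := by
                  intro v
                  rw [← Finsupp.add_apply, hef]
                  exact mon_not h4 _ a v
                constructor
                · rw [← eq_mon h4 gJ he a (fun v => by have := h1 v; omega)]
                  exact he
                · rw [← eq_mon h4 gL hf a (fun v => by have := h1 v; omega)]
                  exact hf
              · rintro ⟨h1, h2⟩
                have h3 := key _ h1 _ h2
                rw [← eq_mon h4 hG h3 a ?_]
                · exact h3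
                · intro v
                  rw [Finsupp.add_apply, mon_not h4, mon_not h4]
  · intro v
    show v ∈ XX I
    rw [XI]
    exact mem_univ v
  · intro a ha
    have ha' : mon (XX I) a ∈ I.support := ha
    rw [XI] at ha'
    obtain ⟨a', hM, he⟩ := (s5 _).1 (hsub ha')
    have : a = a' := by
      funext v
      by_contra hne
      have h1 := (h4 univ a v (a v)).1 ⟨mem_univ v, rfl⟩
      rw [he] at h1
      have h2 := (h4 univ a' v (a v)).2 (fun hh => hne hh.2.symm)
      omega
    rw [this]
    exact hM
  · have : (conv I).set = {a | mon univ a ∈ I.support} := by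
      ext a
      show mon (XX I) a ∈ I.support ↔ mon univ a ∈ I.support
      rw [XI]
    rw [this]
    exact s7 I hsub

end TSP
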