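import Pool.Agent.TSP.St3

/-!
# TSP, module SUP: supports of polynomials with nonnegative coefficients
-/

set_option autoImplicit false

namespace TSP

open Finset MvPolynomial
open scoped BigOperators

private theorem Sup_mul {V : Type} (p q : Pol V) (m : (V × Bool) →₀ ℕ) : m ∈ (p * q).support ↔
    ∃ e ∈ p.support, ∃ f ∈ q.support, e + f = m := by
  classical
  rw [mem_support_iff, coeff_mul, Ne, Finset.sum_eq_zero_iff]
  push Not
  constructor
  · rintro ⟨x, hx, h⟩
    rw [HasAntidiagonal.mem_antidiagonal] at hx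
    exact ⟨x.1, mem_support_iff.2 (left_ne_zero_of_mul h), x.2,
      mem_support_iff.2 (right_ne_zero_of_mul h), hx⟩
  · rintro ⟨e, he, f, hf, h⟩
    exact ⟨(e, f), HasAntidiagonal.mem_antidiagonal.2 h,
      mul_ne_zero (mem_support_iff.1 he) (mem_support_iff.1 hf)⟩

private theorem Sup_val {V : Type} (W : Finset V) (a : V → Bool) (v : V) (b : Bool) :
    (v ∈ W ∧ a v = b → mon W a (v, b) = 1) ∧ (¬ (v ∈ W ∧ a v = b) → mon W a (v, b) = 0) := by
  classical
  have h : mon W a (v, b) = ∑ u ∈ W, if (u, a u) = (v, b) then 1 else 0 := by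
    unfold mon
    rw [Finsupp.finsetSum_apply]
    exact Finset.sum_congr rfl fun u _ => by rw [Finsupp.single_apply]
  rw [h]
  constructor
  · rintro ⟨hv, hb⟩
    rw [Finset.sum_eq_single v]
    · rw [if_pos (by rw [hb])]
    · intro u _ hu
      rw [if_neg]
      intro h1
      exact hu (Prod.ext_iff.1 h1).1
    · exact fun h1 => absurd hv h1
  · intro h1
    apply Finset.sum_eq_zero
    intro u hu
    rw [if_neg]
    intro h2
    obtain ⟨h3, h4⟩ := Prod.ext_iff.1 h2
    simp only at h3 h4
    subst h3
    exact h1 ⟨hu, h4⟩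

private theorem Sup_two {V : Type} (v : V) (m : (V × Bool) →₀ ℕ) :
    m ∈ (X (v, false) + X (v, true) : Pol V).support ↔ ∃ b : Bool, m = Finsupp.single (v, b) 1 := by
  classical
  rw [mem_support_iff, coeff_add, coeff_X, coeff_X]
  constructor
  · intro h
    by_cases h1 : Finsupp.single (v, false) 1 = m
    · exact ⟨false, h1.symm⟩
    · by_cases h2 : Finsupp.single (v, true) 1 = m
      · exact ⟨true, h2.symm⟩
      · rw [if_neg h1, if_neg h2, add_zero] at h
        exact absurd rfl h
  · rintro ⟨b, rfl⟩
    cases b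
    · rw [if_pos rfl]
      positivity
    · rw [if_pos (rfl : Finsupp.single (v, true) 1 = Finsupp.single (v, true) 1)]
      positivity

private theorem Sup_cube {V : Type} (Y : Finset V) : ∀ (m : (V × Bool) →₀ ℕ),
    m ∈ (∏ v ∈ Y, (X (v, false) + X (v, true)) : Pol V).support ↔ ∃ b : V → Bool, m = mon Y b := by
  classical
  induction Y using Finset.induction_on with
  | empty =>
    intro m
    rw [prod_empty, mem_support_iff, coeff_one]
    constructor
    · intro h
      by_cases h1 : 0 = m
      · exact ⟨fun _ => true, by rw [← h1]; simp [mon]⟩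
      · rw [if_neg h1] at h
        exact absurd rfl h
    · rintro ⟨b, rfl⟩
      simp [mon]
  | insert v Y hv ih =>
    intro m
    rw [prod_insert hv, Sup_mul]
    constructor
    · rintro ⟨e, he, f, hf, rfl⟩
      obtain ⟨c, rfl⟩ := (Sup_two v e).1 he
      obtain ⟨b, rfl⟩ := (ih f).1 hf
      refine ⟨fun u => if u = v then c else b u, ?_⟩
      unfold mon
      rw [sum_insert hv]
      have h1 : (if v = v then c else b v) = c := if_pos rfl
      show _ = Finsupp.single (v, if v = v then c else b v) 1 + _
      rw [h1]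
      congr 1
      refine sum_congr rfl fun u hu => ?_
      have h3 : ¬ u = v := by
        rintro rfl
        exact hv hu
      have h2 : (if u = v then c else b u) = b u := if_neg h3
      show _ = Finsupp.single (u, if u = v then c else b u) 1
      rw [h2]
    · rintro ⟨b, rfl⟩
      refine ⟨_, (Sup_two v _).2 ⟨b v, rfl⟩, _, (ih _).2 ⟨b, rfl⟩, ?_⟩
      unfold mon
      rw [sum_insert hv]

private theorem Sup_inj {V : Type} [Fintype V] {a b : V → Bool} (h : mon univ a = mon univ b) :
    a = b := by
  funext v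
  have h1 := (Sup_val univ a v (a v)).1 ⟨mem_univ _, rfl⟩
  rw [h] at h1
  by_contra hne
  have h2 := (Sup_val univ b v (a v)).2 (fun h3 => hne h3.2.symm)
  omega

private theorem Sup_prod {V : Type} [Fintype V] (a : V → Bool) :
    (∏ v, X (v, a v) : Pol V) = monomial (mon univ a) 1 := by
  classical
  have : ∀ W : Finset V, (∏ v ∈ W, X (v, a v) : Pol V) = monomial (mon W a) 1 := by
    intro W
    induction W using Finset.induction_on with
    | empty => simp [mon]
    | insert v W hv ih =>
      rw [prod_insert hv, ih]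
      unfold mon
      rw [sum_insert hv, X, monomial_mul, one_mul]
  exact this univ

private theorem Sup_part {V : Type} [Fintype V] (G : SimpleGraph V) (m : (V × Bool) →₀ ℕ) :
    m ∈ (Part G).support ↔ ∃ a ∈ Mod G, m = mon univ a := by
  classical
  rw [mem_support_iff]
  unfold Part
  rw [coeff_sum, Ne, Finset.sum_eq_zero_iff]
  push Not
  constructor
  · rintro ⟨a, ha, h⟩
    rw [mem_filter] at ha
    rw [Sup_prod, coeff_monomial] at h
    by_cases h1 : mon univ a = m
    · exact ⟨a, ha.2, h1.symm⟩
    · rw [if_neg h1] at h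
      exact absurd rfl h
  · rintro ⟨a, ha, rfl⟩
    refine ⟨a, mem_filter.2 ⟨mem_univ _, ha⟩, ?_⟩
    rw [Sup_prod, coeff_monomial, if_pos rfl]
    exact one_ne_zero

private theorem Sup_card {V : Type} [Fintype V] (I : Pol V) (h : ∀ m ∈ I.support, ∃ a : V → Bool, m = mon univ a) :
    {a | mon univ a ∈ I.support}.ncard = I.support.card := by
  classical
  rw [← Set.ncard_coe_finset I.support]
  refine Set.ncard_congr (fun a _ => mon univ a) (fun a ha => ha) (fun a b _ _ hab => Sup_inj hab) ?_
  intro m hm
  obtain ⟨a, rfl⟩ := h m hm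
  exact ⟨a, hm, rfl⟩

/-- **Module SUP** -/
theorem thm_Sup : St_Sup := by
  classical
  intro V
  refine ⟨Sup_mul, ?_, Sup_cube, Sup_val, ?_⟩
  · intro M g c m
    rw [mem_support_iff, coeff_sum, Ne, Finset.sum_eq_zero_iff]
    push Not
    constructor
    · rintro ⟨J, hJ, h⟩
      rw [mul_assoc, coeff_C_mul] at h
      exact ⟨J, hJ, left_ne_zero_of_mul h, mem_support_iff.2 (right_ne_zero_of_mul h)⟩
    · rintro ⟨J, hJ, hc, h⟩
      refine ⟨J, hJ, ?_⟩
      rw [mul_assoc, coeff_C_mul]
      exact mul_ne_zero hc (mem_support_iff.1 h)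
  · intro _ G
    refine ⟨Sup_part G, ?_, ?_⟩
    · have h1 := Sup_card (Part G) fun m hm => by
        obtain ⟨a, -, h⟩ := (Sup_part G m).1 hm
        exact ⟨a, h⟩
      rw [← h1]
      congr 1
      ext a
      show mon univ a ∈ (Part G).support ↔ a ∈ Mod G
      rw [Sup_part]
      constructor
      · rintro ⟨b, hb, h⟩
        rw [Sup_inj h]
        exact hb
      · exact fun h => ⟨a, h, rfl⟩
    · intro I hI
      refine Sup_card I fun m hm => ?_
      obtain ⟨a, -, h⟩ := (Sup_part G m).1 (hI hm)
      exact ⟨a, h⟩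

end TSP
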