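import Pool.Agent.TSP.St3

/-!
# TSP, module TRA: from programs with items to programs with polynomials
-/

set_option autoImplicit false

namespace TSP

open Finset MvPolynomial
open scoped BigOperators

section general

variable {V : Type} [Fintype V]

open Classical in
private noncomputable def Tra_B (W : Finset V) : Finset (V → Bool) :=
  univ.filter fun b => ∀ v, v ∉ W → b v = false

private theorem Tra_memB {W : Finset V} {b : V → Bool} :
    b ∈ Tra_B W ↔ ∀ v, v ∉ W → b v = false := by
  unfold Tra_B
  simp

private noncomputable def Tra_H (W : Finset V) (g : (V → Bool) → NNReal) : Pol V :=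
  ∑ b ∈ Tra_B W, monomial (mon W b) (g b)

omit [Fintype V] in
private theorem Tra_mon_union {W W' U : Finset V} (hd : Disjoint W W')
    (hU : ∀ v, v ∈ U ↔ v ∈ W ∨ v ∈ W') (c : V → Bool) : mon U c = mon W c + mon W' c := by
  classical
  have e : U = W ∪ W' := by
    ext v
    rw [hU, Finset.mem_union]
  unfold mon
  rw [e, Finset.sum_union hd]

omit [Fintype V] in
private theorem Tra_mon_congr {W : Finset V} {b c : V → Bool} (h : ∀ v ∈ W, b v = c v) :
    mon W b = mon W c := by
  unfold mon
  refine Finset.sum_congr rfl fun v hv => ?_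
  rw [h v hv]

private theorem Tra_mul {W W' U : Finset V} {g h : (V → Bool) → NNReal}
    (hg : ∀ a b : V → Bool, (∀ v ∈ W, a v = b v) → g a = g b)
    (hh : ∀ a b : V → Bool, (∀ v ∈ W', a v = b v) → h a = h b)
    (hd : Disjoint W W') (hU : ∀ v, v ∈ U ↔ v ∈ W ∨ v ∈ W') :
    Tra_H W g * Tra_H W' h = Tra_H U (fun a => g a * h a) := by
  classical
  have hd1 : ∀ v, v ∈ W → v ∉ W' := fun v h1 h2 => (Finset.disjoint_left.mp hd) h1 h2
  unfold Tra_H
  rw [Finset.sum_mul_sum, ← Finset.sum_product']
  refine Finset.sum_nbij' (fun p => fun v => p.1 v || p.2 v)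
    (fun c => (fun v => if v ∈ W then c v else false, fun v => if v ∈ W' then c v else false))
    ?_ ?_ ?_ ?_ ?_
  · rintro ⟨b, b'⟩ hp
    rw [Finset.mem_product] at hp
    have h1 := Tra_memB.mp hp.1
    have h2 := Tra_memB.mp hp.2
    rw [Tra_memB]
    intro v hv
    rw [hU] at hv
    push Not at hv
    simp only at h1 h2
    simp [h1 v hv.1, h2 v hv.2]
  · intro c hc
    rw [Finset.mem_product, Tra_memB, Tra_memB]
    exact ⟨fun v hv => by simp [hv], fun v hv => by simp [hv]⟩
  · rintro ⟨b, b'⟩ hp
    rw [Finset.mem_product] at hp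
    have h1 := Tra_memB.mp hp.1
    have h2 := Tra_memB.mp hp.2
    simp only at h1 h2
    ext v
    · by_cases hv : v ∈ W
      · simp [hv, h2 v (hd1 v hv)]
      · simp [hv, h1 v hv]
    · by_cases hv : v ∈ W'
      · have : v ∉ W := fun h => hd1 v h hv
        simp [hv, h1 v this]
      · simp [hv, h2 v hv]
  · intro c hc
    have h1 := Tra_memB.mp hc
    funext v
    by_cases hv : v ∈ W
    · simp [hv]
    · by_cases hv' : v ∈ W'
      · simp [hv, hv']
      · have : v ∉ U := by
          rw [hU]
          tauto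
        simp [hv, hv', h1 v this]
  · rintro ⟨b, b'⟩ hp
    rw [Finset.mem_product] at hp
    have h1 := Tra_memB.mp hp.1
    have h2 := Tra_memB.mp hp.2
    simp only at h1 h2 ⊢
    have e1 : ∀ v ∈ W, b v = (b v || b' v) := by
      intro v hv
      simp [h2 v (hd1 v hv)]
    have e2 : ∀ v ∈ W', b' v = (b v || b' v) := by
      intro v hv
      have : v ∉ W := fun h => hd1 v h hv
      simp [h1 v this]
    rw [monomial_mul, Tra_mon_union hd hU (fun v => b v || b' v), Tra_mon_congr e1,
      Tra_mon_congr e2, ← hg b (fun v => b v || b' v) e1, ← hh b' (fun v => b v || b' v) e2]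

private theorem Tra_C (W : Finset V) (g : (V → Bool) → NNReal) (c : NNReal) :
    MvPolynomial.C c * Tra_H W g = Tra_H W (fun a => c * g a) := by
  unfold Tra_H
  rw [Finset.mul_sum]
  refine Finset.sum_congr rfl fun b _ => ?_
  rw [C_mul_monomial]

private theorem Tra_sum {ι : Type} (s : Finset ι) (W : Finset V) (g : ι → (V → Bool) → NNReal) :
    ∑ i ∈ s, Tra_H W (g i) = Tra_H W (fun a => ∑ i ∈ s, g i a) := by
  unfold Tra_H
  rw [Finset.sum_comm]
  refine Finset.sum_congr rfl fun b _ => ?_
  rw [map_sum]

private theorem Tra_H_congr {W : Finset V} {g h : (V → Bool) → NNReal} (e : ∀ a, g a = h a) :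
    Tra_H W g = Tra_H W h := by
  have : g = h := funext e
  rw [this]

private theorem Tra_empty : Tra_H (∅ : Finset V) (fun _ => 1) = 1 := by
  classical
  unfold Tra_H
  have e : Tra_B (∅ : Finset V) = {fun _ => false} := by
    ext b
    rw [Tra_memB, Finset.mem_singleton]
    exact ⟨fun h => funext fun v => h v (Finset.notMem_empty v), fun h v _ => by rw [h]⟩
  rw [e, Finset.sum_singleton]
  unfold mon
  rw [Finset.sum_empty]
  rfl

private theorem Tra_single (v : V) :
    Tra_H ({v} : Finset V) (fun _ => 1) = X (v, false) + X (v, true) := by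
  classical
  unfold Tra_H
  have e : Tra_B ({v} : Finset V) = {fun _ => false, fun u => decide (u = v)} := by
    ext b
    rw [Tra_memB, Finset.mem_insert, Finset.mem_singleton]
    constructor
    · intro h
      cases hb : b v with
      | false =>
        left
        funext u
        by_cases hu : u = v
        · rw [hu, hb]
        · exact h u (by simpa using hu)
      | true =>
        right
        funext u
        by_cases hu : u = v
        · rw [hu, hb]
          simp
        · rw [h u (by simpa using hu)]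
          simp [hu]
    · rintro (h | h) u hu
      · rw [h]
      · rw [h]
        simpa using hu
  have hne : (fun _ : V => false) ≠ (fun u => decide (u = v)) := by
    intro h
    have := congrFun h v
    simp at this
  rw [e, Finset.sum_pair hne]
  unfold mon
  rw [Finset.sum_singleton, Finset.sum_singleton]
  simp only [decide_true]
  rfl

private theorem Tra_prod (Y : Finset V) :
    (∏ v ∈ Y, (X (v, false) + X (v, true)) : Pol V) = Tra_H Y (fun _ => 1) := by
  classical
  induction Y using Finset.induction_on with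
  | empty => rw [Finset.prod_empty, Tra_empty]
  | insert v Y hv ih =>
    rw [Finset.prod_insert hv, ih, ← Tra_single]
    rw [Tra_mul (U := insert v Y) (fun _ _ _ => rfl) (fun _ _ _ => rfl)
      (by simpa using hv) (by simp)]
    exact Tra_H_congr fun _ => by simp

private theorem Tra_vars {W : Finset V} {g : (V → Bool) → NNReal} {x : V × Bool}
    (hx : x ∈ (Tra_H W g).vars) : x.1 ∈ W := by
  classical
  rw [mem_vars_iff_mem_support] at hx
  obtain ⟨d, hd, hxd⟩ := hx
  unfold Tra_H at hd
  have h1 := support_sum hd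
  rw [Finset.mem_biUnion] at h1
  obtain ⟨b, _, hb⟩ := h1
  have h2 := support_monomial_subset hb
  rw [Finset.mem_singleton] at h2
  rw [h2] at hxd
  unfold mon at hxd
  have h3 := Finsupp.support_finsetSum hxd
  rw [Finset.mem_biUnion] at h3
  obtain ⟨v, hv, hx3⟩ := h3
  have h4 := Finsupp.support_single_subset hx3
  rw [Finset.mem_singleton] at h4
  rw [h4]
  exact hv

omit [Fintype V] in
private theorem Tra_mon_apply (W : Finset V) (b : V → Bool) (v : V) :
    mon W b (v, false) + mon W b (v, true) = 1 ↔ v ∈ W := by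
  classical
  have key : ∀ c : Bool, mon W b (v, c) = if v ∈ W ∧ b v = c then 1 else 0 := by
    intro c
    unfold mon
    rw [Finsupp.finsetSum_apply]
    have : ∀ u ∈ W, (Finsupp.single (u, b u) 1 : (V × Bool) →₀ ℕ) (v, c) =
        if u = v then (if b v = c then 1 else 0) else 0 := by
      intro u _
      rw [Finsupp.single_apply]
      by_cases hu : u = v
      · subst hu
        simp
      · simp [hu]
    rw [Finset.sum_congr rfl this, Finset.sum_ite_eq']
    by_cases h1 : v ∈ W <;> by_cases h2 : b v = c <;> simp [h1, h2]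
  rw [key, key]
  by_cases h1 : v ∈ W
  · cases hb : b v <;> simp [h1]
  · simp [h1]

private theorem Tra_same {W W' : Finset V} {g h : (V → Bool) → NNReal}
    (e : Tra_H W g = Tra_H W' h) (hne : Tra_H W g ≠ 0) : W = W' := by
  classical
  obtain ⟨d, hd⟩ := support_nonempty.mpr hne
  have hd' := hd
  rw [e] at hd'
  have ex : ∀ (W : Finset V) (g : (V → Bool) → NNReal), d ∈ (Tra_H W g).support →
      ∃ b, d = mon W b := by
    intro W g hd
    unfold Tra_H at hd
    have h1 := support_sum hd
    rw [Finset.mem_biUnion] at h1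
    obtain ⟨b, _, hb⟩ := h1
    have h2 := support_monomial_subset hb
    rw [Finset.mem_singleton] at h2
    exact ⟨b, h2⟩
  obtain ⟨b, hb⟩ := ex W g hd
  obtain ⟨b', hb'⟩ := ex W' h hd'
  ext v
  rw [← Tra_mon_apply W b v, ← Tra_mon_apply W' b' v, ← hb, ← hb']

/-- the function of an item with values in the nonnegative reals -/
private def Tra_f (I : Item V) (a : V → Bool) : NNReal := ⟨I.f a, I.nonneg a⟩

omit [Fintype V] in
private theorem Tra_f_dep (I : Item V) (a b : V → Bool) (h : ∀ v ∈ I.vars, a v = b v) :
    Tra_f I a = Tra_f I b := by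
  unfold Tra_f
  exact Subtype.ext (I.dep a b h)

/-- the polynomial of an item -/
private noncomputable def Tra_pol (I : Item V) : Pol V := Tra_H I.vars (Tra_f I)

/-- the polynomial of an item times free factors -/
private theorem Tra_ext (I : Item V) {U Y : Finset V} (hd : Disjoint I.vars Y)
    (hU : ∀ v, v ∈ U ↔ v ∈ I.vars ∨ v ∈ Y) :
    Tra_pol I * ∏ v ∈ Y, (X (v, false) + X (v, true)) = Tra_H U (Tra_f I) := by
  rw [Tra_prod]
  unfold Tra_pol
  rw [Tra_mul (Tra_f_dep I) (fun _ _ _ => rfl) hd hU]
  exact Tra_H_congr fun _ => mul_one _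

/-- the polynomials of the items -/
private noncomputable def Tra_img (M : Finset (Item V)) : Finset (Pol V) :=
  @Finset.image _ _ (Classical.decEq _) Tra_pol M

private theorem Tra_img_mem {M : Finset (Item V)} {P : Pol V} :
    P ∈ Tra_img M ↔ ∃ J ∈ M, Tra_pol J = P :=
  @Finset.mem_image _ _ (Classical.decEq _) Tra_pol M P

private theorem Tra_img_card (M : Finset (Item V)) : (Tra_img M).card ≤ M.card :=
  @Finset.card_image_le _ _ M Tra_pol (Classical.decEq _)

private theorem Tra_img_empty : Tra_img (∅ : Finset (Item V)) = ∅ :=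
  @Finset.image_empty _ _ (Classical.decEq _) Tra_pol

open Classical in
private theorem Tra_der {K : ℕ} {M : Finset (Item V)} {I : Item V} (h : Der K M I) :
    DerP K (Tra_img M) (Tra_pol I) := by
  rcases h with h | ⟨c, hc, hI⟩ | ⟨J, hJ, L, hL, hd, hU, hI⟩
  · left
    exact ⟨I.vars, h, fun x hx => Tra_vars hx⟩
  · right
    left
    let c' : Item V → NNReal := fun J => Real.toNNReal (c J)
    have hc' : ∀ J ∈ M, ((c' J : NNReal) : ℝ) = c J := fun J hJ =>
      Real.coe_toNNReal _ (hc J hJ).1
    let sel : Pol V → Finset V := fun P =>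
      if h : ∃ J ∈ M, Tra_pol J = P then h.choose.vars else ∅
    have hsel : ∀ J ∈ M, Tra_pol J ≠ 0 → sel (Tra_pol J) = J.vars := by
      intro J hJ hne
      have hex : ∃ J' ∈ M, Tra_pol J' = Tra_pol J := ⟨J, hJ, rfl⟩
      have e : sel (Tra_pol J) = hex.choose.vars := dif_pos hex
      rw [e]
      have h2 := hex.choose_spec.2
      exact Tra_same h2 (by rw [← h2] at hne; exact hne)
    refine ⟨fun P => ∑ J ∈ M.filter (fun J => Tra_pol J = P), c' J,
      fun P => I.vars \ sel P, ?_⟩
    have step1 : Tra_pol I = ∑ J ∈ M,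
        MvPolynomial.C (c' J) * Tra_pol J * ∏ v ∈ I.vars \ J.vars, (X (v, false) + X (v, true)) := by
      have : ∀ J ∈ M, MvPolynomial.C (c' J) * Tra_pol J *
          ∏ v ∈ I.vars \ J.vars, (X (v, false) + X (v, true)) =
            Tra_H I.vars (fun a => c' J * Tra_f J a) := by
        intro J hJ
        by_cases h0 : c J = 0
        · have e0 : c' J = 0 := by
            show Real.toNNReal (c J) = 0
            rw [h0, Real.toNNReal_zero]
          rw [e0]
          simp only [map_zero, zero_mul]
          unfold Tra_H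
          simp
        · have hsub := (hc J hJ).2 h0
          rw [mul_assoc, Tra_ext J (U := I.vars) Finset.disjoint_sdiff (by
            intro v
            rw [Finset.mem_sdiff]
            constructor
            · intro hv
              by_cases h : v ∈ J.vars
              · exact Or.inl h
              · exact Or.inr ⟨hv, h⟩
            · rintro (h | h)
              · exact hsub h
              · exact h.1), Tra_C]
      rw [Finset.sum_congr rfl this, Tra_sum]
      unfold Tra_pol
      refine Tra_H_congr fun a => ?_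
      apply NNReal.coe_injective
      rw [NNReal.coe_sum]
      show I.f a = _
      rw [hI a]
      refine Finset.sum_congr rfl fun J hJ => ?_
      rw [NNReal.coe_mul, hc' J hJ]
      rfl
    rw [step1, ← Finset.sum_fiberwise_of_maps_to (s := M) (t := Tra_img M) (g := Tra_pol)
      (fun J hJ => Tra_img_mem.mpr ⟨J, hJ, rfl⟩)]
    refine Finset.sum_congr rfl fun P hP => ?_
    rw [map_sum, Finset.sum_mul, Finset.sum_mul]
    refine Finset.sum_congr rfl fun J hJ => ?_
    rw [Finset.mem_filter] at hJ
    obtain ⟨hJM, hJP⟩ := hJ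
    rw [hJP]
    by_cases h0 : P = 0
    · rw [h0, mul_zero, zero_mul, zero_mul]
    · have h1 := hsel J hJM (by rw [hJP]; exact h0)
      rw [hJP] at h1
      show MvPolynomial.C (c' J) * P * ∏ v ∈ I.vars \ J.vars, (X (v, false) + X (v, true)) =
        MvPolynomial.C (c' J) * P * ∏ v ∈ I.vars \ sel P, (X (v, false) + X (v, true))
      rw [h1]
  · right
    right
    refine ⟨Tra_pol J, Tra_img_mem.mpr ⟨J, hJ, rfl⟩, Tra_pol L, Tra_img_mem.mpr ⟨L, hL, rfl⟩, ?_⟩
    unfold Tra_pol
    rw [Tra_mul (Tra_f_dep J) (Tra_f_dep L) hd hU]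
    refine Tra_H_congr fun a => ?_
    apply NNReal.coe_injective
    rw [NNReal.coe_mul]
    exact hI a

private theorem Tra_part (G : SimpleGraph V) (g : (V → Bool) → NNReal)
    (hg : ∀ a, (a ∈ Mod G → g a = 1) ∧ (a ∉ Mod G → g a = 0)) : Part G = Tra_H univ g := by
  classical
  unfold Part Tra_H
  have e : Tra_B (univ : Finset V) = univ := by
    ext b
    rw [Tra_memB]
    simp
  rw [e, Finset.sum_filter]
  refine Finset.sum_congr rfl fun a _ => ?_
  by_cases ha : a ∈ Mod G
  · rw [if_pos ha, (hg a).1 ha]
    unfold mon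
    rw [monomial_sum_one]
    rfl
  · rw [if_neg ha, (hg a).2 ha, monomial_zero]



private theorem Tra_last {K : ℕ} {G : SimpleGraph V} {M : Finset (Item V)} {I : Item V}
    (hI : I ∈ M) (hf : ∀ a, (a ∈ Mod G → I.f a = 1) ∧ (a ∉ Mod G → I.f a = 0)) :
    DerP K (Tra_img M) (Part G) := by
  classical
  right
  left
  refine ⟨fun P => if P = Tra_pol I then 1 else 0, fun _ => univ \ I.vars, ?_⟩
  rw [Finset.sum_eq_single (Tra_pol I)]
  · beta_reduce
    rw [if_pos rfl, map_one, one_mul, Tra_ext I (U := univ) Finset.disjoint_sdiff (by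
      intro v
      rw [Finset.mem_sdiff]
      have := Finset.mem_univ v
      tauto)]
    refine Tra_part _ _ fun a => ?_
    refine ⟨fun h => ?_, fun h => ?_⟩
    · exact NNReal.coe_injective ((hf a).1 h)
    · exact NNReal.coe_injective ((hf a).2 h)
  · intro P _ hne
    beta_reduce
    rw [if_neg hne, map_zero, zero_mul, zero_mul]
  · intro hn
    exact absurd (Tra_img_mem.mpr ⟨I, hI, rfl⟩) hn

private theorem Tra_prog {K S T : ℕ} {G : SimpleGraph V} {M : ℕ → Finset (Item V)} {I : Item V}
    (hM : Prog K S T M) (hI : I ∈ M T)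
    (hf : ∀ a, (a ∈ Mod G → I.f a = 1) ∧ (a ∉ Mod G → I.f a = 0)) :
    ∃ M' : ℕ → Finset (Pol V), ProgP K S (T + 1) M' ∧ Part G ∈ M' (T + 1) := by
  have hex : ∃ M' : ℕ → Finset (Pol V), (∀ t, t ≤ T → M' t = Tra_img (M t)) ∧
      ∀ t, ¬ t ≤ T → M' t = {Part G} :=
    ⟨fun t => if t ≤ T then Tra_img (M t) else {Part G}, fun t h => if_pos h,
      fun t h => if_neg h⟩
  obtain ⟨M', h1, h2⟩ := hex
  refine ⟨M', ⟨?_, ?_, ?_⟩, ?_⟩
  · rw [h1 0 (Nat.zero_le _), hM.start, Tra_img_empty]
  · intro t ht
    by_cases h : t ≤ T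
    · rw [h1 t h]
      exact le_trans (Tra_img_card _) (hM.mem t h)
    · rw [h2 t h, Finset.card_singleton]
      have h3 := hM.mem T le_rfl
      have h4 := Finset.card_pos.mpr ⟨I, hI⟩
      omega
  · intro t ht
    by_cases h : t < T
    · obtain ⟨J, hJ, hstep⟩ := hM.step t h
      refine ⟨Tra_pol J, ?_, ?_⟩
      · rw [h1 t h.le]
        exact Tra_der hJ
      · rw [h1 t h.le, h1 (t + 1) h]
        intro P hP
        rw [Tra_img_mem] at hP
        obtain ⟨J', hJ', rfl⟩ := hP
        rcases hstep J' hJ' with h5 | h5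
        · left
          rw [h5]
        · right
          exact Tra_img_mem.mpr ⟨J', h5, rfl⟩
    · have ht' : t = T := by omega
      subst ht'
      refine ⟨Part G, ?_, ?_⟩
      · rw [h1 t le_rfl]
        exact Tra_last hI hf
      · rw [h2 (t + 1) (by omega)]
        intro P hP
        exact Or.inl (Finset.mem_singleton.mp hP)
  · rw [h2 (T + 1) (by omega)]
    exact Finset.mem_singleton_self _

end general

theorem thm_Tra : St_Tra := by
  rintro K w l S T ⟨T', hT', M, hM, I, hI, hf⟩
  obtain ⟨M', h1, h2⟩ := Tra_prog hM hI hf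
  exact ⟨T' + 1, by omega, M', h1, h2⟩

end TSP
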