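import Pool.Agent.TSP.All2
import Pool.Agent.TSP.Main3
import Pool.Agent.TSP.Sup
import Pool.Agent.TSP.PRd
import Pool.Agent.TSP.Tra

/-!
# TSP: the theorem without hypotheses, final form
-/

set_option autoImplicit false

namespace TSP

theorem all_Main3 : St_Main3 :=
  thm_Main3 thm_Sup (thm_PRd thm_Sup) thm_Tra (thm_Lrg2 thm_Frt thm_End thm_Prb) thm_Num2 all_Main2

end TSP
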