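import Mathlib

/-!
# TSP, module DESC: one monotone chain of sets of blocks

`D` is a monotone chain of sets of blocks (natural numbers), `D s` misses `[p, q)`, `D (s + 2 ^ J)` contains it.
Binary search over the time: at the midpoint take the longest piece on which `D` is constant.  Only the separated
pairs of neighbours which one meets cost length.
-/

set_option autoImplicit false

namespace Pool.Agent.TSP

/-- exactly one of the neighbours `u`, `u + 1` is in `D` -/
def Sep (D : Finset ℕ) (u : ℕ) : Prop := ¬ (u ∈ D ↔ u + 1 ∈ D)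

instance (D : Finset ℕ) (u : ℕ) : Decidable (Sep D u) := inferInstanceAs (Decidable (¬ _))

/-- the midpoints on the way to the step `s + k` -/
def mids : ℕ → ℕ → ℕ → Finset ℕ
  | 0, _, _ => ∅
  | J + 1, s, k => insert (s + 2 ^ J) (if k < 2 ^ J then mids J s k else mids J (s + 2 ^ J) (k - 2 ^ J))

theorem mids_card (J : ℕ) : ∀ s k, (mids J s k).card ≤ J := by
  induction J with
  | zero => intro s k; simp [mids]
  | succ J ih =>
    intro s k
    unfold mids
    refine (Finset.card_insert_le _ _).trans ?_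
    split_ifs
    · exact Nat.succ_le_succ (ih _ _)
    · exact Nat.succ_le_succ (ih _ _)

/-- the longest piece -/
theorem desc_cut (R : Finset ℕ) : ∀ p q : ℕ, p < q → (∀ u ∈ R, p ≤ u ∧ u + 1 < q) →
    ∃ p' q' : ℕ, p ≤ p' ∧ p' < q' ∧ q' ≤ q ∧ q - p ≤ (q' - p') * (R.card + 1) ∧
      ∀ u ∈ R, ¬ (p' ≤ u ∧ u + 1 < q') := by
  induction R using Finset.induction_on_max with
  | empty =>
    intro p q hpq _
    exact ⟨p, q, le_rfl, hpq, le_rfl, by simp, by simp⟩
  | insert a R hmax ih =>
    intro p q hpq hR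
    have ha := hR a (Finset.mem_insert_self _ _)
    have hane : a ∉ R := fun h => lt_irrefl _ (hmax a h)
    obtain ⟨p', q', h1, h2, h3, h4, h5⟩ := ih p (a + 1) (by omega)
      (fun u hu => ⟨(hR u (Finset.mem_insert_of_mem hu)).1, by have := hmax u hu; omega⟩)
    rw [Finset.card_insert_of_notMem hane]
    by_cases hc : q' - p' ≤ q - (a + 1)
    · -- the last piece
      refine ⟨a + 1, q, by omega, by omega, le_rfl, ?_, ?_⟩
      · have e1 : (q' - p') * (R.card + 1) ≤ (q - (a + 1)) * (R.card + 1) := Nat.mul_le_mul_right _ hc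
        have e2 : (q - (a + 1)) * (R.card + 1 + 1) =
            (q - (a + 1)) * (R.card + 1) + (q - (a + 1)) := by ring
        rw [e2]
        omega
      · intro u hu
        rcases Finset.mem_insert.1 hu with rfl | hu
        · omega
        · have := hmax u hu
          omega
    · refine ⟨p', q', h1, h2, by omega, ?_, ?_⟩
      · have e2 : (q' - p') * (R.card + 1 + 1) =
            (q' - p') * (R.card + 1) + (q' - p') := by ring
        rw [e2]
        omega
      · intro u hu
        rcases Finset.mem_insert.1 hu with rfl | hu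
        · omega
        · exact h5 u hu

/-- between two elements of different status there is a separated pair -/
theorem desc_const (D : Finset ℕ) (p q : ℕ) (h : ∀ u, p ≤ u → u + 1 < q → ¬ Sep D u) :
    (∀ u, p ≤ u → u < q → u ∉ D) ∨ (∀ u, p ≤ u → u < q → u ∈ D) := by
  have h1 : ∀ k, p + k < q → (p + k ∈ D ↔ p ∈ D) := by
    intro k
    induction k with
    | zero => intro _; simp
    | succ k ih =>
      intro hk
      have h2 := h (p + k) (by omega) (by omega)
      unfold Sep at h2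
      rw [not_not] at h2
      rw [← ih (by omega), h2]
      rfl
  by_cases hp : p ∈ D
  · right
    intro u hu1 hu2
    have := h1 (u - p) (by omega)
    rw [show p + (u - p) = u by omega] at this
    exact this.2 hp
  · left
    intro u hu1 hu2 hu
    have := h1 (u - p) (by omega)
    rw [show p + (u - p) = u by omega] at this
    exact hp (this.1 hu)

/-- **DESC** -/
theorem descend (D : ℕ → Finset ℕ) (J : ℕ) : ∀ s p q : ℕ, p < q →
    (∀ u, p ≤ u → u < q → u ∉ D s) → (∀ u, p ≤ u → u < q → u ∈ D (s + 2 ^ J)) →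
    ∃ k < 2 ^ J, ∃ p' q' : ℕ, p ≤ p' ∧ p' < q' ∧ q' ≤ q ∧
      (∀ u, p' ≤ u → u < q' → u ∉ D (s + k) ∧ u ∈ D (s + k + 1)) ∧
      ∃ R : Finset (ℕ × ℕ), (∀ x ∈ R, x.1 ∈ mids J s k ∧ p ≤ x.2 ∧ x.2 + 1 < q ∧ Sep (D x.1) x.2) ∧
        (∀ x ∈ R, ∀ y ∈ R, x.2 = y.2 → x = y) ∧ q - p ≤ (q' - p') * 2 ^ R.card := by
  induction J with
  | zero =>
    intro s p q hpq h0 h1
    refine ⟨0, by norm_num, p, q, le_rfl, hpq, le_rfl, ?_, ∅, by simp, by simp, by simp⟩
    intro u hu1 hu2
    exact ⟨h0 u hu1 hu2, h1 u hu1 hu2⟩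
  | succ J ih =>
    intro s p q hpq h0 h1
    -- the separated pairs at the midpoint
    set m := s + 2 ^ J with hm
    set R0 : Finset ℕ := (Finset.Ico p q).filter fun u => u + 1 < q ∧ Sep (D m) u with hR0
    obtain ⟨p1, q1, c1, c2, c3, c4, c5⟩ := desc_cut R0 p q hpq (by
      intro u hu
      rw [hR0, Finset.mem_filter, Finset.mem_Ico] at hu
      exact ⟨hu.1.1, hu.2.1⟩)
    have hns : ∀ u, p1 ≤ u → u + 1 < q1 → ¬ Sep (D m) u := by
      intro u hu1 hu2 hs
      exact c5 u (by
        rw [hR0, Finset.mem_filter, Finset.mem_Ico]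
        exact ⟨⟨by omega, by omega⟩, by omega, hs⟩) ⟨hu1, hu2⟩
    have key : ∀ (s' k' : ℕ) (k : ℕ), k < 2 ^ (J + 1) → s' + k' = s + k →
        mids (J + 1) s k = insert m (mids J s' k') →
        (∃ p' q' : ℕ, p1 ≤ p' ∧ p' < q' ∧ q' ≤ q1 ∧
          (∀ u, p' ≤ u → u < q' → u ∉ D (s' + k') ∧ u ∈ D (s' + k' + 1)) ∧
          ∃ R : Finset (ℕ × ℕ), (∀ x ∈ R, x.1 ∈ mids J s' k' ∧ p1 ≤ x.2 ∧ x.2 + 1 < q1 ∧
            Sep (D x.1) x.2) ∧ (∀ x ∈ R, ∀ y ∈ R, x.2 = y.2 → x = y) ∧
              q1 - p1 ≤ (q' - p') * 2 ^ R.card) →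
        ∃ p' q' : ℕ, p ≤ p' ∧ p' < q' ∧ q' ≤ q ∧
          (∀ u, p' ≤ u → u < q' → u ∉ D (s + k) ∧ u ∈ D (s + k + 1)) ∧
          ∃ R : Finset (ℕ × ℕ), (∀ x ∈ R, x.1 ∈ mids (J + 1) s k ∧ p ≤ x.2 ∧ x.2 + 1 < q ∧
            Sep (D x.1) x.2) ∧ (∀ x ∈ R, ∀ y ∈ R, x.2 = y.2 → x = y) ∧
              q - p ≤ (q' - p') * 2 ^ R.card := by
      rintro s' k' k hk hs hmid ⟨p', q', d1, d2, d3, d4, R, d5, d6, d7⟩
      rw [hs] at d4
      refine ⟨p', q', c1.trans d1, d2, d3.trans c3, d4, R0.image (fun u => (m, u)) ∪ R, ?_, ?_, ?_⟩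
      · intro x hx
        rcases Finset.mem_union.1 hx with hx | hx
        · obtain ⟨u, hu, rfl⟩ := Finset.mem_image.1 hx
          rw [hR0, Finset.mem_filter, Finset.mem_Ico] at hu
          refine ⟨?_, hu.1.1, hu.2.1, hu.2.2⟩
          rw [hmid]
          exact Finset.mem_insert_self _ _
        · obtain ⟨e1, e2, e3, e4⟩ := d5 x hx
          refine ⟨?_, by omega, by omega, e4⟩
          rw [hmid]
          exact Finset.mem_insert_of_mem e1
      · have hcross : ∀ u ∈ R0, ∀ x ∈ R, u ≠ x.2 := by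
          rintro u hu x hx rfl
          obtain ⟨-, e2, e3, -⟩ := d5 x hx
          exact c5 _ hu ⟨e2, e3⟩
        intro x hx y hy hxy
        rcases Finset.mem_union.1 hx with hx | hx <;> rcases Finset.mem_union.1 hy with hy | hy
        · obtain ⟨u, hu, rfl⟩ := Finset.mem_image.1 hx
          obtain ⟨v, hv, rfl⟩ := Finset.mem_image.1 hy
          simp only at hxy
          rw [hxy]
        · obtain ⟨u, hu, rfl⟩ := Finset.mem_image.1 hx
          exact absurd hxy (hcross u hu y hy)
        · obtain ⟨v, hv, rfl⟩ := Finset.mem_image.1 hy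
          exact absurd hxy.symm (hcross v hv x hx)
        · exact d6 x hx y hy hxy
      · have hdis : Disjoint (R0.image (fun u => (m, u))) R := by
          rw [Finset.disjoint_left]
          intro x hx hx'
          obtain ⟨u, hu, rfl⟩ := Finset.mem_image.1 hx
          obtain ⟨-, e2, e3, -⟩ := d5 _ hx'
          exact c5 _ hu ⟨e2, e3⟩
        rw [Finset.card_union_of_disjoint hdis, Finset.card_image_of_injective _
          (fun a b h => (Prod.ext_iff.1 h).2), pow_add]
        have e1 : R0.card + 1 ≤ 2 ^ R0.card := Nat.lt_two_pow_self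
        calc q - p ≤ (q1 - p1) * (R0.card + 1) := c4
          _ ≤ ((q' - p') * 2 ^ R.card) * 2 ^ R0.card := Nat.mul_le_mul d7 e1
          _ = (q' - p') * (2 ^ R0.card * 2 ^ R.card) := by ring
    have hpow : 2 ^ (J + 1) = 2 ^ J + 2 ^ J := by ring
    rcases desc_const (D m) p1 q1 hns with hc | hc
    · -- empty at the midpoint: second half
      obtain ⟨k, hk, hrest⟩ := ih m p1 q1 c2 hc (by
        intro u hu1 hu2
        have := h1 u (by omega) (by omega)
        rw [hm, add_assoc, ← hpow]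
        exact this)
      refine ⟨2 ^ J + k, by omega, key m k (2 ^ J + k) (by omega) (by omega) ?_ hrest⟩
      have e1 : ¬ (2 ^ J + k < 2 ^ J) := by omega
      have e2 : 2 ^ J + k - 2 ^ J = k := by omega
      rw [mids, if_neg e1, e2]
    · obtain ⟨k, hk, hrest⟩ := ih s p1 q1 c2 (fun u hu1 hu2 => h0 u (by omega) (by omega)) hc
      refine ⟨k, by omega, key s k k (by omega) rfl ?_ hrest⟩
      rw [mids, if_pos hk]

end Pool.Agent.TSP
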