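import Mathlib
import Pool.Agent.TSP.Desc

/-!
# TSP, module COUNT: the counting theorem

The set `A` of assignments is small: every `a` in `A` either meets many separated pairs (binary search over the
time), each of which forces `q` ones, or fills many blocks in a single step.
-/

set_option autoImplicit false

namespace Pool.Agent.TSP

private theorem CO_union {ι β : Type*} [DecidableEq β] (s : Finset ι) (f : ι → Finset β) (c : ℝ)
    (h : ∀ i ∈ s, ((f i).card : ℝ) ≤ c) : ((s.biUnion f).card : ℝ) ≤ s.card * c := by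
  have h1 : ((s.biUnion f).card : ℝ) ≤ ∑ i ∈ s, ((f i).card : ℝ) := by
    exact_mod_cast Finset.card_biUnion_le
  refine h1.trans ((Finset.sum_le_sum h).trans ?_)
  rw [Finset.sum_const, nsmul_eq_mul]

/-- sets of `q` elements in the unions of two neighbouring blocks, with different first blocks -/
theorem count_union {V ι : Type*} [DecidableEq V] (B : ℕ → Finset V)
    (hB : ∀ u v, u ≠ v → Disjoint (B u) (B v)) (s : Finset ι) (E : ι → Finset V) (u : ι → ℕ) (q : ℕ)
    (hu : ∀ i ∈ s, ∀ j ∈ s, u i = u j → i = j) (hE : ∀ i ∈ s, E i ⊆ B (u i) ∪ B (u i + 1))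
    (hq : ∀ i ∈ s, q ≤ (E i).card) : s.card * q ≤ (s.biUnion E).card * 2 := by
  classical
  refine Finset.card_mul_le_card_mul (fun i x => x ∈ E i) ?_ ?_
  · intro i hi
    refine (hq i hi).trans (Finset.card_le_card ?_)
    intro x hx
    rw [Finset.bipartiteAbove, Finset.mem_filter]
    exact ⟨Finset.mem_biUnion.2 ⟨i, hi, hx⟩, hx⟩
  · intro x _
    by_cases hex : ∃ v, x ∈ B v
    · obtain ⟨v, hv⟩ := hex
      have hv' : ∀ v', x ∈ B v' → v' = v := by
        intro v' h'
        by_contra hne
        exact Finset.disjoint_left.1 (hB _ _ hne) h' hv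
      have h1 : (s.bipartiteBelow (fun i x => x ∈ E i) x).card ≤ ({v, v - 1} : Finset ℕ).card := by
        refine Finset.card_le_card_of_injOn u ?_ ?_
        · intro i hi
          rw [Finset.mem_coe, Finset.bipartiteBelow, Finset.mem_filter] at hi
          have h2 := hE i hi.1 hi.2
          rw [Finset.coe_insert, Finset.coe_singleton, Set.mem_insert_iff, Set.mem_singleton_iff]
          rcases Finset.mem_union.1 h2 with h3 | h3
          · exact Or.inl (hv' _ h3)
          · right
            have := hv' _ h3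
            omega
        · intro i hi j hj hij
          rw [Finset.mem_coe, Finset.bipartiteBelow, Finset.mem_filter] at hi hj
          exact hu i hi.1 j hj.1 hij
      exact h1.trans Finset.card_le_two
    · push Not at hex
      have h1 : s.bipartiteBelow (fun i x => x ∈ E i) x = ∅ := by
        rw [Finset.eq_empty_iff_forall_notMem]
        intro i hi
        rw [Finset.bipartiteBelow, Finset.mem_filter] at hi
        rcases Finset.mem_union.1 (hE i hi.1 hi.2) with h3 | h3
        · exact hex _ h3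
        · exact hex _ h3
      rw [h1]
      simp

/-- **COUNT** -/
theorem count {V : Type*} [Fintype V] [DecidableEq V] (ρ : ℝ) (h0 : 0 < ρ) (h1 : ρ ≤ 1)
    (Mod A : Finset (V → Bool)) (hA : A ⊆ Mod)
    (hones : ∀ Z : Finset V,
      ((Mod.filter fun a => ∀ x ∈ Z, a x = true).card : ℝ) ≤ ρ ^ Z.card * (Mod.card : ℝ))
    (B : ℕ → Finset V) (hB : ∀ u v, u ≠ v → Disjoint (B u) (B v)) (L q J N N' R l : ℕ)
    (D : (V → Bool) → ℕ → Finset ℕ) (hD0 : ∀ a ∈ A, ∀ u < L, u ∉ D a 0)
    (hDT : ∀ a ∈ A, ∀ u < L, u ∈ D a (2 ^ J))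
    (Fam : ℕ → Finset (Finset V)) (hFam : ∀ t, (Fam t).card ≤ N)
    (hsep : ∀ a ∈ A, ∀ t u, u + 1 < L → Sep (D a t) u →
      ∃ E ∈ Fam t, E ⊆ B u ∪ B (u + 1) ∧ q ≤ E.card ∧ ∀ x ∈ E, a x = true)
    (Fst : ℕ → Finset (Finset V)) (hFst : ∀ t, (Fst t).card ≤ N')
    (hstep : ∀ a ∈ A, ∀ (t : ℕ) (I : Finset ℕ), (∀ u ∈ I, u < L ∧ u ∉ D a t ∧ u ∈ D a (t + 1)) →
      l ≤ I.card → ∃ E ∈ Fst t, (∀ x ∈ E, a x = true) ∧ q * I.card ≤ E.card)
    (hR : 1 ≤ R) (hl0 : 1 ≤ l) (hl : l * 2 ^ (R - 1) ≤ L) :
    (A.card : ℝ) ≤ (2 ^ J * (((J * N : ℕ) : ℝ) ^ R * ρ ^ (q * R / 2)) +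
      2 ^ J * ((N' : ℝ) * ρ ^ (q * l))) * (Mod.card : ℝ) := by
  classical
  -- the set of the members of `Mod` with ones on `Z`
  let on : Finset V → Finset (V → Bool) := fun Z => Mod.filter fun a => ∀ x ∈ Z, a x = true
  let F : ℕ → Finset (Finset V) := fun k => (mids J 0 k).biUnion Fam
  let U1 : Finset (V → Bool) := (Finset.range (2 ^ J)).biUnion fun k =>
    ((Fintype.piFinset fun _ : Fin R => F k).filter
      fun g => q * R / 2 ≤ (Finset.univ.biUnion g).card).biUnion fun g => on (Finset.univ.biUnion g)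
  let U2 : Finset (V → Bool) := (Finset.range (2 ^ J)).biUnion fun k =>
    ((Fst k).filter fun E => q * l ≤ E.card).biUnion fun E => on E
  have hmod0 : (0 : ℝ) ≤ (Mod.card : ℝ) := Nat.cast_nonneg _
  -- first part
  have hc1 : (U1.card : ℝ) ≤ 2 ^ J * ((((J * N : ℕ) : ℝ) ^ R * ρ ^ (q * R / 2)) * (Mod.card : ℝ)) := by
    have := CO_union (Finset.range (2 ^ J)) (fun k =>
      ((Fintype.piFinset fun _ : Fin R => F k).filter
        fun g => q * R / 2 ≤ (Finset.univ.biUnion g).card).biUnion
          fun g => on (Finset.univ.biUnion g))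
      ((((J * N : ℕ) : ℝ) ^ R * ρ ^ (q * R / 2)) * (Mod.card : ℝ)) (by
        intro k _
        have h2 := CO_union ((Fintype.piFinset fun _ : Fin R => F k).filter
          fun g => q * R / 2 ≤ (Finset.univ.biUnion g).card)
          (fun g => on (Finset.univ.biUnion g)) (ρ ^ (q * R / 2) * (Mod.card : ℝ)) (by
            intro g hg
            rw [Finset.mem_filter] at hg
            refine (hones _).trans ?_
            exact mul_le_mul_of_nonneg_right (pow_le_pow_of_le_one h0.le h1 hg.2) hmod0)
        refine h2.trans ?_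
        rw [mul_assoc (((J * N : ℕ) : ℝ) ^ R)]
        refine mul_le_mul_of_nonneg_right ?_ (by positivity)
        have h3 : ((Fintype.piFinset fun _ : Fin R => F k).filter
          fun g => q * R / 2 ≤ (Finset.univ.biUnion g).card).card ≤ (J * N) ^ R := by
          refine (Finset.card_filter_le _ _).trans ?_
          rw [Fintype.card_piFinset_const]
          refine Nat.pow_le_pow_left ?_ _
          refine (Finset.card_biUnion_le_card_mul _ _ N fun t _ => hFam t).trans ?_
          exact Nat.mul_le_mul_right _ (mids_card J 0 k)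
        exact_mod_cast h3)
    rw [Finset.card_range] at this
    exact_mod_cast this
  -- second part
  have hc2 : (U2.card : ℝ) ≤ 2 ^ J * (((N' : ℝ) * ρ ^ (q * l)) * (Mod.card : ℝ)) := by
    have := CO_union (Finset.range (2 ^ J)) (fun k =>
      ((Fst k).filter fun E => q * l ≤ E.card).biUnion fun E => on E)
      (((N' : ℝ) * ρ ^ (q * l)) * (Mod.card : ℝ)) (by
        intro k _
        have h2 := CO_union ((Fst k).filter fun E => q * l ≤ E.card)
          (fun E => on E) (ρ ^ (q * l) * (Mod.card : ℝ)) (by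
            intro E hE
            rw [Finset.mem_filter] at hE
            refine (hones _).trans ?_
            exact mul_le_mul_of_nonneg_right (pow_le_pow_of_le_one h0.le h1 hE.2) hmod0)
        refine h2.trans ?_
        rw [mul_assoc (N' : ℝ)]
        refine mul_le_mul_of_nonneg_right ?_ (by positivity)
        exact_mod_cast (Finset.card_filter_le _ _).trans (hFst k))
    rw [Finset.card_range] at this
    exact_mod_cast this
  -- the cover
  have hcov : A ⊆ U1 ∪ U2 := by
    intro a ha
    have hL : 0 < L := by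
      have : 0 < l * 2 ^ (R - 1) := Nat.mul_pos hl0 (by positivity)
      omega
    obtain ⟨k, hk, p', q', c1, c2, c3, c4, S, c5, c6, c7⟩ := descend (D a) J 0 0 L hL
      (fun u _ hu => hD0 a ha u hu) (fun u _ hu => by rw [zero_add]; exact hDT a ha u hu)
    simp only [zero_add, Nat.sub_zero] at c4 c7
    rw [Finset.mem_union]
    by_cases hS : R ≤ S.card
    · left
      obtain ⟨S', hS', hcard⟩ := Finset.exists_subset_card_eq hS
      have hex : ∀ x : ℕ × ℕ, ∃ E : Finset V, x ∈ S' → E ∈ F k ∧ E ⊆ B x.2 ∪ B (x.2 + 1) ∧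
          q ≤ E.card ∧ ∀ y ∈ E, a y = true := by
        intro x
        by_cases hx : x ∈ S'
        · obtain ⟨d1, d2, d3, d4⟩ := c5 x (hS' hx)
          obtain ⟨E, e1, e2, e3, e4⟩ := hsep a ha x.1 x.2 d3 d4
          exact ⟨E, fun _ => ⟨Finset.mem_biUnion.2 ⟨x.1, d1, e1⟩, e2, e3, e4⟩⟩
        · exact ⟨∅, fun h => absurd h hx⟩
      choose E hE using hex
      let e : Fin R ≃ S' := (S'.equivFinOfCardEq hcard).symm
      have hun : Finset.univ.biUnion (fun i : Fin R => E (e i)) = S'.biUnion E := by
        ext y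
        simp only [Finset.mem_biUnion, Finset.mem_univ, true_and]
        constructor
        · rintro ⟨i, hi⟩
          exact ⟨(e i).1, (e i).2, hi⟩
        · rintro ⟨x, hx, hy⟩
          refine ⟨e.symm ⟨x, hx⟩, ?_⟩
          rw [Equiv.apply_symm_apply]
          exact hy
      have hbig := count_union B hB S' E Prod.snd q
        (fun x hx y hy h => c6 x (hS' hx) y (hS' hy) h) (fun x hx => (hE x hx).2.1)
        (fun x hx => (hE x hx).2.2.1)
      rw [hcard] at hbig
      rw [Finset.mem_biUnion]
      refine ⟨k, Finset.mem_range.2 hk, ?_⟩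
      rw [Finset.mem_biUnion]
      refine ⟨fun i => E (e i), ?_, ?_⟩
      · rw [Finset.mem_filter, Fintype.mem_piFinset]
        refine ⟨fun i => (hE _ (e i).2).1, ?_⟩
        rw [hun]
        have : q * R ≤ (S'.biUnion E).card * 2 := by
          rw [mul_comm q R]
          exact hbig
        omega
      · rw [hun, Finset.mem_filter]
        refine ⟨hA ha, ?_⟩
        intro x hx
        obtain ⟨y, hy, hxy⟩ := Finset.mem_biUnion.1 hx
        exact (hE y hy).2.2.2 x hxy
    · right
      have hlen : l ≤ q' - p' := by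
        have e1 : L ≤ (q' - p') * 2 ^ (R - 1) :=
          c7.trans (Nat.mul_le_mul_left _ (Nat.pow_le_pow_right (by norm_num) (by omega)))
        exact Nat.le_of_mul_le_mul_right (hl.trans e1) (by positivity)
      obtain ⟨E, e1, e2, e3⟩ := hstep a ha k (Finset.Ico p' q') (by
        intro u hu
        rw [Finset.mem_Ico] at hu
        exact ⟨by omega, c4 u hu.1 hu.2⟩) (by rw [Nat.card_Ico]; exact hlen)
      rw [Nat.card_Ico] at e3
      rw [Finset.mem_biUnion]
      refine ⟨k, Finset.mem_range.2 hk, ?_⟩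
      rw [Finset.mem_biUnion]
      refine ⟨E, ?_, ?_⟩
      · rw [Finset.mem_filter]
        exact ⟨e1, (Nat.mul_le_mul_left _ hlen).trans e3⟩
      · rw [Finset.mem_filter]
        exact ⟨hA ha, e2⟩
  have hfin : (A.card : ℝ) ≤ (U1.card : ℝ) + (U2.card : ℝ) := by
    exact_mod_cast (Finset.card_le_card hcov).trans (Finset.card_union_le _ _)
  calc (A.card : ℝ) ≤ (U1.card : ℝ) + (U2.card : ℝ) := hfin
    _ ≤ 2 ^ J * ((((J * N : ℕ) : ℝ) ^ R * ρ ^ (q * R / 2)) * (Mod.card : ℝ)) +
        2 ^ J * (((N' : ℝ) * ρ ^ (q * l)) * (Mod.card : ℝ)) := add_le_add hc1 hc2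
    _ = _ := by ring

end Pool.Agent.TSP
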