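import Mathlib

/-!
# TSP: time and memory of exact model counters (MP_4ed1f9_lc), definitions of the theorem

Decomposable programs with bounded memory.  The CNF is the set of the clauses `x_u ∨ x_v`, `uv` an edge of
a graph `G` with vertex set `V`.
-/

set_option autoImplicit false

namespace TSP

open scoped BigOperators

variable {V : Type}

/-- an item in memory: a nonnegative function of the assignments `V → Bool` which depends on the
variables in `vars` only -/
structure Item (V : Type) where
  vars : Finset V
  f : (V → Bool) → ℝ
  nonneg : ∀ a, 0 ≤ f a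
  dep : ∀ a b : V → Bool, (∀ v ∈ vars, a v = b v) → f a = f b

/-- `I` can be computed in one step from the items in `M`: it is any function of at most `L` variables,
or a nonnegative combination of items in `M`, or the product of two items in `M` without common
variable -/
def Der (L : ℕ) (M : Finset (Item V)) (I : Item V) : Prop :=
  I.vars.card ≤ L ∨
  (∃ c : Item V → ℝ, (∀ J ∈ M, 0 ≤ c J ∧ (c J ≠ 0 → J.vars ⊆ I.vars)) ∧
    ∀ a, I.f a = ∑ J ∈ M, c J * J.f a) ∨
  ∃ J ∈ M, ∃ K ∈ M, Disjoint J.vars K.vars ∧ (∀ v, v ∈ I.vars ↔ v ∈ J.vars ∨ v ∈ K.vars) ∧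
    ∀ a, I.f a = J.f a * K.f a

/-- a program with `T` steps and memory for `S` items: `M t` is the content of the memory after `t` steps;
in every step one item is computed, and any items may be deleted -/
structure Prog (L S T : ℕ) (M : ℕ → Finset (Item V)) : Prop where
  start : M 0 = ∅
  mem : ∀ t ≤ T, (M t).card ≤ S
  step : ∀ t < T, ∃ I, Der L (M t) I ∧ ∀ J ∈ M (t + 1), J = I ∨ J ∈ M t

/-- the models of the monotone 2-CNF with the clauses `x_u ∨ x_v`, `uv` an edge of `G` -/
def Mod (G : SimpleGraph V) : Set (V → Bool) :=
  {a | ∀ u v, G.Adj u v → a u = true ∨ a v = true}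

/-- the grid with `w` rows and `l` columns -/
abbrev gr (w l : ℕ) : SimpleGraph (Fin w × Fin l) :=
  SimpleGraph.pathGraph w □ SimpleGraph.pathGraph l

/-- the models (of the grid) are counted exactly in at most `T` steps with memory for `S` items, all leaves
have at most one variable: the last item is the function which is one on the models and zero elsewhere -/
def Count (w l S T : ℕ) : Prop :=
  ∃ T' ≤ T, ∃ M : ℕ → Finset (Item (Fin w × Fin l)), Prog 1 S T' M ∧ ∃ I ∈ M T', ∀ a,
    (a ∈ Mod (gr w l) → I.f a = 1) ∧ (a ∉ Mod (gr w l) → I.f a = 0)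

end TSP
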