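import Pool.Agent.TSP.Defs

/-!
# TSP: time and memory of exact model counters (MP_4ed1f9_lc), definitions of the final form

Monotone arithmetic straight-line programs with bounded memory for the partition polynomial of a formula.
-/

set_option autoImplicit false

namespace TSP

open MvPolynomial
open scoped BigOperators

variable {V : Type}

/-- polynomials with nonnegative real coefficients in the weights of the literals: the indeterminate `(v, b)` is the
weight of `v = b` -/
abbrev Pol (V : Type) := MvPolynomial (V × Bool) NNReal

/-- `I` can be computed in one step from the polynomials in `M`: it is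
* any polynomial in the weights of the literals of at most `K` variables, or
* a combination with nonnegative coefficients of polynomials in `M`, each of which may be multiplied with factors
  `x (v, false) + x (v, true)` for any variables `v`, or
* the product of two polynomials in `M`. -/
def DerP (K : ℕ) (M : Finset (Pol V)) (I : Pol V) : Prop :=
  (∃ U : Finset V, U.card ≤ K ∧ ∀ x ∈ I.vars, x.1 ∈ U) ∨
  (∃ (c : Pol V → NNReal) (Y : Pol V → Finset V),
    I = ∑ J ∈ M, MvPolynomial.C (c J) * J * ∏ v ∈ Y J, (X (v, false) + X (v, true))) ∨
  ∃ J ∈ M, ∃ K ∈ M, I = J * K

/-- a program with `T` steps and memory for `S` polynomials: `M t` is the content of the memory after `t` steps; in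
every step one polynomial is computed, and any polynomials may be deleted -/
structure ProgP (K S T : ℕ) (M : ℕ → Finset (Pol V)) : Prop where
  start : M 0 = ∅
  mem : ∀ t ≤ T, (M t).card ≤ S
  step : ∀ t < T, ∃ I, DerP K (M t) I ∧ ∀ J ∈ M (t + 1), J = I ∨ J ∈ M t

open Classical in
/-- the partition polynomial of the formula with the clauses `x_u ∨ x_v`, `uv` an edge of `G`: the sum over the
models of the products of the weights of their literals -/
noncomputable def Part [Fintype V] (G : SimpleGraph V) : Pol V :=
  ∑ a ∈ Finset.univ.filter (fun a : V → Bool => a ∈ Mod G), ∏ v, X (v, a v)

end TSP
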