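import Mathlib
import Pool.Agent.TSP.St
import Pool.Agent.TSP.Grid
import Pool.Agent.TSP.Count

/-!
# TSP, module GLRG: the main inequality for the grid

From the frontiers (`Frt`), the determined ends (`End`) and the ones lemma (`Prb`): the hypotheses of the counting
theorem `Pool.Agent.TSP.count` for a program whose last item contains models of the grid only.
-/

set_option autoImplicit false

namespace TSP

open Pool.Agent.TSP Finset

/-- the item takes the block `u` -/
private def GL_tk {w l : ℕ} (I : It (Fin w × Fin l)) (u : ℕ) : Prop :=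
  w * w < 2 * (blk w l u ∩ I.vars).card

/-- the set of the variables which are true because of `I` -/
private noncomputable def GL_z {w l : ℕ} (out : It (Fin w × Fin l))
    (Fr : (Fin w × Fin l → Bool) → ℕ → Finset (It (Fin w × Fin l))) (t : ℕ) (I : It (Fin w × Fin l)) :
    Finset (Fin w × Fin l) := by
  classical
  exact Finset.univ.filter fun v => FoB out Fr t I v

private theorem GL_mem_z {w l : ℕ} {out : It (Fin w × Fin l)}
    {Fr : (Fin w × Fin l → Bool) → ℕ → Finset (It (Fin w × Fin l))} {t : ℕ} {I : It (Fin w × Fin l)}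
    {v : Fin w × Fin l} : v ∈ GL_z out Fr t I ↔ FoB out Fr t I v := by
  unfold GL_z
  simp

private noncomputable def GL_y {w l : ℕ} (out : It (Fin w × Fin l))
    (Fr : (Fin w × Fin l → Bool) → ℕ → Finset (It (Fin w × Fin l))) (t : ℕ) (I J : It (Fin w × Fin l)) :
    Finset (Fin w × Fin l) := by
  classical
  exact Finset.univ.filter fun v => FoA out Fr t I J v

private theorem GL_mem_y {w l : ℕ} {out : It (Fin w × Fin l)}
    {Fr : (Fin w × Fin l → Bool) → ℕ → Finset (It (Fin w × Fin l))} {t : ℕ} {I J : It (Fin w × Fin l)}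
    {v : Fin w × Fin l} : v ∈ GL_y out Fr t I J ↔ FoA out Fr t I J v := by
  unfold GL_y
  simp

/-- a set which has at least `c` elements in each of the blocks of `I` -/
private theorem GL_sum {w l : ℕ} (Z : Finset (Fin w × Fin l)) (I : Finset ℕ) (c : ℕ)
    (h : ∀ u ∈ I, c ≤ (Z ∩ blk w l u).card) : c * I.card ≤ Z.card := by
  classical
  have h1 : (I.biUnion fun u => Z ∩ blk w l u).card = ∑ u ∈ I, (Z ∩ blk w l u).card := by
    apply Finset.card_biUnion
    intro u _ v _ huv
    show Disjoint (Z ∩ blk w l u) (Z ∩ blk w l v)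
    rw [Finset.disjoint_left]
    intro x hx hx'
    exact Finset.disjoint_left.1 (disj_blk (w := w) (l := l) huv) (Finset.mem_inter.1 hx).2
      (Finset.mem_inter.1 hx').2
  have h2 : (I.biUnion fun u => Z ∩ blk w l u) ⊆ Z := by
    intro x hx
    obtain ⟨u, _, hu⟩ := Finset.mem_biUnion.1 hx
    exact (Finset.mem_inter.1 hu).1
  calc c * I.card = ∑ u ∈ I, c := by rw [Finset.sum_const, smul_eq_mul, mul_comm]
    _ ≤ ∑ u ∈ I, (Z ∩ blk w l u).card := Finset.sum_le_sum h
    _ = (I.biUnion fun u => Z ∩ blk w l u).card := h1.symm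
    _ ≤ Z.card := Finset.card_le_card h2

/-- **Module GLRG** -/
theorem thm_GLrg (hF : St_Frt) (hE : St_End) (hP : St_Prb) (w L lam S T : ℕ)
    (M : ℕ → Finset (It (Fin w × Fin (w * L)))) (out : It (Fin w × Fin (w * L)))
    (hprog : ProgB lam S T M) (hout : out ∈ M T) (hfull : ∀ v, v ∈ out.vars)
    (hmod : out.set ⊆ Mod (Grid w (w * L))) (hw : 1 ≤ w) (J R l : ℕ) (hT : T ≤ 2 ^ J) (hR : 1 ≤ R)
    (hl0 : 1 ≤ l) (hl : l * 2 ^ (R - 1) ≤ L) (hlam : 2 * lam < l * (w * w)) :
    (out.set.ncard : ℝ) ≤ (2 ^ J * (((J * (S * L) : ℕ) : ℝ) ^ R * (31 / 32 : ℝ) ^ (w / 4 * R / 2)) +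
      2 ^ J * (((2 * S ^ 2 : ℕ) : ℝ) * (31 / 32 : ℝ) ^ (w / 4 * l))) *
      ((Mod (Grid w (w * L))).ncard : ℝ) := by
  classical
  obtain ⟨Fr, fro⟩ := hF (Fin w × Fin (w * L)) lam S T M out hprog hout
  obtain ⟨hE1, hE2⟩ := hE (Fin w × Fin (w * L)) (Grid w (w * L)) lam T M out Fr fro hmod
  -- counting
  set A : Finset (Fin w × Fin (w * L) → Bool) := out.set.toFinset with hA
  set MM : Finset (Fin w × Fin (w * L) → Bool) := (Mod (Grid w (w * L))).toFinset with hMM
  have hAc : out.set.ncard = A.card := by rw [hA, Set.ncard_eq_toFinset_card']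
  have hMc : (Mod (Grid w (w * L))).ncard = MM.card := by rw [hMM, Set.ncard_eq_toFinset_card']
  have hmemA : ∀ a, a ∈ A ↔ a ∈ out.set := fun a => by rw [hA, Set.mem_toFinset]
  have hones : ∀ Z : Finset (Fin w × Fin (w * L)),
      ((MM.filter fun a => ∀ x ∈ Z, a x = true).card : ℝ) ≤ (31 / 32 : ℝ) ^ Z.card * (MM.card : ℝ) := by
    intro Z
    have hd : ∀ v, ((Grid w (w * L)).neighborSet v).ncard ≤ 4 := by
      intro v
      rw [Set.ncard_eq_toFinset_card']
      refine grid_deg v _ ?_
      intro y hy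
      rw [Set.mem_toFinset] at hy
      exact hy
    have h1 := hP (Fin w × Fin (w * L)) (Grid w (w * L)) 4 hd Z
    have h2 : {a | a ∈ Mod (Grid w (w * L)) ∧ ∀ z ∈ Z, a z = true}.ncard =
        (MM.filter fun a => ∀ x ∈ Z, a x = true).card := by
      rw [Set.ncard_eq_toFinset_card']
      congr 1
      ext a
      rw [Set.mem_toFinset, Finset.mem_filter, hMM, Set.mem_toFinset]
      rfl
    rw [h2, hMc] at h1
    have h3 : ((32 : ℝ)) ^ Z.card * ((MM.filter fun a => ∀ x ∈ Z, a x = true).card : ℝ) ≤
        (31 : ℝ) ^ Z.card * (MM.card : ℝ) := by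
      have e1 : (2 : ℕ) ^ (4 + 1) = 32 := by norm_num
      rw [e1] at h1
      exact_mod_cast h1
    rw [div_pow, div_mul_eq_mul_div, le_div_iff₀ (by positivity)]
    linarith
  -- the data
  have hblk : ∀ u < L, (blk w (w * L) u).card = w * w := fun u hu =>
    card_blk (Nat.mul_le_mul_left _ hu)
  have hcov : ∀ t ≤ T, ∀ I : It (Fin w × Fin (w * L)),
      Cov (Grid w (w * L)).Adj I.vars (GL_z out Fr t I) := by
    intro t ht I x y hxy hx hy
    rw [GL_mem_z, GL_mem_z]
    exact hE1 t ht I x y hxy hx hy
  let D : (Fin w × Fin (w * L) → Bool) → ℕ → Finset ℕ := fun a t =>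
    (Finset.range L).filter fun u => ∃ I ∈ Fr a (min t T), GL_tk I u
  have hD : ∀ a t u, u ∈ D a t ↔ u < L ∧ ∃ I ∈ Fr a (min t T), GL_tk I u := by
    intro a t u
    show u ∈ (Finset.range L).filter _ ↔ _
    rw [Finset.mem_filter, Finset.mem_range]
  let Fam : ℕ → Finset (Finset (Fin w × Fin (w * L))) := fun t =>
    (M (min t T) ×ˢ Finset.range L).image fun x =>
      GL_z out Fr (min t T) x.1 ∩ (blk w (w * L) x.2 ∪ blk w (w * L) (x.2 + 1))
  let Fst : ℕ → Finset (Finset (Fin w × Fin (w * L))) := fun t =>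
    if t < T then
      ((M (t + 1) ×ˢ M t).image fun x => GL_y out Fr t x.1 x.2) ∪
        ((M t ×ˢ M t).image fun x => GL_z out Fr t x.1 ∪ GL_z out Fr t x.2)
    else ∅
  have hFam : ∀ t, (Fam t).card ≤ S * L := by
    intro t
    refine Finset.card_image_le.trans ?_
    rw [Finset.card_product, Finset.card_range]
    exact Nat.mul_le_mul_right _ (hprog.mem _ (min_le_right _ _))
  have hFst : ∀ t, (Fst t).card ≤ 2 * S ^ 2 := by
    intro t
    show (if t < T then _ else _ : Finset (Finset (Fin w × Fin (w * L)))).card ≤ _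
    split_ifs with ht
    · refine (Finset.card_union_le _ _).trans ?_
      have h1 := hprog.mem t ht.le
      have h2 := hprog.mem (t + 1) ht
      have e1 : ((M (t + 1) ×ˢ M t).image fun x => GL_y out Fr t x.1 x.2).card ≤ S * S := by
        refine Finset.card_image_le.trans ?_
        rw [Finset.card_product]
        exact Nat.mul_le_mul h2 h1
      have e2 : ((M t ×ˢ M t).image fun x => GL_z out Fr t x.1 ∪ GL_z out Fr t x.2).card ≤ S * S := by
        refine Finset.card_image_le.trans ?_
        rw [Finset.card_product]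
        exact Nat.mul_le_mul h1 h1
      calc _ ≤ S * S + S * S := add_le_add e1 e2
        _ = 2 * S ^ 2 := by ring
    · simp
  rw [hAc, hMc]
  refine count (31 / 32) (by norm_num) (by norm_num) MM A ?_ hones (blk w (w * L))
    (fun u v huv => disj_blk huv) L (w / 4) J (S * L) (2 * S ^ 2) R l D ?_ ?_ Fam hFam ?_ Fst hFst ?_
    hR hl0 hl
  · intro a ha
    rw [hMM, Set.mem_toFinset]
    exact hmod ((hmemA a).1 ha)
  · -- empty at time zero
    intro a ha u _ hu
    rw [hD] at hu
    obtain ⟨-, I, hI, -⟩ := hu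
    rw [Nat.zero_min] at hI
    have := fro.sub a ((hmemA a).1 ha) 0 (Nat.zero_le _) hI
    rw [hprog.start] at this
    simp at this
  · -- full at the end
    intro a ha u hu
    rw [hD, min_eq_right hT]
    refine ⟨hu, out, fro.top a ((hmemA a).1 ha), ?_⟩
    unfold GL_tk
    have h1 : blk w (w * L) u ∩ out.vars = blk w (w * L) u := by
      rw [Finset.inter_eq_left]
      intro x _
      exact hfull x
    rw [h1, hblk u hu]
    have : 0 < w * w := Nat.mul_pos hw hw
    omega
  · -- separated pairs
    intro a ha t u hu hs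
    have ha' := (hmemA a).1 ha
    set s := min t T with hsdef
    have hsT : s ≤ T := min_le_right _ _
    have hu2 : w * (u + 2) ≤ w * L := Nat.mul_le_mul_left _ hu
    have main : ∀ I ∈ Fr a s, ((w * w < 4 * (blk w (w * L) u ∩ I.vars).card ∧
        2 * (blk w (w * L) (u + 1) ∩ I.vars).card ≤ w * w) ∨
        (w * w < 4 * (blk w (w * L) (u + 1) ∩ I.vars).card ∧
          2 * (blk w (w * L) u ∩ I.vars).card ≤ w * w)) →
        ∃ E ∈ Fam t, E ⊆ blk w (w * L) u ∪ blk w (w * L) (u + 1) ∧ w / 4 ≤ E.card ∧
          ∀ x ∈ E, a x = true := by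
      intro I hI hcase
      refine ⟨GL_z out Fr s I ∩ (blk w (w * L) u ∪ blk w (w * L) (u + 1)), ?_,
        Finset.inter_subset_right, grid_two hu2 (hcov s hsT I) hcase, ?_⟩
      · show _ ∈ Finset.image _ _
        rw [Finset.mem_image]
        refine ⟨(I, u), ?_, rfl⟩
        rw [Finset.mem_product, Finset.mem_range]
        exact ⟨fro.sub a ha' s hsT hI, by omega⟩
      · intro x hx
        have hx1 := (Finset.mem_inter.1 hx).1
        rw [GL_mem_z] at hx1
        exact hx1 a ha' hI
    unfold Pool.Agent.TSP.Sep at hs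
    rw [hD, hD] at hs
    by_cases h1 : ∃ I ∈ Fr a s, GL_tk I u
    · obtain ⟨I, hI, hIu⟩ := h1
      have h2 : ¬ ∃ I ∈ Fr a s, GL_tk I (u + 1) := by
        intro h2
        exact hs ⟨fun _ => ⟨hu, h2⟩, fun _ => ⟨by omega, I, hI, hIu⟩⟩
      have h3 : ¬ GL_tk I (u + 1) := fun h => h2 ⟨I, hI, h⟩
      unfold GL_tk at h3 hIu
      exact main I hI (Or.inl ⟨by omega, by omega⟩)
    · by_cases h2 : ∃ I ∈ Fr a s, GL_tk I (u + 1)
      · obtain ⟨I, hI, hIu⟩ := h2
        have h3 : ¬ GL_tk I u := fun h => h1 ⟨I, hI, h⟩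
        unfold GL_tk at h3 hIu
        exact main I hI (Or.inr ⟨by omega, by omega⟩)
      · exact absurd ⟨fun h => absurd h.2 h1, fun h => absurd h.2 h2⟩ hs
  · -- one step
    intro a ha t N hN hNc
    have ha' := (hmemA a).1 ha
    have hNne : N.Nonempty := by
      rw [← Finset.card_pos]
      omega
    have htT : t < T := by
      by_contra hge
      rw [not_lt] at hge
      obtain ⟨u, hu⟩ := hNne
      obtain ⟨-, h1, h2⟩ := hN u hu
      rw [hD, min_eq_right hge] at h1
      rw [hD, min_eq_right (by omega)] at h2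
      exact h1 h2
    have e1 : min t T = t := min_eq_left htT.le
    have e2 : min (t + 1) T = t + 1 := min_eq_left htT
    obtain ⟨I0, hI0, hcase⟩ := fro.step a ha' t htT
    have hnot : ∀ u ∈ N, ∀ J ∈ Fr a t, ¬ GL_tk J u := by
      intro u hu J hJ hJu
      obtain ⟨h0, h1, -⟩ := hN u hu
      rw [hD, e1] at h1
      exact h1 ⟨h0, J, hJ, hJu⟩
    have htake : ∀ u ∈ N, I0 ∈ Fr a (t + 1) ∧ GL_tk I0 u := by
      intro u hu
      obtain ⟨-, -, h2⟩ := hN u hu
      rw [hD, e2] at h2
      obtain ⟨-, I, hI, hIu⟩ := h2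
      rcases hI0 I hI with rfl | h
      · exact ⟨hI, hIu⟩
      · exact absurd hIu (hnot u hu I h)
    obtain ⟨u0, hu0⟩ := hNne
    have hI0m : I0 ∈ Fr a (t + 1) := (htake u0 hu0).1
    have hFstt : Fst t = ((M (t + 1) ×ˢ M t).image fun x => GL_y out Fr t x.1 x.2) ∪
        ((M t ×ˢ M t).image fun x => GL_z out Fr t x.1 ∪ GL_z out Fr t x.2) := by
      show (if t < T then _ else _ : Finset (Finset (Fin w × Fin (w * L)))) = _
      rw [if_pos htT]
    rcases hcase hI0m with hc | hc | ⟨J', hJ, hJv, hJs⟩ | ⟨J', hJ, K, hK, hJK⟩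
    · exact absurd (htake u0 hu0).2 (hnot u0 hu0 I0 hc)
    · -- a leaf
      exfalso
      have h1 : ∀ u ∈ N, (w * w) / 2 + 1 ≤ (I0.vars ∩ blk w (w * L) u).card := by
        intro u hu
        have := (htake u hu).2
        unfold GL_tk at this
        rw [Finset.inter_comm] at this
        omega
      have h2 := GL_sum I0.vars N ((w * w) / 2 + 1) h1
      have h3 : l * (w * w) ≤ N.card * (w * w) := Nat.mul_le_mul_right _ hNc
      have h4 : w * w ≤ 2 * ((w * w) / 2 + 1) := by omega
      have h5 : N.card * (w * w) ≤ N.card * (2 * ((w * w) / 2 + 1)) := Nat.mul_le_mul_left _ h4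
      have h6 : N.card * (2 * ((w * w) / 2 + 1)) = 2 * (((w * w) / 2 + 1) * N.card) := by ring
      omega
    · -- a combination
      refine ⟨GL_y out Fr t I0 J', ?_, ?_, ?_⟩
      · rw [hFstt, Finset.mem_union, Finset.mem_image]
        left
        refine ⟨(I0, J'), ?_, rfl⟩
        rw [Finset.mem_product]
        exact ⟨fro.sub a ha' _ htT hI0m, fro.sub a ha' _ htT.le hJ⟩
      · intro x hx
        rw [GL_mem_y] at hx
        exact hx a ha' hI0m hJ
      · apply GL_sum
        intro u hu
        have huL : u < L := (hN u hu).1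
        have hub : w * (u + 1) ≤ w * L := Nat.mul_le_mul_left _ huL
        have h1 := (htake u hu).2
        have h2 := hnot u hu J' hJ
        unfold GL_tk at h1 h2
        by_cases h3 : w * w < 4 * (blk w (w * L) u ∩ J'.vars).card
        · have h4 := grid_one hub (hcov t htT.le J') h3 (by omega)
          refine h4.trans (Finset.card_le_card ?_)
          intro x hx
          rw [Finset.mem_inter, GL_mem_z] at hx
          rw [Finset.mem_inter, GL_mem_y]
          exact ⟨fun b hb _ hb2 => hx.1 b hb hb2, hx.2⟩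
        · refine grid_free (X := I0.vars \ J'.vars) ?_ hub ?_
          · intro x hx y hxy
            rw [Finset.mem_sdiff] at hx
            rw [GL_mem_y]
            exact hE2 t htT I0 J' hJs x y hxy hx.1 hx.2
          · have h4 : (blk w (w * L) u ∩ I0.vars).card ≤
                (blk w (w * L) u ∩ (I0.vars \ J'.vars)).card + (blk w (w * L) u ∩ J'.vars).card := by
              refine le_trans (Finset.card_le_card ?_) (Finset.card_union_le _ _)
              intro x hx
              rw [Finset.mem_inter] at hx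
              rw [Finset.mem_union, Finset.mem_inter, Finset.mem_inter, Finset.mem_sdiff]
              by_cases hxJ : x ∈ J'.vars
              · exact Or.inr ⟨hx.1, hxJ⟩
              · exact Or.inl ⟨hx.1, hx.2, hxJ⟩
            omega
    · -- a product
      refine ⟨GL_z out Fr t J' ∪ GL_z out Fr t K, ?_, ?_, ?_⟩
      · rw [hFstt, Finset.mem_union]
        right
        rw [Finset.mem_image]
        refine ⟨(J', K), ?_, rfl⟩
        rw [Finset.mem_product]
        exact ⟨fro.sub a ha' _ htT.le hJ, fro.sub a ha' _ htT.le hK⟩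
      · intro x hx
        rcases Finset.mem_union.1 hx with hx | hx
        · rw [GL_mem_z] at hx
          exact hx a ha' hJ
        · rw [GL_mem_z] at hx
          exact hx a ha' hK
      · apply GL_sum
        intro u hu
        have huL : u < L := (hN u hu).1
        have hub : w * (u + 1) ≤ w * L := Nat.mul_le_mul_left _ huL
        have h1 := (htake u hu).2
        have h2 := hnot u hu J' hJ
        have h2' := hnot u hu K hK
        unfold GL_tk at h1 h2 h2'
        have h4 : (blk w (w * L) u ∩ I0.vars).card ≤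
            (blk w (w * L) u ∩ J'.vars).card + (blk w (w * L) u ∩ K.vars).card := by
          refine le_trans (Finset.card_le_card ?_) (Finset.card_union_le _ _)
          intro x hx
          rw [Finset.mem_inter] at hx
          rw [Finset.mem_union, Finset.mem_inter, Finset.mem_inter]
          rcases (hJK x).1 hx.2 with h | h
          · exact Or.inl ⟨hx.1, h⟩
          · exact Or.inr ⟨hx.1, h⟩
        by_cases h3 : w * w < 4 * (blk w (w * L) u ∩ J'.vars).card
        · have h5 := grid_one hub (hcov t htT.le J') h3 (by omega)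
          refine h5.trans (Finset.card_le_card ?_)
          exact Finset.inter_subset_inter_right Finset.subset_union_left
        · have h5 := grid_one hub (hcov t htT.le K) (by omega) (by omega)
          refine h5.trans (Finset.card_le_card ?_)
          exact Finset.inter_subset_inter_right Finset.subset_union_right

end TSP
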