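import Mathlib
import Pool.Agent.TSP.GLrg
import Pool.Agent.TSP.GNum

/-!
# TSP, module GLOW: the lower bound for the grid
-/

set_option autoImplicit false

namespace TSP

open Pool.Agent.TSP

/-- **Module GLOW** -/
theorem thm_GLow (hR : St_Red) (hF : St_Frt) (hE : St_End) (hP : St_Prb) (C : ℕ) (hC : 2 ^ 19 ≤ C)
    (w L lam S T : ℕ) (M : ℕ → Finset (Item (Fin w × Fin (w * L))))
    (I : Item (Fin w × Fin (w * L))) (hw : C ≤ w) (hL : 2 ≤ L) (hS : S ^ C ≤ 2 ^ w)
    (hLC : L ^ C ≤ 2 ^ w) (hlam : lam ^ 2 ≤ w * w * L) (hprog : Prog lam S T M) (hI : I ∈ M T)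
    (hmod : ∀ a, I.f a ≠ 0 → a ∈ Mod (Grid w (w * L)))
    (hbig : (Mod (Grid w (w * L))).ncard ^ C ≤ 2 ^ w * {a | I.f a ≠ 0}.ncard ^ C) :
    L ^ w ≤ T ^ C := by
  classical
  obtain ⟨M', J', hprog', hJ', hfull, hset⟩ := hR (Fin w × Fin (w * L)) lam S T M I hprog hI
  have hset' : J'.set = {a | I.f a ≠ 0} := by
    ext a
    exact hset a
  have hsub : J'.set ⊆ Mod (Grid w (w * L)) := fun a ha => hmod a ((hset a).1 ha)
  have hC0 : C ≠ 0 := by
    have : 0 < 2 ^ 19 := by norm_num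
    omega
  have hMpos : 0 < (Mod (Grid w (w * L))).ncard := by
    rw [Set.ncard_pos (Set.toFinite _)]
    exact ⟨fun _ => true, fun _ _ _ => Or.inl rfl⟩
  have hApos : 0 < {a | I.f a ≠ 0}.ncard := by
    rcases Nat.eq_zero_or_pos {a | I.f a ≠ 0}.ncard with h | h
    · rw [h, zero_pow hC0, mul_zero] at hbig
      have := pow_pos hMpos C
      omega
    · exact h
  have hT : 1 ≤ T := by
    rcases Nat.eq_zero_or_pos T with h | h
    · rw [h, hprog.start] at hI
      simp at hI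
    · exact h
  have hMR : (0 : ℝ) < ((Mod (Grid w (w * L))).ncard : ℝ) := by exact_mod_cast hMpos
  have hAR : (0 : ℝ) < ({a | I.f a ≠ 0}.ncard : ℝ) := by exact_mod_cast hApos
  refine thm_GNum C hC w L S T lam (({a | I.f a ≠ 0}.ncard : ℝ) / ((Mod (Grid w (w * L))).ncard : ℝ))
    hw hL hT hS hLC hlam (by positivity) ?_ ?_
  · rw [div_pow, ← mul_div_assoc, one_le_div (by positivity)]
    exact_mod_cast hbig
  · intro J R l hJ hR1 hl0 hl hlam2
    rw [div_le_iff₀ hMR]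
    have hw1 : 1 ≤ w := by omega
    have := thm_GLrg hF hE hP w L lam S (T + 1) M' J' hprog' hJ' hfull hsub hw1 J R l hJ hR1 hl0 hl
      hlam2
    rw [hset'] at this
    exact this

end TSP
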