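import Pool.Agent.TSP.St
import Pool.Agent.TSP.GLrg

/-!
# TSP, module MAIN: assembly
-/

set_option autoImplicit false

namespace TSP

open Pool.Agent.TSP Finset

private theorem Main_mono {w l S T S' T' : ℕ} (h : Count w l S T) (hS : S ≤ S') (hT : T ≤ T') :
    Count w l S' T' := by
  obtain ⟨T1, hT1, M, hM, I, hI, h⟩ := h
  exact ⟨T1, hT1.trans hT, M, ⟨hM.start, fun t ht => (hM.mem t ht).trans hS, hM.step⟩, I, hI, h⟩

/-- **Module MAIN** -/
theorem thm_Main (h1 : St_Red) (h2 : St_Frt) (h3 : St_End) (h4 : St_Prb) (h5 : St_Num)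
    (h6 : St_UpA) (h7 : St_UpB) : St_Main := by
  obtain ⟨C0, hC0, hN⟩ := h5
  obtain ⟨CA, hA⟩ := h6
  obtain ⟨CB, hB⟩ := h7
  refine ⟨C0 + CA + (CB + 1), by omega, ?_⟩
  intro w L hw hL
  have hw1 : 1 ≤ w := by omega
  have hwL : 2 ≤ w * L := by
    have := Nat.mul_le_mul hw1 hL
    omega
  refine ⟨?_, ?_, ?_⟩
  · intro hLw K S T M I hK hS hprog hI hmod hcard
    obtain ⟨M', J, hM', hJ, hfull, hset⟩ := h1 (Fin w × Fin (w * L)) K S T M I hprog hI
    have hse : J.set = {a | I.f a ≠ 0} := Set.ext fun a => hset a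
    have hsub : J.set ⊆ Mod (gr w (w * L)) := fun a ha => hmod a ((hset a).1 ha)
    have hT : 1 ≤ T := by
      rcases Nat.eq_zero_or_pos T with h | h
      · subst h
        rw [hprog.start] at hI
        exact absurd hI (Finset.notMem_empty _)
      · exact h
    have hS1 : 1 ≤ S := (Finset.card_pos.2 ⟨I, hI⟩).trans_le (hprog.mem T le_rfl)
    -- the number of the models
    have hm : 0 < (Mod (gr w (w * L))).ncard := by
      rw [Set.ncard_pos (Set.toFinite _)]
      exact ⟨fun _ => true, fun u v _ => Or.inl rfl⟩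
    set m : ℕ := (Mod (gr w (w * L))).ncard with hmdef
    set o : ℕ := {a | I.f a ≠ 0}.ncard with hodef
    have hmR : (0 : ℝ) < m := by exact_mod_cast hm
    have hC1 : C0 + CA + (CB + 1) ≠ 0 := by omega
    have ho : 0 < o := by
      rcases Nat.eq_zero_or_pos o with h | h
      · rw [h, zero_pow hC1, mul_zero] at hcard
        have := pow_pos hm (C0 + CA + (CB + 1))
        omega
      · exact h
    have hoR : (0 : ℝ) < o := by exact_mod_cast ho
    refine hN (C0 + CA + (CB + 1)) (by omega) w L K S T ((o : ℝ) / m) hw hL hLw hT hS1 hS hK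
      (div_pos hoR hmR) ?_ ?_
    · have h8 : ((m : ℝ)) ^ (C0 + CA + (CB + 1)) ≤ 2 ^ w * (o : ℝ) ^ (C0 + CA + (CB + 1)) := by
        exact_mod_cast hcard
      rw [div_pow, ← mul_div_assoc, le_div_iff₀ (pow_pos hmR _), one_mul]
      exact h8
    · intro J' R l hT' hR hl0 hl hlam
      have h9 := thm_GLrg h2 h3 h4 w L K S (T + 1) M' J hM' hJ hfull hsub hw1 J' R l hT' hR hl0 hl
        hlam
      rw [hse] at h9
      rw [div_le_iff₀ hmR]
      exact h9
  · refine Main_mono (hB w (w * L) hw1 (by omega)) ?_ ?_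
    · exact Nat.pow_le_pow_right (by norm_num) (Nat.mul_le_mul_right w (by omega))
    · have e1 : w ≤ 2 ^ w := Nat.lt_two_pow_self.le
      calc 2 ^ (CB * w) * (w * L) = 2 ^ (CB * w) * w * L := (mul_assoc _ _ _).symm
        _ ≤ 2 ^ (CB * w) * 2 ^ w * L := Nat.mul_le_mul_right _ (Nat.mul_le_mul_left _ e1)
        _ = 2 ^ ((CB + 1) * w) * L := by rw [← pow_add, Nat.succ_mul]
        _ ≤ 2 ^ ((C0 + CA + (CB + 1)) * w) * L :=
          Nat.mul_le_mul_right _ (Nat.pow_le_pow_right (by norm_num)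
            (Nat.mul_le_mul_right w (by omega)))
  · refine Main_mono (hA w (w * L) hw1 hwL) ?_ ?_
    · exact Nat.mul_le_mul_right _ (by omega)
    · exact Nat.pow_le_pow_right (by omega) (Nat.mul_le_mul_right w (by omega))

end TSP
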