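import Pool.Agent.TSP.St2

/-!
# TSP, module MAIN2: assembly, second form
-/

set_option autoImplicit false

namespace TSP

open Finset

private theorem Main2_mono {K w l S T S' T' : ℕ} (h : Cnt K w l S T) (hS : S ≤ S') (hT : T ≤ T') :
    Cnt K w l S' T' := by
  obtain ⟨T1, hT1, M, hM, I, hI, h⟩ := h
  exact ⟨T1, hT1.trans hT, M, ⟨hM.start, fun t ht => (hM.mem t ht).trans hS, hM.step⟩, I, hI, h⟩

/-- **Module MAIN2** -/
theorem thm_Main2 (h1 : St_Red) (h2 : St_Lrg2) (h3 : St_Num2) (h4 : St_UpB) (h5 : St_UpC)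
    (h6 : St_UpD) : St_Main2 := by
  obtain ⟨C0, hC0, hN⟩ := h3
  obtain ⟨CB, hB⟩ := h4
  obtain ⟨CC, hCC⟩ := h5
  obtain ⟨CD, hD⟩ := h6
  set C := C0 + CC + CD + (CB + 1) with hC
  refine ⟨C, by omega, ?_⟩
  intro w k L hw hk hkL
  have hw1 : 1 ≤ w := by omega
  have hL : 2 ≤ L := by omega
  have hLk : 2 ≤ L / k := (Nat.le_div_iff_mul_le (by omega)).2 hkL
  have hwL : 1 ≤ w * L := Nat.mul_pos (by omega) (by omega)
  refine ⟨?_, ?_, ?_, ?_⟩
  · intro S T M I hS hprog hI hmod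
    obtain ⟨M', J, hM', hJ, hfull, hset⟩ := h1 (Fin w × Fin (w * L)) (k * w ^ 2) S T M I hprog hI
    have hse : J.set = {a | I.f a ≠ 0} := Set.ext fun a => hset a
    have hsub : J.set ⊆ Mod (gr w (w * L)) := fun a ha => hmod a ((hset a).1 ha)
    have hT : 1 ≤ T := by
      rcases Nat.eq_zero_or_pos T with h | h
      · subst h
        rw [hprog.start] at hI
        exact absurd hI (Finset.notMem_empty _)
      · exact h
    have hom : {a | I.f a ≠ 0}.ncard ≤ (Mod (gr w (w * L))).ncard :=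
      Set.ncard_le_ncard (fun a ha => hmod a ha) (Set.toFinite _)
    refine hN C (by omega) w k L S T _ _ hw hk hkL hT hom hS ?_
    intro J' R l hT' hR hl0 hl hlk
    have h9 := h2 w L (k * w ^ 2) S (T + 1) M' J hM' hJ hfull hsub hw1 J' R l hT' hR hl0 hl (by
      calc 2 * (k * w ^ 2) = (2 * k) * (w * w) := by ring
        _ ≤ l * (w * w) := Nat.mul_le_mul_right _ hlk)
    rw [hse] at h9
    exact h9
  · refine Main2_mono (hD w k L hw1 hk hkL) (Nat.mul_le_mul_right _ (by omega)) ?_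
    exact Nat.pow_le_pow_right (by omega) (Nat.mul_le_mul_right _ (by omega))
  · refine Main2_mono (hCC w L hw1 hL) (Nat.mul_le_mul_right _ (by omega)) ?_
    exact Nat.pow_le_pow_right (by omega) (Nat.mul_le_mul_right _ (by omega))
  · have h7 : Cnt 1 w (w * L) (2 ^ (CB * w)) (2 ^ (CB * w) * (w * L)) := hB w (w * L) hw1 hwL
    refine Main2_mono h7 (Nat.pow_le_pow_right (by norm_num) (Nat.mul_le_mul_right _ (by omega))) ?_
    have e1 : w ≤ 2 ^ w := Nat.lt_two_pow_self.le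
    calc 2 ^ (CB * w) * (w * L) = 2 ^ (CB * w) * w * L := (mul_assoc _ _ _).symm
      _ ≤ 2 ^ (CB * w) * 2 ^ w * L := Nat.mul_le_mul_right _ (Nat.mul_le_mul_left _ e1)
      _ = 2 ^ ((CB + 1) * w) * L := by rw [← pow_add, Nat.succ_mul]
      _ ≤ 2 ^ (C * w) * L :=
        Nat.mul_le_mul_right _ (Nat.pow_le_pow_right (by norm_num) (Nat.mul_le_mul_right w (by omega)))

end TSP
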