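import Pool.Agent.TSP.Defs2
import Pool.Agent.TSP.St2

/-!
# TSP: statements of the modules of the final form of the theorem (MP_4ed1f9_lc; captain helper93, architects
# helper62 and helper4, theorem of helper69)

The final form: monotone arithmetic programs (polynomials with nonnegative coefficients in the weights of the
literals, sums and products without any restriction, free factors `x (v, false) + x (v, true)`) with memory for `S`
polynomials, for the partition polynomial.  Every module `NAME` proves `theorem thm_NAME : St_NAME`, or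
`theorem thm_NAME (h : St_OTHER) ... : St_NAME`, in the file `Pool/Agent/TSP/NAME.lean`.
Proofs are in the docstrings.
-/

set_option autoImplicit false

namespace TSP

open Finset MvPolynomial
open scoped BigOperators

/-- the exponent vector of the literals of the assignment `a` of the variables in `W` -/
noncomputable def mon {V : Type} (W : Finset V) (a : V → Bool) : (V × Bool) →₀ ℕ :=
  ∑ v ∈ W, Finsupp.single (v, a v) 1

/-- [Sup] supports of polynomials with nonnegative coefficients.

Proof.  (1) `coeff_mul`: the coefficient of the product is a sum of nonnegative summands, not zero iff one of them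
is not zero.  (2) the same for the sum.  (3) induction on `Y` with (1) (`Finset.induction_on`), the support of
`X (v, false) + X (v, true)` has the two elements `single (v, b) 1`.  (4) values of `mon`. (5) from (4) with `W = univ`: the
summands of `Part G` have different exponents `mon univ a`. -/
def St_Sup : Prop :=
  ∀ V : Type,
    (∀ (p q : Pol V) (m : (V × Bool) →₀ ℕ), m ∈ (p * q).support ↔
      ∃ e ∈ p.support, ∃ f ∈ q.support, e + f = m) ∧
    (∀ (M : Finset (Pol V)) (g : Pol V → Pol V) (c : Pol V → NNReal) (m : (V × Bool) →₀ ℕ),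
      m ∈ (∑ J ∈ M, MvPolynomial.C (c J) * J * g J).support ↔
        ∃ J ∈ M, c J ≠ 0 ∧ m ∈ (J * g J).support) ∧
    (∀ (Y : Finset V) (m : (V × Bool) →₀ ℕ),
      m ∈ (∏ v ∈ Y, (X (v, false) + X (v, true)) : Pol V).support ↔ ∃ b : V → Bool, m = mon Y b) ∧
    (∀ (W : Finset V) (a : V → Bool) (v : V) (b : Bool),
      (v ∈ W ∧ a v = b → mon W a (v, b) = 1) ∧ (¬ (v ∈ W ∧ a v = b) → mon W a (v, b) = 0)) ∧
    ∀ [Fintype V] (G : SimpleGraph V),
      (∀ m, m ∈ (Part G).support ↔ ∃ a ∈ Mod G, m = mon univ a) ∧
      (Part G).support.card = (Mod G).ncard ∧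
      ∀ I : Pol V, I.support ⊆ (Part G).support →
        {a | mon univ a ∈ I.support}.ncard = I.support.card

/-- [PRd] from programs with polynomials to programs with sets; from `Sup`.

Proof.  `deg_v e = e (v, false) + e (v, true)`.  A polynomial `J` is good if there is `r` such that for all `e` in its
support `e + r = mon univ a` for some `a`.  `X J` = the set of the `v` with `deg_v e ≠ 0` for some `e` in the support; if `J` is
good with `r` and not zero, `deg_v e = 1` for `v ∈ X J`, `deg_v e = 0` for `v ∉ X J`, all `e` in the support, and `v ∈ X J` iff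
`deg_v r = 0`.  `conv J = ⟨X J, {a | mon (X J) a ∈ J.support}, _⟩`, `M' t = ((M t).filter good).image conv`.
A step: if the new polynomial `I` is not good, `M' (t+1) ⊆ M' t` (compute the empty item).  If `I = 0` or `I` is a leaf:
`conv I` is a leaf (`X I ⊆ U`, `MvPolynomial.mem_vars`).  Let `I ≠ 0` be good with `r`.
Combination: `Q = conv J` for the `J ∈ M t` with `c J ≠ 0`, `J ≠ 0`.  For `e ∈ J.support`, `b` any assignment,
`e + mon (Y J) b ∈ I.support`, so `J` is good with `mon (Y J) b + r`, and `X I` is the disjoint union of `X J` and `Y J`.  If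
`mon (X I) a = e + mon (Y J) b` then `e = mon (X J) a`; conversely `mon (X J) a + mon (Y J) a = mon (X I) a`.
Product `I = J * K`: `e ∈ J.support`, `f ∈ K.support`: `e + f + r = mon univ a'`, so `J` is good with `f + r`, `K` is good with
`e + r`, `X I` is the disjoint union of `X J` and `X K`; if `mon (X I) a = e + f` then `e = mon (X J) a`, `f = mon (X K) a`.
The last polynomial `I ≠ 0` is good with `r = 0`, `X I = univ`. -/
def St_PRd : Prop :=
  ∀ (V : Type) [Fintype V] (G : SimpleGraph V) (K S T : ℕ) (M : ℕ → Finset (Pol V)) (I : Pol V),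
    ProgP K S T M → I ∈ M T → I ≠ 0 → I.support ⊆ (Part G).support →
    ∃ (M' : ℕ → Finset (It V)) (J : It V), ProgB K S T M' ∧ J ∈ M' T ∧ (∀ v, v ∈ J.vars) ∧
      J.set ⊆ Mod G ∧ J.set.ncard = I.support.card

/-- `Part` can be computed in at most `T` steps with memory for `S` polynomials and leaves of `K` variables -/
def Cmp (K w l S T : ℕ) : Prop :=
  ∃ T' ≤ T, ∃ M : ℕ → Finset (Pol (Fin w × Fin l)), ProgP K S T' M ∧ Part (gr w l) ∈ M T'

/-- [Tra] from items to polynomials.

Proof.  For `W : Finset V` and `g : (V → Bool) → NNReal` let `H W g` be the sum of the `monomial (mon W b) (g b)` over the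
`b : V → Bool` with `b v = false` for `v ∉ W`.  If `g` depends on `W` only, `h` on `W'` only and `W`, `W'` are disjoint,
`H W g * H W' h = H (W ∪ W') (g * h)` (the pairs correspond to the assignments of the union); `C c * H W g = H W (c g)`;
sums; `∏ v ∈ Y, (X (v, false) + X (v, true)) = H Y 1` (induction on `Y`).  The item `I` goes to `pol I = H I.vars I.f`.  Leaves go
to leaves, products to products, and combinations to combinations with `Y (pol J) = I.vars \ J.vars` (if several items
of `M` have the same polynomial they have the same values on all assignments, and the same set of variables if they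
are not zero; choose one item for every polynomial and add the coefficients).  `M' t = (M t).image pol`, and one more
step: `Part G = pol I * ∏ v ∈ univ \ I.vars, (...)` for the last item `I`, `M' (T' + 1) = {Part G}`. -/
def St_Tra : Prop :=
  ∀ K w l S T : ℕ, Cnt K w l S T → Cmp K w l S (T + 1)

/-- [Main3] from `PRd`, `Sup`, `Tra`, `Lrg2`, `Num2`, and `St_Main2`. -/
def St_Main3 : Prop :=
  ∃ C : ℕ, 1 ≤ C ∧ ∀ w k L : ℕ, C ≤ w → 1 ≤ k → 2 * k ≤ L →
    (∀ (S T : ℕ) (M : ℕ → Finset (Pol (Fin w × Fin (w * L)))) (I : Pol (Fin w × Fin (w * L))),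
      S ^ C ≤ 2 ^ w → ProgP (k * w ^ 2) S T M → I ∈ M T →
      I.support ⊆ (Part (gr w (w * L))).support →
      I.support.card ^ C * L ^ w ≤ (T * (Part (gr w (w * L))).support.card) ^ C * k ^ w) ∧
    Cmp (k * w ^ 2) w (w * L) (C * Nat.log 2 (L / k)) ((L / k) ^ (C * w)) ∧
    Cmp 1 w (w * L) (C * Nat.log 2 (w * L)) (L ^ (C * w)) ∧
    Cmp 1 w (w * L) (2 ^ (C * w)) (2 ^ (C * w) * L)

end TSP
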